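import Pool.Agent.H561.Q4.F8

set_option autoImplicit false

/-! Primes in progressions, large frequencies, by Heath-Brown's identity. -/

namespace Pool.Agent.H561.Q4

open Finset
open Pool.Agent.helper24_UT
open Pool.Agent.helper24_UT.II
open Pool.Agent.H376R2.MR (ch er DP FK)

theorem t_FRL4 (hT1 : S_T1) (hMAP : S_MAP) : S_FRL4 := by
  intro e A B he
  obtain ⟨C, hC, hmv⟩ := Pool.Agent.H376R2.MR.mv
  have he0 : (0 : ℝ) < e := by
    have : 0 < e := by omega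
    exact_mod_cast this
  obtain ⟨K2, Y2, h2⟩ := prodE hC hmv hT1 hMAP e (A + 3) B 1 he
  obtain ⟨K4, Y4, h4⟩ := prodE hC hmv hT1 hMAP e (A + 3) B 3 he
  obtain ⟨K6, Y6, h6⟩ := prodE hC hmv hT1 hMAP e (A + 3) B 5 he
  obtain ⟨K8, Y8, h8⟩ := prodE hC hmv hT1 hMAP e (A + 3) B 7 he
  obtain ⟨n1, hn1⟩ := Filter.eventually_atTop.1 (Pool.Agent.helper24_UT.Sil2.ev_pow 0 (1 / (2 * e)) 3 (by positivity))
  refine ⟨max (max K2 K4) (max K6 K8), Y2 + Y4 + Y6 + Y8 + n1 + ⌈Real.exp 10⌉₊, ?_⟩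
  intro Y hY q r hq hqB hrq K₁ hK₁
  have hYa : ⌈Real.exp 10⌉₊ ≤ Y := by omega
  have hY1 : Real.exp 10 ≤ Y := (Nat.le_ceil _).trans (Nat.cast_le.mpr hYa)
  have hY0 : (0 : ℝ) < Y := (Real.exp_pos _).trans_le hY1
  have hYn : 1 ≤ Y := by exact_mod_cast hY0
  have hYr : (1 : ℝ) ≤ Y := by exact_mod_cast hYn
  have hl10 : 10 ≤ Real.log Y := by
    rw [Real.le_log_iff_exp_le hY0]
    exact hY1
  have hn1 := hn1 Y (by omega)
  rw [pow_zero, mul_one] at hn1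
  -- the length of the Moebius sums
  obtain ⟨z, hz⟩ : ∃ z : ℕ, z = ⌈(3 * (Y : ℝ)) ^ (1 / 4 : ℝ)⌉₊ := ⟨_, rfl⟩
  have hz4 : 3 * Y ≤ z ^ 4 := by
    have h1 : (3 * (Y : ℝ)) ^ (1 / 4 : ℝ) ≤ z := by
      rw [hz]
      exact Nat.le_ceil _
    have h3 : ((3 * (Y : ℝ)) ^ (1 / 4 : ℝ)) ^ 4 = 3 * Y := by
      rw [← Real.rpow_natCast, ← Real.rpow_mul (by positivity)]
      norm_num
    have h5 : (3 * (Y : ℝ)) ≤ (z : ℝ) ^ 4 := by
      rw [← h3]
      exact pow_le_pow_left₀ (by positivity) h1 4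
    exact_mod_cast h5
  have hzu : (z : ℝ) ≤ (Y : ℝ) ^ (1 / 4 + 1 / (2 * e) : ℝ) := by
    have h1 : (z : ℝ) ≤ (3 * (Y : ℝ)) ^ (1 / 4 : ℝ) + 1 := by
      rw [hz]
      exact (Nat.ceil_lt_add_one (by positivity)).le
    have h3 : (3 * (Y : ℝ)) ^ (1 / 4 : ℝ) ≤ 2 * (Y : ℝ) ^ (1 / 4 : ℝ) := by
      rw [Real.mul_rpow (by norm_num) hY0.le]
      apply mul_le_mul_of_nonneg_right _ (by positivity)
      calc (3 : ℝ) ^ (1 / 4 : ℝ) ≤ 16 ^ (1 / 4 : ℝ) := Real.rpow_le_rpow (by norm_num) (by norm_num) (by norm_num)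
        _ = 2 := by
            rw [show (16 : ℝ) = 2 ^ (4 : ℝ) by norm_num, ← Real.rpow_mul (by norm_num)]
            norm_num
    have h5 : (1 : ℝ) ≤ (Y : ℝ) ^ (1 / 4 : ℝ) := Real.one_le_rpow hYr (by norm_num)
    rw [Real.rpow_add hY0]
    nlinarith
  have hkk : ∀ K' : ℕ, K' ≤ max (max K2 K4) (max K6 K8) →
      (FK K₁).filter (fun k : ℤ => (Real.log Y) ^ (max (max K2 K4) (max K6 K8)) ≤ |(k : ℝ)|) ⊆
      (FK K₁).filter (fun k : ℤ => (Real.log Y) ^ K' ≤ |(k : ℝ)|) := by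
    intro K' hK' k hk
    rw [mem_filter] at hk ⊢
    exact ⟨hk.1, (pow_le_pow_right₀ (by linarith) hK').trans hk.2⟩
  have tz : Typ z zt := Or.inl rfl
  have tl : Typ z lg := Or.inr (Or.inl rfl)
  have tm : Typ z (muz z) := Or.inr (Or.inr rfl)
  have h2 := h2 Y (by omega) q r hq hqB hrq K₁ hK₁ z hzu ![lg, muz z] (by
    intro i
    fin_cases i
    · exact tl
    · exact tm)
  have h4 := h4 Y (by omega) q r hq hqB hrq K₁ hK₁ z hzu ![lg, zt, muz z, muz z] (by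
    intro i
    fin_cases i
    · exact tl
    · exact tz
    · exact tm
    · exact tm)
  have h6 := h6 Y (by omega) q r hq hqB hrq K₁ hK₁ z hzu ![lg, zt, zt, muz z, muz z, muz z] (by
    intro i
    fin_cases i
    · exact tl
    · exact tz
    · exact tz
    · exact tm
    · exact tm
    · exact tm)
  have h8 := h8 Y (by omega) q r hq hqB hrq K₁ hK₁ z hzu ![lg, zt, zt, zt, muz z, muz z, muz z, muz z] (by
    intro i
    fin_cases i
    · exact tl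
    · exact tz
    · exact tz
    · exact tz
    · exact tm
    · exact tm
    · exact tm
    · exact tm)
  have p2 : (∏ i, (![lg, muz z] : Fin 2 → AC) i) = lg * muz z := by
    simp [Fin.prod_univ_succ]
  have p4 : (∏ i, (![lg, zt, muz z, muz z] : Fin 4 → AC) i) = lg * zt * muz z ^ 2 := by
    simp [Fin.prod_univ_succ]
    ring
  have p6 : (∏ i, (![lg, zt, zt, muz z, muz z, muz z] : Fin 6 → AC) i) = lg * zt ^ 2 * muz z ^ 3 := by
    simp [Fin.prod_univ_succ]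
    ring
  have p8 : (∏ i, (![lg, zt, zt, zt, muz z, muz z, muz z, muz z] : Fin 8 → AC) i) = lg * zt ^ 3 * muz z ^ 4 := by
    simp [Fin.prod_univ_succ]
    ring
  rw [p2] at h2
  rw [p4] at h4
  rw [p6] at h6
  rw [p8] at h8
  set KK := (FK K₁).filter (fun k : ℤ => (Real.log Y) ^ (max (max K2 K4) (max K6 K8)) ≤ |(k : ℝ)|) with hKK
  obtain ⟨S, hS⟩ : ∃ S, S = (Ioc Y (3 * Y)).filter (fun n => n % q = r % q) := ⟨_, rfl⟩
  rw [← hS] at h2 h4 h6 h8 ⊢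
  have g2 := (sum_le_sum_of_subset_of_nonneg (hkk K2 ((le_max_left _ _).trans (le_max_left _ _)))
    (fun k _ _ => sq_nonneg ‖DP S (lg * muz z : AC) k‖)).trans h2
  have g4 := (sum_le_sum_of_subset_of_nonneg (hkk K4 ((le_max_right _ _).trans (le_max_left _ _)))
    (fun k _ _ => sq_nonneg ‖DP S (lg * zt * muz z ^ 2 : AC) k‖)).trans h4
  have g6 := (sum_le_sum_of_subset_of_nonneg (hkk K6 ((le_max_left _ _).trans (le_max_right _ _)))
    (fun k _ _ => sq_nonneg ‖DP S (lg * zt ^ 2 * muz z ^ 3 : AC) k‖)).trans h6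
  have g8 := (sum_le_sum_of_subset_of_nonneg (hkk K8 ((le_max_right _ _).trans (le_max_right _ _)))
    (fun k _ _ => sq_nonneg ‖DP S (lg * zt ^ 3 * muz z ^ 4 : AC) k‖)).trans h8
  have hdec : ∀ k : ℤ, DP S (fun n => (ArithmeticFunction.vonMangoldt n : ℂ)) k =
      4 * DP S (lg * muz z : AC) k - 6 * DP S (lg * zt * muz z ^ 2 : AC) k + 4 * DP S (lg * zt ^ 2 * muz z ^ 3 : AC) k -
      DP S (lg * zt ^ 3 * muz z ^ 4 : AC) k := by
    intro k
    unfold DP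
    rw [mul_sum, mul_sum, mul_sum, ← sum_sub_distrib, ← sum_add_distrib, ← sum_sub_distrib]
    apply sum_congr rfl
    intro n hn
    rw [hS, mem_filter, mem_Ioc] at hn
    have h1 := hb4 z n (by omega)
    rw [La_apply] at h1
    show (ArithmeticFunction.vonMangoldt n : ℂ) * ch k (Real.log n) = _
    rw [h1]
    ring
  calc ∑ k ∈ KK, ‖DP S (fun n => (ArithmeticFunction.vonMangoldt n : ℂ)) k‖ ^ 2
      ≤ ∑ k ∈ KK, 144 * (‖DP S (lg * muz z : AC) k‖ ^ 2 + ‖DP S (lg * zt * muz z ^ 2 : AC) k‖ ^ 2 +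
        ‖DP S (lg * zt ^ 2 * muz z ^ 3 : AC) k‖ ^ 2 + ‖DP S (lg * zt ^ 3 * muz z ^ 4 : AC) k‖ ^ 2) := by
        refine sum_le_sum fun k _ => ?_
        rw [hdec k]
        exact four_sq _ _ _ _
    _ = 144 * (∑ k ∈ KK, ‖DP S (lg * muz z : AC) k‖ ^ 2 + ∑ k ∈ KK, ‖DP S (lg * zt * muz z ^ 2 : AC) k‖ ^ 2 +
        ∑ k ∈ KK, ‖DP S (lg * zt ^ 2 * muz z ^ 3 : AC) k‖ ^ 2 + ∑ k ∈ KK, ‖DP S (lg * zt ^ 3 * muz z ^ 4 : AC) k‖ ^ 2) := by
        rw [← mul_sum, sum_add_distrib, sum_add_distrib, sum_add_distrib]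
    _ ≤ 144 * ((Y : ℝ) ^ 2 / (Real.log Y) ^ (A + 3) + (Y : ℝ) ^ 2 / (Real.log Y) ^ (A + 3) +
        (Y : ℝ) ^ 2 / (Real.log Y) ^ (A + 3) + (Y : ℝ) ^ 2 / (Real.log Y) ^ (A + 3)) := by gcongr
    _ = 576 / (Real.log Y) ^ 3 * ((Y : ℝ) ^ 2 / (Real.log Y) ^ A) := by
        rw [pow_add]
        have : Real.log Y ≠ 0 := by linarith
        field_simp
        ring
    _ ≤ 1 * ((Y : ℝ) ^ 2 / (Real.log Y) ^ A) := by
        apply mul_le_mul_of_nonneg_right _ (by positivity)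
        rw [div_le_one (by positivity)]
        have : (10 : ℝ) ^ 3 ≤ (Real.log Y) ^ 3 := pow_le_pow_left₀ (by norm_num) hl10 3
        linarith
    _ = _ := one_mul _

end Pool.Agent.H561.Q4
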