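import Pool.Graph.R_pool_sql_team_seeded_620a6dc7.helper24_UT_.Sil2
import Pool.Agent.H561.Q4.Fr4

set_option autoImplicit false

namespace Pool.Agent.H561.Q4.Sil4

open Finset
open Pool.Agent.helper24_UT
open Pool.Agent.helper24_UT.Sil2
open Pool.Agent.H561.Q4.Fr4
open Pool.Agent.H376R2.MR (ch er DP FK)

/-- primes in progressions in almost all short intervals -/
def S_SIL4 : Prop := ∀ e A B : ℕ, 5 ≤ e → ∃ X₀ : ℕ, ∀ X : ℕ, X₀ ≤ X → ∀ q r : ℕ, 1 ≤ q →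
  (q : ℝ) ≤ (Real.log X) ^ B → r.Coprime q → ∀ W : ℕ, (X : ℝ) ^ (1 / 4 + 2 / e : ℝ) ≤ W → W ≤ X →
  ∑ u ∈ range X, ‖∑ n ∈ Ioc u (u + W), pdev q r n‖ ^ 2 ≤ X * (W : ℝ) ^ 2 / (Real.log X) ^ A

theorem rangeB (e A B : ℕ) (he : 5 ≤ e) (C : ℝ) (hC : 1 ≤ C)
    (hwin : ∀ (Y W J K₁ : ℕ) (P : ℝ) (a : ℕ → ℂ), 1 ≤ J → 1 ≤ W → W ≤ Y → 1 ≤ K₁ → 0 ≤ P →
      (∀ n, ‖a n‖ ≤ P) →
      ∑ u ∈ Ico Y (2 * Y), ‖∑ n ∈ Ioc u (u + W), a n‖ ^ 2 ≤
        C * ((W : ℝ) ^ 2 / Y * ∑ k ∈ FK K₁, ‖DP (Ioc Y (3 * Y)) a k‖ ^ 2 +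
          (J : ℝ) ^ 2 * Y ^ 2 * P ^ 2 * ((Y : ℝ) / K₁ ^ 2 + 1 / K₁) +
            Y * P ^ 2 * ((W : ℝ) ^ 2 / J ^ 2 + 1)))
    (Y₀ : ℕ) (hfr : ∀ Y : ℕ, Y₀ ≤ Y → ∀ q r : ℕ, 1 ≤ q →
      (q : ℝ) ≤ (Real.log Y) ^ (B + 1) → r.Coprime q →
      ∀ K₁ : ℕ, (K₁ : ℝ) ≤ (Y : ℝ) ^ (3 / 4 - 1 / e : ℝ) →
      ∑ k ∈ FK K₁, ‖DP (Ioc Y (3 * Y)) (pdev q r) k‖ ^ 2 ≤
        (Y : ℝ) ^ 2 / (Real.log Y) ^ (A + 1))
    (X : ℕ) (hX3 : 3 ≤ X) (hX0 : Y₀ ^ 2 ≤ X)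
    (hL : 320 * C * 2 ^ (A + 1) ≤ Real.log X) (hL4 : 4 ≤ Real.log X)
    (hLB : 2 ^ (B + 1) ≤ Real.log X)
    (c2 : Real.log X ^ (A + 4) ≤ (X : ℝ) ^ (1 / 2 : ℝ))
    (c4 : 320 * C ≤ (X : ℝ) ^ (1 / 4 : ℝ))
    (c5 : 80 * C * Real.log X ^ (A + 2) ≤ (X : ℝ) ^ (1 / 2 : ℝ))
    (c6 : 2 * Real.log X ^ (3 * A + 8) ≤ (X : ℝ) ^ (1 / (2 * e) : ℝ))
    (q r : ℕ) (hq : 1 ≤ q) (hqL : (q : ℝ) ≤ Real.log X ^ B) (hcop : r.Coprime q)
    (W : ℕ) (hW : (X : ℝ) ^ (1 / 4 + 2 / e : ℝ) ≤ W)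
    (Y : ℕ) (hYX : Y < X) (hY : (X : ℝ) / Real.log X ^ (A + 4) ≤ Y) (hWY : W ≤ Y) :
    ∑ u ∈ Ico Y (2 * Y), ‖∑ n ∈ Ioc u (u + W), pdev q r n‖ ^ 2 ≤
      Y * (W : ℝ) ^ 2 / (4 * Real.log X ^ A) := by
  set L := Real.log X with hLdef
  have hXR : (3 : ℝ) ≤ X := by exact_mod_cast hX3
  have hX0' : (0 : ℝ) < X := by linarith
  have hX1 : (1 : ℝ) ≤ X := by linarith
  have hL0 : 0 < L := by linarith
  have hL1 : 1 ≤ L := by linarith
  have hsX : (0 : ℝ) < (X : ℝ) ^ (1 / 2 : ℝ) := Real.rpow_pos_of_pos hX0' _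
  have hss : (X : ℝ) ^ (1 / 2 : ℝ) * (X : ℝ) ^ (1 / 2 : ℝ) = X := by
    rw [← Real.rpow_add hX0']
    norm_num
  have hYs : (X : ℝ) ^ (1 / 2 : ℝ) ≤ Y := by
    refine le_trans ?_ hY
    rw [le_div_iff₀ (by positivity)]
    calc (X : ℝ) ^ (1 / 2 : ℝ) * L ^ (A + 4) ≤ (X : ℝ) ^ (1 / 2 : ℝ) * (X : ℝ) ^ (1 / 2 : ℝ) :=
          mul_le_mul_of_nonneg_left c2 hsX.le
      _ = X := hss
  have hYXR : (Y : ℝ) ≤ X := by exact_mod_cast hYX.le
  have hY1 : (1 : ℝ) ≤ Y := le_trans (by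
    have := Real.one_le_rpow hX1 (show (0 : ℝ) ≤ 1 / 2 by norm_num)
    exact this) hYs
  have hY0' : (0 : ℝ) < Y := by linarith
  have hlogY : L / 2 ≤ Real.log Y := by
    have h1 := Real.log_le_log hsX hYs
    rw [Real.log_rpow hX0'] at h1
    linarith
  have hlogY0 : 0 < Real.log Y := by linarith
  have he0 : (0 : ℝ) < e := by
    have : 0 < e := by omega
    exact_mod_cast this
  have he5 : (5 : ℝ) ≤ e := by exact_mod_cast he
  have hW4 : (X : ℝ) ^ (1 / 4 : ℝ) ≤ W := by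
    refine le_trans ?_ hW
    apply Real.rpow_le_rpow_of_exponent_le hX1
    have : (0 : ℝ) ≤ 2 / e := by positivity
    linarith
  have hWc : 320 * C ≤ W := c4.trans hW4
  have hW0 : (0 : ℝ) < W := by linarith
  have hW1 : 1 ≤ W := by
    have : (0 : ℝ) < W := hW0
    exact_mod_cast this
  have hYY0 : Y₀ ≤ Y := by
    have h1 : ((Y₀ : ℝ)) ≤ (X : ℝ) ^ (1 / 2 : ℝ) := by
      rw [← Real.sqrt_eq_rpow]
      exact Real.le_sqrt_of_sq_le (by exact_mod_cast hX0)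
    exact_mod_cast h1.trans hYs
  -- the parameters
  have hJ1 : L ^ (A + 3) ≤ (⌈L ^ (A + 3)⌉₊ : ℝ) := Nat.le_ceil _
  have hJ2 : (⌈L ^ (A + 3)⌉₊ : ℝ) ≤ 2 * L ^ (A + 3) := by
    have h1 := (Nat.ceil_lt_add_one (show 0 ≤ L ^ (A + 3) by positivity)).le
    have h2 : (1 : ℝ) ≤ L ^ (A + 3) := one_le_pow₀ hL1
    linarith
  have hJpos : 1 ≤ ⌈L ^ (A + 3)⌉₊ := Nat.ceil_pos.2 (by positivity)
  have hK1 : (Y : ℝ) / W * L ^ (3 * A + 8) ≤ (⌈(Y : ℝ) / W * L ^ (3 * A + 8)⌉₊ : ℝ) := Nat.le_ceil _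
  have hKpos : 1 ≤ ⌈(Y : ℝ) / W * L ^ (3 * A + 8)⌉₊ := Nat.ceil_pos.2 (by positivity)
  have hK2 : (⌈(Y : ℝ) / W * L ^ (3 * A + 8)⌉₊ : ℝ) ≤ (Y : ℝ) ^ (3 / 4 - 1 / e : ℝ) := by
    have h1 := (Nat.ceil_lt_add_one (show 0 ≤ (Y : ℝ) / W * L ^ (3 * A + 8) by positivity)).le
    refine h1.trans ?_
    have hYW : (Y : ℝ) ^ (1 / 4 + 2 / e : ℝ) ≤ W := by
      refine le_trans ?_ hW
      exact Real.rpow_le_rpow hY0'.le hYXR (by positivity)
    have hYe : 2 * L ^ (3 * A + 8) ≤ (Y : ℝ) ^ (1 / e : ℝ) := by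
      refine c6.trans ?_
      calc (X : ℝ) ^ (1 / (2 * e) : ℝ) = ((X : ℝ) ^ (1 / 2 : ℝ)) ^ (1 / e : ℝ) := by
            rw [← Real.rpow_mul hX0'.le]
            congr 1
            field_simp
        _ ≤ (Y : ℝ) ^ (1 / e : ℝ) := Real.rpow_le_rpow hsX.le hYs (by positivity)
    have h2 : (Y : ℝ) / W ≤ (Y : ℝ) ^ (3 / 4 - 2 / e : ℝ) := by
      rw [div_le_iff₀ hW0]
      calc (Y : ℝ) = (Y : ℝ) ^ (3 / 4 - 2 / e : ℝ) * (Y : ℝ) ^ (1 / 4 + 2 / e : ℝ) := by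
            rw [← Real.rpow_add hY0']
            have : (3 / 4 - 2 / e + (1 / 4 + 2 / e) : ℝ) = 1 := by ring
            rw [this, Real.rpow_one]
        _ ≤ (Y : ℝ) ^ (3 / 4 - 2 / e : ℝ) * W := by gcongr
    have h3 : (1 : ℝ) ≤ (Y : ℝ) ^ (3 / 4 - 2 / e : ℝ) := by
      apply Real.one_le_rpow hY1
      have : (2 : ℝ) / e ≤ 2 / 5 := by gcongr
      linarith
    have h4 : (1 : ℝ) ≤ L ^ (3 * A + 8) := one_le_pow₀ hL1
    calc (Y : ℝ) / W * L ^ (3 * A + 8) + 1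
        ≤ (Y : ℝ) ^ (3 / 4 - 2 / e : ℝ) * L ^ (3 * A + 8) + (Y : ℝ) ^ (3 / 4 - 2 / e : ℝ) * L ^ (3 * A + 8) := by
          have h5 : (1 : ℝ) ≤ (Y : ℝ) ^ (3 / 4 - 2 / e : ℝ) * L ^ (3 * A + 8) := by nlinarith
          have h6 : (Y : ℝ) / W * L ^ (3 * A + 8) ≤ (Y : ℝ) ^ (3 / 4 - 2 / e : ℝ) * L ^ (3 * A + 8) := by gcongr
          linarith
      _ = (Y : ℝ) ^ (3 / 4 - 2 / e : ℝ) * (2 * L ^ (3 * A + 8)) := by ring
      _ ≤ (Y : ℝ) ^ (3 / 4 - 2 / e : ℝ) * (Y : ℝ) ^ (1 / e : ℝ) := by gcongr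
      _ = (Y : ℝ) ^ (3 / 4 - 1 / e : ℝ) := by
          rw [← Real.rpow_add hY0']
          congr 1
          ring
  -- the modulus
  have hqY : (q : ℝ) ≤ Real.log Y ^ (B + 1) := by
    calc (q : ℝ) ≤ L ^ B := hqL
      _ = 2 ^ B * (L / 2) ^ B := by rw [← mul_pow]; congr 1; ring
      _ ≤ Real.log Y * Real.log Y ^ B := by
          apply mul_le_mul _ (pow_le_pow_left₀ (by positivity) hlogY B) (by positivity) hlogY0.le
          rw [pow_succ] at hLB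
          linarith
      _ = Real.log Y ^ (B + 1) := by ring
  have hsum := hfr Y hYY0 q r hq hqY hcop _ hK2
  -- apply the window inequality
  have hP0 : 0 ≤ L + 4 := by linarith
  have hab : ∀ n, ‖(fun n => if n ≤ 3 * Y then pdev q r n else 0) n‖ ≤ L + 4 := by
    intro n
    simp only
    split_ifs with hn
    · refine (pdev_norm q r n (3 * X) hq (hn.trans (by omega))).trans ?_
      push_cast
      rw [Real.log_mul (by norm_num) (by linarith)]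
      have h3 : Real.log 3 ≤ 3 - 1 := Real.log_le_sub_one_of_pos (by norm_num)
      linarith
    · rw [norm_zero]
      exact hP0
  have hw := hwin Y W _ _ (L + 4) (fun n => if n ≤ 3 * Y then pdev q r n else 0) hJpos hW1 hWY hKpos
    hP0 hab
  have e1 : ∑ u ∈ Ico Y (2 * Y), ‖∑ n ∈ Ioc u (u + W), pdev q r n‖ ^ 2 =
      ∑ u ∈ Ico Y (2 * Y), ‖∑ n ∈ Ioc u (u + W),
        (fun n => if n ≤ 3 * Y then pdev q r n else 0) n‖ ^ 2 := by
    apply sum_congr rfl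
    intro u hu
    congr 2
    apply sum_congr rfl
    intro n hn
    rw [mem_Ico] at hu
    rw [mem_Ioc] at hn
    simp only
    rw [if_pos (by omega)]
  have e2 : ∀ k, DP (Ioc Y (3 * Y)) (fun n => if n ≤ 3 * Y then pdev q r n else 0) k =
      DP (Ioc Y (3 * Y)) (pdev q r) k := by
    intro k
    unfold DP
    apply sum_congr rfl
    intro n hn
    rw [mem_Ioc] at hn
    simp only
    rw [if_pos hn.2]
  rw [e1]
  refine hw.trans ?_
  simp only [e2]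
  exact arith C L Y W _ _ _ (L + 4) (Real.log Y) A hC hL hL4 hY1 hWc
    (by
      have h2 : (0 : ℝ) ≤ (X : ℝ) ^ (1 / 4 : ℝ) := by positivity
      calc 80 * C * L ^ (A + 2) ≤ (X : ℝ) ^ (1 / 2 : ℝ) := c5
        _ = (X : ℝ) ^ (1 / 4 : ℝ) * (X : ℝ) ^ (1 / 4 : ℝ) := by
            rw [← Real.rpow_add hX0']
            norm_num
        _ ≤ W * W := mul_le_mul hW4 hW4 h2 hW0.le
        _ = (W : ℝ) ^ 2 := by ring)
    hJ1 hJ2 hK1 hP0 (by linarith) hlogY hsum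

theorem main : S_WIN → S_FR4 → S_SIL4 := by
  rintro ⟨C, hC, hwin⟩ hFR e A B he
  obtain ⟨Y₀, hfr⟩ := hFR e (A + 1) (B + 1) he
  have he0 : (0 : ℝ) < e := by
    have : 0 < e := by omega
    exact_mod_cast this
  obtain ⟨XA, hA⟩ := caseA B (2 * A + 5)
  obtain ⟨X₁, hX₁⟩ := Filter.eventually_atTop.1 ((ev_log (320 * C * 2 ^ (A + 1))).and
    ((ev_log 4).and ((ev_log (2 ^ (B + 1))).and ((ev_pow (A + 4) (1 / 2) 1 (by norm_num)).and
    ((ev_pow 0 (1 / 4) (320 * C) (by norm_num)).and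
    ((ev_pow (A + 2) (1 / 2) (80 * C) (by norm_num)).and (ev_pow (3 * A + 8) (1 / (2 * e)) 2 (by positivity))))))))
  refine ⟨max X₁ (max XA (max (Y₀ ^ 2) 3)), fun X hX q r hq hqL hcop W hW hWX => ?_⟩
  obtain ⟨hL, hL4, hLB, c2, c4, c5, c6⟩ := hX₁ X (le_trans (le_max_left _ _) hX)
  have hXA : XA ≤ X := le_trans (le_trans (le_max_left _ _) (le_max_right _ _)) hX
  have hX0 : Y₀ ^ 2 ≤ X :=
    le_trans (le_trans (le_trans (le_max_left _ _) (le_max_right _ _)) (le_max_right _ _)) hX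
  have hX3 : 3 ≤ X :=
    le_trans (le_trans (le_trans (le_max_right _ _) (le_max_right _ _)) (le_max_right _ _)) hX
  rw [one_mul] at c2
  rw [pow_zero, mul_one] at c4
  set L := Real.log X with hLdef
  have hXR : (3 : ℝ) ≤ X := by exact_mod_cast hX3
  have hX0' : (0 : ℝ) < X := by linarith
  have hX1 : (1 : ℝ) ≤ X := by linarith
  have hL0 : 0 < L := by linarith
  have hL1 : 1 ≤ L := by linarith
  have hLA : 0 < L ^ A := by positivity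
  have hLA1 : 1 ≤ L ^ A := one_le_pow₀ hL1
  by_cases hcase : (X : ℝ) / L ^ (A + 4) ≤ W
  · have hterm : ∀ u ∈ range X, ‖∑ n ∈ Ioc u (u + W), pdev q r n‖ ^ 2 ≤ (W : ℝ) ^ 2 / L ^ A := by
      intro u hu
      have h1 := hA X hXA q r hq hqL hcop u W (mem_range.1 hu) hWX
      have h2 : 4 * (X : ℝ) / L ^ (2 * A + 5) ≤ W / L ^ A := by
        rw [div_le_iff₀ (by positivity)] at hcase
        rw [div_le_div_iff₀ (by positivity) hLA]
        calc 4 * (X : ℝ) * L ^ A ≤ 4 * (W * L ^ (A + 4)) * L ^ A := by gcongr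
          _ = (W * L ^ (2 * A + 4)) * 4 := by ring
          _ ≤ (W * L ^ (2 * A + 4)) * L := mul_le_mul_of_nonneg_left hL4 (by positivity)
          _ = W * L ^ (2 * A + 5) := by ring
      calc ‖∑ n ∈ Ioc u (u + W), pdev q r n‖ ^ 2 ≤ (W / L ^ A) ^ 2 :=
            pow_le_pow_left₀ (norm_nonneg _) (h1.trans h2) 2
        _ = (W : ℝ) ^ 2 / (L ^ A * L ^ A) := by rw [div_pow]; ring
        _ ≤ (W : ℝ) ^ 2 / L ^ A := by
            apply div_le_div_of_nonneg_left (by positivity) hLA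
            nlinarith
    refine (sum_le_card_nsmul _ _ _ hterm).trans ?_
    rw [card_range, nsmul_eq_mul]
    exact le_of_eq (by ring)
  · rw [not_le] at hcase
    have hD0 : 0 < L ^ (A + 4) := by positivity
    have hXD : (1 : ℝ) ≤ (X : ℝ) / L ^ (A + 4) := by
      rw [one_le_div hD0]
      refine c2.trans ?_
      calc (X : ℝ) ^ (1 / 2 : ℝ) ≤ (X : ℝ) ^ (1 : ℝ) :=
            Real.rpow_le_rpow_of_exponent_le hX1 (by norm_num)
        _ = X := Real.rpow_one _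
    set y0 := ⌈(X : ℝ) / L ^ (A + 4)⌉₊ with hy0
    have hy1 : (X : ℝ) / L ^ (A + 4) ≤ y0 := Nat.le_ceil _
    have hy2 : (y0 : ℝ) ≤ 2 * ((X : ℝ) / L ^ (A + 4)) := by
      have h1 := (Nat.ceil_lt_add_one (show 0 ≤ (X : ℝ) / L ^ (A + 4) by positivity)).le
      linarith
    have hy3 : y0 ≤ X := by
      rw [hy0, Nat.ceil_le]
      exact div_le_self hX0'.le (one_le_pow₀ hL1)
    have hypos : 1 ≤ y0 := Nat.ceil_pos.2 (by positivity)
    have hWy0 : W ≤ y0 := by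
      have : (W : ℝ) ≤ y0 := hcase.le.trans hy1
      exact_mod_cast this
    have hex : ∃ J : ℕ, X ≤ 2 ^ J * y0 := by
      refine ⟨X, ?_⟩
      have h1 : X < 2 ^ X := Nat.lt_two_pow_self
      nlinarith
    set J := Nat.find hex with hJdef
    have hJ : X ≤ 2 ^ J * y0 := Nat.find_spec hex
    have hJm : ∀ j < J, 2 ^ j * y0 < X := fun j hj => not_le.1 (Nat.find_min hex hj)
    have hsumY : ∑ j ∈ range J, ((2 ^ j * y0 : ℕ) : ℝ) ≤ 2 * X := by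
      rcases Nat.eq_zero_or_pos J with h | h
      · rw [h]
        simp
      · obtain ⟨J', hJ'⟩ : ∃ J', J = J' + 1 := ⟨J - 1, by omega⟩
        have h1 := geom y0 J
        have h2 := hJm J' (by omega)
        have h3 : 2 ^ J * y0 = 2 * (2 ^ J' * y0) := by rw [hJ']; ring
        have h4 : ∑ j ∈ range J, 2 ^ j * y0 ≤ 2 * X := by omega
        exact_mod_cast h4
    have hfirst : ∑ u ∈ range y0, ‖∑ n ∈ Ioc u (u + W), pdev q r n‖ ^ 2 ≤
        X * (W : ℝ) ^ 2 / (2 * L ^ A) := by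
      have hterm : ∀ u ∈ range y0, ‖∑ n ∈ Ioc u (u + W), pdev q r n‖ ^ 2 ≤
          4 * (W : ℝ) ^ 2 * L ^ 2 := by
        intro u hu
        rw [mem_range] at hu
        have h1 := window_norm q r u W (2 * X) hq (by omega)
        have h2 : Real.log ((2 * X : ℕ) : ℝ) + 1 ≤ 2 * L := by
          push_cast
          rw [Real.log_mul (by norm_num) (by linarith)]
          have h3 : Real.log 2 ≤ 2 - 1 := Real.log_le_sub_one_of_pos (by norm_num)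
          linarith
        have h4 : ‖∑ n ∈ Ioc u (u + W), pdev q r n‖ ≤ W * (2 * L) :=
          h1.trans (mul_le_mul_of_nonneg_left h2 (Nat.cast_nonneg _))
        calc ‖∑ n ∈ Ioc u (u + W), pdev q r n‖ ^ 2 ≤ (W * (2 * L)) ^ 2 :=
              pow_le_pow_left₀ (norm_nonneg _) h4 2
          _ = 4 * (W : ℝ) ^ 2 * L ^ 2 := by ring
      refine (sum_le_card_nsmul _ _ _ hterm).trans ?_
      rw [card_range, nsmul_eq_mul]
      calc (y0 : ℝ) * (4 * (W : ℝ) ^ 2 * L ^ 2)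
          ≤ 2 * ((X : ℝ) / L ^ (A + 4)) * (4 * (W : ℝ) ^ 2 * L ^ 2) := by gcongr
        _ = X * (W : ℝ) ^ 2 / (2 * L ^ A) * (16 / L ^ 2) := by
            field_simp
            ring
        _ ≤ X * (W : ℝ) ^ 2 / (2 * L ^ A) * 1 := by
            apply mul_le_mul_of_nonneg_left _ (by positivity)
            rw [div_le_one (by positivity)]
            nlinarith
        _ = X * (W : ℝ) ^ 2 / (2 * L ^ A) := mul_one _
    have hrest : ∑ j ∈ range J, ∑ u ∈ Ico (2 ^ j * y0) (2 * (2 ^ j * y0)),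
        ‖∑ n ∈ Ioc u (u + W), pdev q r n‖ ^ 2 ≤ X * (W : ℝ) ^ 2 / (2 * L ^ A) := by
      have hterm : ∀ j ∈ range J, ∑ u ∈ Ico (2 ^ j * y0) (2 * (2 ^ j * y0)),
          ‖∑ n ∈ Ioc u (u + W), pdev q r n‖ ^ 2 ≤
          ((2 ^ j * y0 : ℕ) : ℝ) * ((W : ℝ) ^ 2 / (4 * L ^ A)) := by
        intro j hj
        rw [mem_range] at hj
        have hge : y0 ≤ 2 ^ j * y0 := Nat.le_mul_of_pos_left _ (by positivity)
        have h1 := rangeB e A B he C hC hwin Y₀ hfr X hX3 hX0 hL hL4 hLB c2 c4 c5 c6 q r hq hqL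
          hcop W hW (2 ^ j * y0) (hJm j hj) (hy1.trans (by exact_mod_cast hge)) (hWy0.trans hge)
        refine h1.trans (le_of_eq ?_)
        ring
      refine (sum_le_sum hterm).trans ?_
      rw [← sum_mul]
      calc (∑ j ∈ range J, ((2 ^ j * y0 : ℕ) : ℝ)) * ((W : ℝ) ^ 2 / (4 * L ^ A))
          ≤ 2 * X * ((W : ℝ) ^ 2 / (4 * L ^ A)) :=
            mul_le_mul_of_nonneg_right hsumY (by positivity)
        _ = X * (W : ℝ) ^ 2 / (2 * L ^ A) := by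
            field_simp
            ring
    calc ∑ u ∈ range X, ‖∑ n ∈ Ioc u (u + W), pdev q r n‖ ^ 2
        ≤ ∑ u ∈ range (2 ^ J * y0), ‖∑ n ∈ Ioc u (u + W), pdev q r n‖ ^ 2 := by
          apply sum_le_sum_of_subset_of_nonneg
          · exact range_mono hJ
          · intro _ _ _
            positivity
      _ = _ := cover _ y0 J
      _ ≤ X * (W : ℝ) ^ 2 / (2 * L ^ A) + X * (W : ℝ) ^ 2 / (2 * L ^ A) :=
          add_le_add hfirst hrest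
      _ = X * (W : ℝ) ^ 2 / L ^ A := by
          field_simp
          norm_num



end Pool.Agent.H561.Q4.Sil4
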