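import Pool.Graph.R_pool_sql_team_seeded_620a6dc7.helper24_UT_.Si2
import Pool.Agent.H561.Q4.Sil4

set_option autoImplicit false

namespace Pool.Agent.H561.Q4.Si4

open Finset
open Pool.Agent.helper24_UT
open Pool.Agent.helper24_UT.Si2
open Pool.Agent.H561.Q4.Sil4
open Pool.Agent.H376R2.MR (ch er DP FK)
open Pool.Agent.H373R2.T7 (lamI lamzI lamz Vz pz mem_pz ev_log' ev_L' lamz_nonneg)
open Pool.Agent.Y820.LF

/-- primes minus sieve model in progressions in almost all short intervals -/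
def S_SI4 : Prop := ∀ e A B : ℕ, 5 ≤ e → ∀ E₁ : ℕ, ∃ X₀ : ℕ, ∀ X : ℕ, X₀ ≤ X → ∀ z : ℕ,
  (Real.log X) ^ B ≤ z → (z : ℝ) ≤ (Real.log X) ^ E₁ → ∀ q : ℕ, 1 ≤ q → (q : ℝ) ≤ (Real.log X) ^ B →
  ∀ W : ℕ, (X : ℝ) ^ (1 / 4 + 2 / e : ℝ) ≤ W → W ≤ X →
  ∑ u ∈ range X, NN (Ed z) (u : ℤ) W q ≤ X * (W : ℝ) ^ 2 / (Real.log X) ^ A

/-- the model in progressions in short intervals -/
theorem cop (B E₁ U : ℕ) : ∃ X₀ : ℕ, ∀ X : ℕ, X₀ ≤ X → ∀ z : ℕ, (Real.log X) ^ B ≤ z →
    (z : ℝ) ≤ (Real.log X) ^ E₁ → ∀ q : ℕ, 1 ≤ q → (q : ℝ) ≤ (Real.log X) ^ B → ∀ W : ℕ, √(√(X : ℝ)) ≤ W →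
    ∀ r : ℕ, r < q → r.Coprime q → ∀ u : ℕ,
    |(W : ℝ) / (Nat.totient q : ℝ) - ∑ n ∈ (Ioc u (u + W)).filter (fun n => n % q = r), lamz z n| ≤
      W / (Real.log X) ^ U := by
  obtain ⟨n0, h0⟩ := t_main0 1 (E₁ + 1) (U + 1) le_rfl
  obtain ⟨n1, h1⟩ := ev_L' (8 ^ (E₁ + 1) + 8 ^ (U + 2))
  obtain ⟨n2, h2⟩ := ev_log' (8 * B) 256
  obtain ⟨n3, h3⟩ := ev_log' (4 * (B + U)) 16
  refine ⟨max (max (n0 ^ 8) n1) (max n2 (max n3 1)), fun X hX z hz1 hz2 q hq hqB W hW r hr hrq u => ?_⟩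
  have c0 := ((le_max_left _ _).trans (le_max_left _ _)).trans hX
  have c1 := ((le_max_right _ _).trans (le_max_left _ _)).trans hX
  have c2 := ((le_max_left _ _).trans (le_max_right _ _)).trans hX
  have c3 := ((le_max_left _ _).trans ((le_max_right _ _).trans (le_max_right _ _))).trans hX
  have c4 := ((le_max_right _ _).trans ((le_max_right _ _).trans (le_max_right _ _))).trans hX
  have d1 := h1 X c1
  have d2 := h2 X c2
  have d3 := h3 X c3
  have hX1 : (1 : ℝ) ≤ X := by exact_mod_cast c4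
  set L := Real.log X with hL
  have p1 : (1 : ℝ) ≤ 8 ^ (E₁ + 1) := one_le_pow₀ (by norm_num)
  have p2 : (1 : ℝ) ≤ 8 ^ (U + 2) := one_le_pow₀ (by norm_num)
  have hL1 : 1 ≤ L := by linarith
  have hL0 : 0 < L := by linarith
  have hLB : 1 ≤ L ^ B := one_le_pow₀ hL1
  have hq0 : (0 : ℝ) < q := by exact_mod_cast hq
  have hq1 : (1 : ℝ) ≤ q := by exact_mod_cast hq
  -- the eighth root
  set s := √(√(√(X : ℝ))) with hs
  have hs2 : s ^ 2 = √(√(X : ℝ)) := Real.sq_sqrt (Real.sqrt_nonneg _)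
  have hsX : √(X : ℝ) ≤ X := by
    rw [Real.sqrt_le_left (by linarith)]
    nlinarith
  have hs4 : s ^ 8 = X := by
    rw [show (8 : ℕ) = 2 * 2 * 2 from rfl, pow_mul, pow_mul, hs2, Real.sq_sqrt (Real.sqrt_nonneg _), Real.sq_sqrt (by linarith)]
  have hs0 : 0 ≤ s := Real.sqrt_nonneg _
  have hsB : 2 * L ^ B ≤ s := by
    apply le_of_pow_le_pow_left₀ (n := 8) (by norm_num) hs0
    rw [hs4]
    calc (2 * L ^ B) ^ 8 = 256 * L ^ (8 * B) := by ring
      _ ≤ √X := d2
      _ ≤ X := hsX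
  have hs1 : 2 ≤ s := by linarith
  obtain ⟨a, N, hsum, hN, hua⟩ := reidx u W q r hq hr
  rw [abs_le] at hN
  have hWL : s ^ 2 ≤ W := by
    rw [hs2]
    exact hW
  have hW0 : 0 < (W : ℝ) := by nlinarith
  have hNs : s ≤ N := by
    have e1 : s ^ 2 - q ≤ q * N := by linarith [hN.1]
    have e2 : q * (2 * s) ≤ s ^ 2 := by
      calc (q : ℝ) * (2 * s) ≤ L ^ B * (2 * s) := by gcongr
        _ = (2 * L ^ B) * s := by ring
        _ ≤ s * s := mul_le_mul_of_nonneg_right hsB hs0
        _ = s ^ 2 := by ring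
    have e3 : q * (2 * s - 1) ≤ q * N := by linarith
    have e4 := le_of_mul_le_mul_left e3 hq0
    linarith
  have hN0 : (0 : ℝ) < N := by linarith
  have hNn : n0 ≤ N := by
    have e1 : (n0 : ℝ) ^ 8 ≤ s ^ 8 := by
      rw [hs4]
      exact_mod_cast c0
    have e2 : (n0 : ℝ) ≤ s := by
      by_contra hc
      push Not at hc
      have := pow_lt_pow_left₀ hc hs0 (by norm_num : (8 : ℕ) ≠ 0)
      linarith
    exact_mod_cast e2.trans hNs
  have hN2 : (N : ℝ) ≤ 2 * W := by
    have hW1 : (1 : ℝ) ≤ W := by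
      have : 0 < W := by exact_mod_cast hW0
      exact_mod_cast this
    have e1 : (q : ℝ) * N ≤ q * (W + 1) := by nlinarith [hN.2]
    have e2 := le_of_mul_le_mul_left e1 hq0
    linarith
  have hlogN : L / 8 ≤ Real.log N := by
    have e1 : Real.log s ≤ Real.log N := Real.log_le_log (by linarith) hNs
    have e2 : L = 8 * Real.log s := by
      rw [hL, ← hs4, Real.log_pow]
      norm_num
    linarith
  have hzN : (z : ℝ) ≤ Real.log N ^ (E₁ + 1) := by
    have e1 : L ^ E₁ ≤ (8 * Real.log N) ^ E₁ := pow_le_pow_left₀ hL0.le (by linarith) _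
    have e2 : (8 : ℝ) ^ E₁ ≤ Real.log N := by
      have : (8 : ℝ) ^ (E₁ + 1) ≤ L := by linarith
      rw [pow_succ] at this
      linarith
    have e3 : 0 ≤ Real.log N := by linarith
    calc (z : ℝ) ≤ L ^ E₁ := hz2
      _ ≤ (8 * Real.log N) ^ E₁ := e1
      _ = 8 ^ E₁ * Real.log N ^ E₁ := mul_pow _ _ _
      _ ≤ Real.log N * Real.log N ^ E₁ := mul_le_mul_of_nonneg_right e2 (by positivity)
      _ = Real.log N ^ (E₁ + 1) := by ring
  have hqz : q ≤ z := by exact_mod_cast hqB.trans hz1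
  have hz1' : 1 ≤ z := hq.trans hqz
  have hN1 : 1 ≤ N := by exact_mod_cast hN0
  set H : ℤ := (q : ℤ) * ((a : ℤ) - 1) + r with hH
  have hcop : IsCoprime (q : ℤ) H := by
    have e1 : IsCoprime (q : ℤ) (r : ℤ) := (Nat.isCoprime_iff_coprime.2 hrq).symm
    have e2 : H = (r : ℤ) + (q : ℤ) * ((a : ℤ) - 1) := by rw [hH]; ring
    rw [e2]
    exact e1.add_mul_left_right _
  have hpos : PosF (fun _ : Fin 1 => (q : ℤ)) (fun _ : Fin 1 => H) N := by
    intro i
    have e1 : (u : ℤ) < q * a + r := by exact_mod_cast hua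
    have e0 : (0 : ℤ) ≤ u := Int.natCast_nonneg u
    have e2 : (1 : ℤ) ≤ q + H := by
      rw [hH]
      nlinarith
    refine ⟨e2, ?_⟩
    have e3 : (q : ℤ) * 1 ≤ q * N := by
      apply mul_le_mul_of_nonneg_left _ (Int.natCast_nonneg q)
      exact_mod_cast hN1
    simp only
    linarith
  have hm := h0 N hNn z hz1' hzN (fun _ : Fin 1 => (q : ℤ)) (fun _ : Fin 1 => H) hpos (adm1 hcop)
  rw [sing_val hq hcop z hqz] at hm
  have hterm : ∑ n ∈ Icc 1 N, ∏ _i : Fin 1, lamzI z ((q : ℤ) * (n : ℤ) + H) =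
      ∑ n ∈ (Ioc u (u + W)).filter (fun n => n % q = r), lamz z n := by
    rw [hsum]
    apply sum_congr rfl
    intro k hk
    rw [mem_Icc] at hk
    rw [prod_const, card_univ, Fintype.card_fin, pow_one]
    have e1 : (q : ℤ) * (k : ℤ) + H = ((q * (a + k - 1) + r : ℕ) : ℤ) := by
      rw [hH]
      push_cast [Nat.cast_sub (show 1 ≤ a + k by omega)]
      ring
    unfold lamzI
    rw [e1]
    have e2 : (1 : ℤ) ≤ ((q * (a + k - 1) + r : ℕ) : ℤ) := by
      have e3 : q * a ≤ q * (a + k - 1) := Nat.mul_le_mul_left q (by omega)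
      have e4 : 1 ≤ q * (a + k - 1) + r := by omega
      exact_mod_cast e4
    rw [if_pos e2, Int.toNat_natCast]
  rw [hterm] at hm
  -- assembling
  set T := ∑ n ∈ (Ioc u (u + W)).filter (fun n => n % q = r), lamz z n with hT
  have hφ : (1 : ℝ) ≤ (Nat.totient q : ℝ) := by exact_mod_cast Nat.totient_pos.2 hq
  have hφ0 : (0 : ℝ) < (Nat.totient q : ℝ) := by linarith
  have f1 : |(W : ℝ) / (Nat.totient q : ℝ) - (q : ℝ) / (Nat.totient q : ℝ) * N| ≤ L ^ B := by
    have e1 : (W : ℝ) / (Nat.totient q : ℝ) - (q : ℝ) / (Nat.totient q : ℝ) * N =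
        (W - q * N) / (Nat.totient q : ℝ) := by ring
    rw [e1, abs_div, abs_of_pos hφ0, div_le_iff₀ hφ0]
    have e2 : |(W : ℝ) - q * N| ≤ q := by
      rw [abs_le]
      constructor <;> linarith [hN.1, hN.2]
    exact (e2.trans hqB).trans (le_mul_of_one_le_right (by positivity) hφ)
  have f2 : (N : ℝ) / Real.log N ^ (U + 1) ≤ W / (2 * L ^ U) := by
    have e1 : (L / 8) ^ (U + 1) ≤ Real.log N ^ (U + 1) := pow_le_pow_left₀ (by positivity) hlogN _
    have e2 : 0 < (L / 8) ^ (U + 1) := by positivity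
    calc (N : ℝ) / Real.log N ^ (U + 1) ≤ 2 * W / (L / 8) ^ (U + 1) := by
          apply div_le_div₀ (by positivity) hN2 e2 e1
      _ = W * (2 * 8 ^ (U + 1) / L) / L ^ U := by
          rw [div_pow, pow_succ L U]
          field_simp
      _ ≤ W * (1 / 2) / L ^ U := by
          apply div_le_div_of_nonneg_right _ (by positivity)
          apply mul_le_mul_of_nonneg_left _ hW0.le
          rw [div_le_iff₀ hL0]
          have h9 : (8 : ℝ) ^ (U + 2) ≤ L := by linarith
          have h10 : (0 : ℝ) < 8 ^ (U + 1) := by positivity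
          rw [pow_succ] at h9
          linarith
      _ = W / (2 * L ^ U) := by ring
  have f3 : L ^ B ≤ W / (2 * L ^ U) := by
    rw [le_div_iff₀ (by positivity)]
    refine le_trans ?_ hW
    apply Real.le_sqrt_of_sq_le
    apply Real.le_sqrt_of_sq_le
    calc ((L ^ B * (2 * L ^ U)) ^ 2) ^ 2 = 16 * L ^ (4 * (B + U)) := by ring
      _ ≤ √X := d3
      _ ≤ X := hsX
  have f4 : (W : ℝ) / (2 * L ^ U) + W / (2 * L ^ U) = W / L ^ U := by
    field_simp
    ring
  have f5 : (W : ℝ) / (Nat.totient q : ℝ) - T = ((W : ℝ) / (Nat.totient q : ℝ) - (q : ℝ) / (Nat.totient q : ℝ) * N) -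
      (T - (q : ℝ) / (Nat.totient q : ℝ) * N) := by ring
  rw [f5, ← f4]
  refine (abs_sub _ _).trans ?_
  exact add_le_add (f1.trans f3) (hm.trans f2)

theorem main : S_SIL4 → S_SI4 := by
  intro hS e A B he E₁
  obtain ⟨X1, h1⟩ := hS e (A + B + 3) B he
  obtain ⟨X2, h2⟩ := cop B E₁ (A + B + 2)
  obtain ⟨X3, h3⟩ := ev_log' (A + B + 2) 4
  obtain ⟨X4, h4⟩ := ev_L' 2
  refine ⟨max (max X1 X2) (max X3 (max X4 1)), fun X hX z hz1 hz2 q hq hqB W hW hWX => ?_⟩
  have c1 := ((le_max_left _ _).trans (le_max_left _ _)).trans hX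
  have c2 := ((le_max_right _ _).trans (le_max_left _ _)).trans hX
  have c3 := ((le_max_left _ _).trans (le_max_right _ _)).trans hX
  have c4 := ((le_max_left _ _).trans ((le_max_right _ _).trans (le_max_right _ _))).trans hX
  have c5 := ((le_max_right _ _).trans ((le_max_right _ _).trans (le_max_right _ _))).trans hX
  have d3 := h3 X c3
  have d4 := h4 X c4
  have hX1 : (1 : ℝ) ≤ X := by exact_mod_cast c5
  have hX0 : (0 : ℝ) < X := by linarith
  have he0 : (0 : ℝ) < e := by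
    have : 0 < e := by omega
    exact_mod_cast this
  have hWs : √(√(X : ℝ)) ≤ W := by
    refine le_trans ?_ hW
    rw [Real.sqrt_eq_rpow, Real.sqrt_eq_rpow, ← Real.rpow_mul hX0.le]
    apply Real.rpow_le_rpow_of_exponent_le hX1
    have : (0 : ℝ) ≤ 2 / e := by positivity
    linarith
  set L := Real.log X with hL
  have hL0 : 0 < L := by linarith
  have hWX2 : √(X : ℝ) ≤ (W : ℝ) ^ 2 := by
    calc √(X : ℝ) = √(√(X : ℝ)) ^ 2 := (Real.sq_sqrt (Real.sqrt_nonneg _)).symm
      _ ≤ (W : ℝ) ^ 2 := pow_le_pow_left₀ (Real.sqrt_nonneg _) hWs 2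
  have hqz : q ≤ z := by exact_mod_cast hqB.trans hz1
  unfold NN
  rw [sum_comm]
  have key : ∀ r ∈ range q, ∑ u ∈ range X,
      (∑ m ∈ (Ioc (u : ℤ) (u + W)).filter (fun m => m % (q : ℤ) = (r : ℤ)), Ed z m) ^ 2 ≤
      X * (W : ℝ) ^ 2 / L ^ (A + B) := by
    intro r hr
    rw [mem_range] at hr
    rw [sum_congr rfl (fun (u : ℕ) _ => by rw [conv z u W q r])]
    by_cases hrq : r.Coprime q
    · -- the coprime classes
      have e1 := h1 X c1 q r hq hqB hrq W hW hWX
      have e2 := h2 X c2 z hz1 hz2 q hq hqB W hWs r hr hrq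
      have e3 : ∀ u : ℕ, (∑ n ∈ (Ioc u (u + W)).filter (fun n => n % q = r),
          ((ArithmeticFunction.vonMangoldt n : ℝ) - lamz z n)) ^ 2 ≤
          2 * ‖∑ n ∈ Ioc u (u + W), pdev q r n‖ ^ 2 + 2 * (W / L ^ (A + B + 2)) ^ 2 := by
        intro u
        have g1 : ∑ n ∈ Ioc u (u + W), pdev q r n = ((∑ n ∈ (Ioc u (u + W)).filter (fun n => n % q = r),
            (ArithmeticFunction.vonMangoldt n : ℝ) - W / (Nat.totient q : ℝ) : ℝ) : ℂ) := by
          unfold pdev
          rw [sum_sub_distrib, Nat.mod_eq_of_lt hr, sum_const, Nat.card_Ioc, Nat.add_sub_cancel_left, sum_filter]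
          push_cast
          congr 1
          · exact sum_congr rfl fun n _ => by split_ifs <;> simp
          · rw [nsmul_eq_mul, mul_one_div]
        rw [g1, Complex.norm_real, Real.norm_eq_abs, sq_abs]
        have g2 := e2 u
        set P := ∑ n ∈ (Ioc u (u + W)).filter (fun n => n % q = r), (ArithmeticFunction.vonMangoldt n : ℝ)
        set Q := ∑ n ∈ (Ioc u (u + W)).filter (fun n => n % q = r), lamz z n
        rw [sum_sub_distrib]
        have g3 : (W / (Nat.totient q : ℝ) - Q) ^ 2 ≤ (W / L ^ (A + B + 2)) ^ 2 := by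
          rw [← sq_abs]
          exact pow_le_pow_left₀ (abs_nonneg _) g2 2
        have g4 : (P - Q) ^ 2 ≤ 2 * (P - W / (Nat.totient q : ℝ)) ^ 2 + 2 * (W / (Nat.totient q : ℝ) - Q) ^ 2 := by
          nlinarith [sq_nonneg ((P - W / (Nat.totient q : ℝ)) - (W / (Nat.totient q : ℝ) - Q))]
        linarith
      refine (sum_le_sum fun u _ => e3 u).trans ?_
      rw [sum_add_distrib, ← mul_sum, sum_const, card_range, nsmul_eq_mul]
      have g5 : (X : ℝ) * (2 * (W / L ^ (A + B + 2)) ^ 2) ≤ X * (W : ℝ) ^ 2 / L ^ (A + B) * (1 / 2) := by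
        have g6 : (4 : ℝ) ≤ L ^ (A + B + 4) := by
          calc (4 : ℝ) ≤ 2 ^ 4 := by norm_num
            _ ≤ L ^ 4 := pow_le_pow_left₀ (by norm_num) d4 4
            _ ≤ L ^ (A + B + 4) := pow_le_pow_right₀ (by linarith) (by omega)
        have g7 : (X : ℝ) * (2 * (W / L ^ (A + B + 2)) ^ 2) = X * (W : ℝ) ^ 2 / L ^ (A + B) * (2 / L ^ (A + B + 4)) := by
          field_simp
          ring
        rw [g7]
        apply mul_le_mul_of_nonneg_left _ (by positivity)
        rw [div_le_div_iff₀ (by positivity) (by norm_num)]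
        linarith
      have g8 : 2 * (X * (W : ℝ) ^ 2 / L ^ (A + B + 3)) ≤ X * (W : ℝ) ^ 2 / L ^ (A + B) * (1 / 2) := by
        have g6 : (8 : ℝ) ≤ L ^ 3 := by
          calc (8 : ℝ) = 2 ^ 3 := by norm_num
            _ ≤ L ^ 3 := pow_le_pow_left₀ (by norm_num) d4 3
        have g7 : 2 * (X * (W : ℝ) ^ 2 / L ^ (A + B + 3)) = X * (W : ℝ) ^ 2 / L ^ (A + B) * (2 / L ^ 3) := by
          rw [pow_add L (A + B) 3]
          field_simp
        rw [g7]
        apply mul_le_mul_of_nonneg_left _ (by positivity)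
        rw [div_le_div_iff₀ (by positivity) (by norm_num)]
        linarith
      linarith
    · -- the other classes
      obtain ⟨p, hp, hpr, hpq⟩ := Nat.Prime.not_coprime_iff_dvd.1 hrq
      have hpz : p ∈ pz z := mem_pz.2 ⟨(Nat.le_of_dvd hq hpq).trans hqz, hp⟩
      have e3 : ∀ u ∈ range X, (∑ n ∈ (Ioc u (u + W)).filter (fun n => n % q = r),
          ((ArithmeticFunction.vonMangoldt n : ℝ) - lamz z n)) ^ 2 ≤ (2 * L) ^ 2 := by
        intro u hu
        rw [mem_range] at hu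
        have hdvd : ∀ n ∈ (Ioc u (u + W)).filter (fun n => n % q = r), p ∣ n := by
          intro n hn
          rw [mem_filter] at hn
          have := Nat.div_add_mod n q
          rw [hn.2] at this
          rw [← this]
          exact dvd_add (hpq.mul_right _) hpr
        have g1 : ∑ n ∈ (Ioc u (u + W)).filter (fun n => n % q = r),
            ((ArithmeticFunction.vonMangoldt n : ℝ) - lamz z n) =
            ∑ n ∈ (Ioc u (u + W)).filter (fun n => n % q = r), (ArithmeticFunction.vonMangoldt n : ℝ) := by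
          apply sum_congr rfl
          intro n hn
          have : lamz z n = 0 := by
            unfold lamz
            exact if_neg (fun h => h p hpz (hdvd n hn))
          rw [this, sub_zero]
        rw [g1]
        have g2 : 0 ≤ ∑ n ∈ (Ioc u (u + W)).filter (fun n => n % q = r), (ArithmeticFunction.vonMangoldt n : ℝ) :=
          sum_nonneg fun _ _ => ArithmeticFunction.vonMangoldt_nonneg
        apply pow_le_pow_left₀ g2
        have g3 : (Ioc u (u + W)).filter (fun n => n % q = r) ⊆ (Icc 1 (2 * X)).filter (fun n => p ∣ n) := by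
          intro n hn
          have := hdvd n hn
          rw [mem_filter, mem_Ioc] at hn
          rw [mem_filter, mem_Icc]
          exact ⟨⟨by omega, by omega⟩, this⟩
        refine (sum_le_sum_of_subset_of_nonneg g3 (fun _ _ _ => ArithmeticFunction.vonMangoldt_nonneg)).trans ?_
        refine (lam_pow (2 * X) p hp (by omega)).trans ?_
        push_cast
        rw [Real.log_mul (by norm_num) (by positivity)]
        have : Real.log 2 ≤ 1 := by
          have := Real.log_two_lt_d9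
          linarith
        linarith
      refine (sum_le_sum e3).trans ?_
      rw [sum_const, card_range, nsmul_eq_mul, mul_div_assoc]
      apply mul_le_mul_of_nonneg_left _ hX0.le
      rw [le_div_iff₀ (by positivity)]
      calc (2 * L) ^ 2 * L ^ (A + B) = 4 * L ^ (A + B + 2) := by ring
        _ ≤ √X := d3
        _ ≤ (W : ℝ) ^ 2 := hWX2
  refine (sum_le_sum key).trans ?_
  rw [sum_const, card_range, nsmul_eq_mul]
  calc (q : ℝ) * (X * (W : ℝ) ^ 2 / L ^ (A + B)) ≤ L ^ B * (X * (W : ℝ) ^ 2 / L ^ (A + B)) :=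
        mul_le_mul_of_nonneg_right hqB (by positivity)
    _ = X * (W : ℝ) ^ 2 / L ^ A := by
        rw [pow_add]
        field_simp



end Pool.Agent.H561.Q4.Si4
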