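import Pool.Graph.R_pool_sql_team_seeded_620a6dc7.helper24_UT_.Ch1
import Pool.Agent.H561.Q4.Si4

set_option autoImplicit false

/-! Assembly: primes minus sieve model in progressions in almost all intervals of length `≥ X^{1/4+ε}`. -/

namespace Pool.Agent.H561.Q4

open Pool.Agent.helper24_UT.Ch

theorem t_FR4 : Fr4.S_FR4 := Fr4.main (t_FRL4 t_T1 t_MAP)
theorem t_SIL4 : Sil4.S_SIL4 := Sil4.main Pool.Agent.helper24_UT.Win.main t_FR4
theorem t_SI4 : Si4.S_SI4 := Si4.main t_SIL4

end Pool.Agent.H561.Q4
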