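import Pool.Agent.H561.Q4.HB

set_option autoImplicit false

/-! Bounds for the sums over one block, and the energy of a convolution in a convenient form. -/

namespace Pool.Agent.H561.Q4

open Finset
open Pool.Agent.helper24_UT
open Pool.Agent.helper24_UT.II
open Pool.Agent.H376R2.MR (ch er DP FK)

lemma abel_id (f : ℕ → ℝ) (c : ℕ → ℂ) (N₁ d : ℕ) :
    ∑ n ∈ Ioc N₁ (N₁ + d), (f n : ℂ) * c n = (f (N₁ + d) : ℂ) * (∑ n ∈ Ioc N₁ (N₁ + d), c n) -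
      ∑ n ∈ range d, ((f (N₁ + n + 1) - f (N₁ + n) : ℝ) : ℂ) * (∑ j ∈ Ioc N₁ (N₁ + n), c j) := by
  induction d with
  | zero => simp
  | succ d ih =>
    rw [← Nat.add_assoc, Finset.sum_Ioc_succ_top (by omega), Finset.sum_Ioc_succ_top (by omega), ih, sum_range_succ]
    push_cast
    ring

/-- summation by parts -/
lemma abel (f : ℕ → ℝ) (c : ℕ → ℂ) (N₁ N₂ : ℕ) (P : ℝ) (h12 : N₁ ≤ N₂) (hf0 : 0 ≤ f N₁)
    (hf : ∀ n, N₁ ≤ n → n < N₂ → f n ≤ f (n + 1)) (hP : ∀ N, N₁ ≤ N → N ≤ N₂ → ‖∑ n ∈ Ioc N₁ N, c n‖ ≤ P) :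
    ‖∑ n ∈ Ioc N₁ N₂, (f n : ℂ) * c n‖ ≤ 2 * f N₂ * P := by
  obtain ⟨d, rfl⟩ := Nat.exists_eq_add_of_le h12
  rw [abel_id]
  have hP0 : 0 ≤ P := (norm_nonneg _).trans (hP N₁ le_rfl h12)
  have h1 : ∑ n ∈ range d, (f (N₁ + n + 1) - f (N₁ + n)) = f (N₁ + d) - f N₁ :=
    Finset.sum_range_sub (fun n => f (N₁ + n)) d
  have h2 : ‖∑ n ∈ range d, ((f (N₁ + n + 1) - f (N₁ + n) : ℝ) : ℂ) * (∑ j ∈ Ioc N₁ (N₁ + n), c j)‖ ≤
      (f (N₁ + d) - f N₁) * P := by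
    rw [← h1, sum_mul]
    refine (norm_sum_le _ _).trans (sum_le_sum fun n hn => ?_)
    rw [mem_range] at hn
    have h3 := hf (N₁ + n) (by omega) (by omega)
    rw [norm_mul, Complex.norm_real, Real.norm_of_nonneg (by linarith)]
    exact mul_le_mul_of_nonneg_left (hP (N₁ + n) (by omega) (by omega)) (by linarith)
  have h0 : 0 ≤ f (N₁ + d) - f N₁ := by
    rw [← h1]
    apply sum_nonneg
    intro n hn
    rw [mem_range] at hn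
    have h3 := hf (N₁ + n) (by omega) (by omega)
    linarith
  have h4 : ‖(f (N₁ + d) : ℂ) * (∑ n ∈ Ioc N₁ (N₁ + d), c n)‖ ≤ f (N₁ + d) * P := by
    rw [norm_mul, Complex.norm_real, Real.norm_of_nonneg (by linarith)]
    exact mul_le_mul_of_nonneg_left (hP _ h12 le_rfl) (by linarith)
  refine (norm_sub_le _ _).trans ?_
  nlinarith

/-- from the constant function to the logarithm -/
lemma dp_lg (k : ℤ) (q s N₁ N₂ : ℕ) (P : ℝ) (h1 : 1 ≤ N₁) (h12 : N₁ ≤ N₂)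
    (hP : ∀ N, N₁ ≤ N → N ≤ N₂ → ‖DP ((Ioc N₁ N).filter (fun n => n % q = s)) zt k‖ ≤ P) :
    ‖DP ((Ioc N₁ N₂).filter (fun n => n % q = s)) lg k‖ ≤ 2 * Real.log N₂ * P := by
  have e1 : DP ((Ioc N₁ N₂).filter (fun n => n % q = s)) lg k = ∑ n ∈ Ioc N₁ N₂, ((Real.log n : ℝ) : ℂ) *
      (if n % q = s then ch k (Real.log n) else 0) := by
    unfold DP
    rw [sum_filter]
    apply sum_congr rfl
    intro n _
    split_ifs
    · rfl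
    · rw [mul_zero]
  rw [e1]
  refine abel (fun n => Real.log n) _ N₁ N₂ P h12 (Real.log_nonneg (by exact_mod_cast h1)) ?_ ?_
  · intro n hn _
    apply Real.log_le_log
    · have : 0 < n := by omega
      exact_mod_cast this
    · push_cast
      linarith
  · intro N hN hN'
    have := hP N hN hN'
    unfold DP at this
    rw [sum_filter] at this
    refine le_trans (le_of_eq ?_) this
    congr 1
    apply sum_congr rfl
    intro n hn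
    rw [mem_Ioc] at hn
    split_ifs
    · rw [zt_apply, if_neg (by omega), one_mul]
    · rfl

lemma dp_zt (k : ℤ) (q s N₁ N₂ : ℕ) :
    DP ((Ioc N₁ N₂).filter (fun n => n % q = s)) zt k = ∑ n ∈ (Ioc N₁ N₂).filter (fun n => n % q = s), tw k n := by
  unfold DP
  apply sum_congr rfl
  intro n hn
  rw [mem_filter, mem_Ioc] at hn
  rw [zt_apply, if_neg (by omega), one_mul, ch_eq_tw]

lemma blk_eq (t : ℕ) (f : AC) (n : ℕ) (h : 2 ^ t < n) (h' : n ≤ 2 * 2 ^ t) : blk (t + 1) f n = f n := by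
  rw [blk_apply, if_pos]
  apply le_antisymm
  · apply Nat.clog_le_of_le_pow
    rwa [pow_succ']
  · by_contra hcon
    push Not at hcon
    have h1 : n ≤ 2 ^ Nat.clog 2 n := Nat.le_pow_clog (by norm_num) n
    have h2 : 2 ^ Nat.clog 2 n ≤ 2 ^ t := Nat.pow_le_pow_right (by norm_num) (by omega)
    omega

/-- the numerical part of the energy bound -/
lemma numT (C ℓ Y P X : ℝ) (I q A B c h m Q : ℕ) (hC : 0 < C) (hl : 10 ≤ ℓ) (hlC : 4320 * C ≤ ℓ)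
    (hc : c = A + 4 * m + 2 * Q + 6) (hh : h = A + 4 * c + 4 * B + 4 * m + 2 * Q + 4) (hI : (I : ℝ) ≤ 3 * ℓ ^ (2 * c + 1))
    (hq : (q : ℝ) ≤ ℓ ^ B) (hX : P ^ 2 * X ≤ Y ^ 2 / ℓ ^ h) :
    2 * (270 * C * (2 * ((2 * ℓ) * (2 * ℓ) ^ m)) ^ 2 * ℓ * (3 * ℓ) ^ Q * Y ^ 2 / ℓ ^ c) +
      2 * (((I : ℝ) * q ^ 2) ^ 2 * (P ^ 2 * (C * (3 * ℓ) * (X * (((2 * ℓ) ^ m) ^ 2 * (3 * ℓ) ^ Q))))) ≤ Y ^ 2 / ℓ ^ A := by
  have hl0 : 0 < ℓ := by linarith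
  have hl1 : 1 ≤ ℓ := by linarith
  obtain ⟨M, hM⟩ : ∃ M, M = (3 * ℓ) ^ Q := ⟨_, rfl⟩
  obtain ⟨M', hM'⟩ : ∃ M', M' = (2 * ℓ) ^ m := ⟨_, rfl⟩
  have hM1 : M ≤ ℓ ^ (2 * Q) := by
    rw [hM, pow_mul]
    apply pow_le_pow_left₀ (by positivity)
    nlinarith
  have hM2 : M' ≤ ℓ ^ (2 * m) := by
    rw [hM', pow_mul]
    apply pow_le_pow_left₀ (by positivity)
    nlinarith
  have hM0 : 0 ≤ M := by rw [hM]; positivity
  have hM0' : 0 ≤ M' := by rw [hM']; positivity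
  rw [← hM, ← hM']
  have t1 : 2 * (270 * C * (2 * ((2 * ℓ) * M')) ^ 2 * ℓ * M * Y ^ 2 / ℓ ^ c) ≤ 1 / 2 * (Y ^ 2 / ℓ ^ A) := by
    calc 2 * (270 * C * (2 * ((2 * ℓ) * M')) ^ 2 * ℓ * M * Y ^ 2 / ℓ ^ c)
        ≤ 2 * (270 * C * (2 * ((2 * ℓ) * ℓ ^ (2 * m))) ^ 2 * ℓ * ℓ ^ (2 * Q) * Y ^ 2 / ℓ ^ c) := by gcongr
      _ = (4320 * C) * 2 * (Y ^ 2 * (ℓ ^ 3 * ℓ ^ (4 * m) * ℓ ^ (2 * Q)) / ℓ ^ c) := by ring
      _ = (4320 * C) * 2 * (Y ^ 2 / (ℓ ^ A * ℓ ^ 3)) := by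
          rw [hc]
          congr 1
          field_simp
          ring
      _ ≤ ℓ * 2 * (Y ^ 2 / (ℓ ^ A * ℓ ^ 3)) := by gcongr
      _ = 2 / ℓ ^ 2 * (Y ^ 2 / ℓ ^ A) := by
          field_simp
      _ ≤ 1 / 2 * (Y ^ 2 / ℓ ^ A) := by
          apply mul_le_mul_of_nonneg_right _ (by positivity)
          rw [div_le_div_iff₀ (by positivity) (by norm_num)]
          nlinarith
  have t2 : 2 * (((I : ℝ) * q ^ 2) ^ 2 * (P ^ 2 * (C * (3 * ℓ) * (X * (M' ^ 2 * M))))) ≤ 1 / 2 * (Y ^ 2 / ℓ ^ A) := by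
    calc 2 * (((I : ℝ) * q ^ 2) ^ 2 * (P ^ 2 * (C * (3 * ℓ) * (X * (M' ^ 2 * M)))))
        = 2 * (((I : ℝ) * q ^ 2) ^ 2 * ((C * (3 * ℓ) * (M' ^ 2 * M)) * (P ^ 2 * X))) := by ring
      _ ≤ 2 * (((3 * ℓ ^ (2 * c + 1)) * (ℓ ^ B) ^ 2) ^ 2 * ((C * (3 * ℓ) * ((ℓ ^ (2 * m)) ^ 2 * ℓ ^ (2 * Q))) *
            (Y ^ 2 / ℓ ^ h))) := by
          have e1 : (C * (3 * ℓ) * (M' ^ 2 * M)) * (P ^ 2 * X) ≤
              (C * (3 * ℓ) * ((ℓ ^ (2 * m)) ^ 2 * ℓ ^ (2 * Q))) * (Y ^ 2 / ℓ ^ h) := by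
            have e2 : (C * (3 * ℓ) * (M' ^ 2 * M)) ≤ (C * (3 * ℓ) * ((ℓ ^ (2 * m)) ^ 2 * ℓ ^ (2 * Q))) := by gcongr
            have e3 : 0 ≤ (C * (3 * ℓ) * (M' ^ 2 * M)) := by positivity
            calc _ ≤ (C * (3 * ℓ) * (M' ^ 2 * M)) * (Y ^ 2 / ℓ ^ h) := mul_le_mul_of_nonneg_left hX e3
              _ ≤ _ := mul_le_mul_of_nonneg_right e2 (by positivity)
          have e4 : ((I : ℝ) * q ^ 2) ^ 2 ≤ ((3 * ℓ ^ (2 * c + 1)) * (ℓ ^ B) ^ 2) ^ 2 := by gcongr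
          have e5 : 0 ≤ (C * (3 * ℓ) * ((ℓ ^ (2 * m)) ^ 2 * ℓ ^ (2 * Q))) * (Y ^ 2 / ℓ ^ h) := by positivity
          calc _ ≤ 2 * (((I : ℝ) * q ^ 2) ^ 2 * ((C * (3 * ℓ) * ((ℓ ^ (2 * m)) ^ 2 * ℓ ^ (2 * Q))) * (Y ^ 2 / ℓ ^ h))) := by
                apply mul_le_mul_of_nonneg_left _ (by norm_num)
                exact mul_le_mul_of_nonneg_left e1 (by positivity)
            _ ≤ _ := by
                apply mul_le_mul_of_nonneg_left _ (by norm_num)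
                exact mul_le_mul_of_nonneg_right e4 e5
      _ = (54 * C) * (Y ^ 2 * (ℓ ^ (4 * c + 3) * ℓ ^ (4 * B) * ℓ ^ (4 * m) * ℓ ^ (2 * Q)) / ℓ ^ h) := by ring
      _ = (54 * C) * (Y ^ 2 / (ℓ ^ A * ℓ)) := by
          rw [hh]
          congr 1
          field_simp
          ring
      _ = (54 * C / ℓ) * (Y ^ 2 / ℓ ^ A) := by
          field_simp
      _ ≤ 1 / 2 * (Y ^ 2 / ℓ ^ A) := by
          apply mul_le_mul_of_nonneg_right _ (by positivity)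
          rw [div_le_div_iff₀ hl0 (by norm_num)]
          linarith
  linarith

end Pool.Agent.H561.Q4
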