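import Pool.Agent.H561.Q4.V2

set_option autoImplicit false

/-! The sums of `e(κ log (y + j))`. -/

namespace Pool.Agent.H561.Q4

open Finset
open Pool.Agent.R377.KL (e kl norm_e e_sub_int e_add)
open scoped ComplexConjugate

lemma e_conj (x : ℝ) : conj (e x) = e (-x) := by
  unfold e
  rw [← Complex.exp_conj]
  congr 1
  simp only [map_mul, Complex.conj_ofReal, Complex.conj_I, map_ofNat]
  push_cast
  ring

lemma norm_sum_neg (x : ℕ → ℝ) (s : Finset ℕ) : ‖∑ k ∈ s, e (-(x k))‖ = ‖∑ k ∈ s, e (x k)‖ := by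
  rw [← Complex.norm_conj (∑ k ∈ s, e (x k)), map_sum]
  congr 1
  apply sum_congr rfl
  intro k _
  rw [e_conj]

/-- the second difference of `-log` -/
noncomputable def D2 (y : ℝ) : ℝ := 2 * Real.log (y + 1) - Real.log y - Real.log (y + 2)

lemma D2_eq (y : ℝ) (hy : 1 ≤ y) : D2 y = Real.log ((y + 1) ^ 2 / (y * (y + 2))) := by
  unfold D2
  rw [Real.log_div (by positivity) (by positivity), Real.log_pow, Real.log_mul (by positivity) (by positivity)]
  push_cast
  ring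

lemma log_ge (t : ℝ) (ht : 0 < t) : 1 - 1 / t ≤ Real.log t := by
  have := Real.one_sub_inv_le_log_of_pos ht
  rwa [inv_eq_one_div] at this

lemma D2_lo (y : ℝ) (hy : 1 ≤ y) : 1 / (y + 1) ^ 2 ≤ D2 y := by
  rw [D2_eq y hy]
  refine le_trans ?_ (log_ge _ (by positivity))
  rw [one_div_div, le_sub_iff_add_le, ← add_div, div_le_one (by positivity)]
  nlinarith

lemma D2_hi (y : ℝ) (hy : 1 ≤ y) : D2 y ≤ 1 / y ^ 2 := by
  rw [D2_eq y hy]
  refine (Real.log_le_sub_one_of_pos (by positivity)).trans ?_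
  have hy0 : 0 < y := by linarith
  have h1 : (y + 1) ^ 2 / (y * (y + 2)) - 1 = 1 / (y * (y + 2)) := by
    field_simp
    ring
  rw [h1]
  apply one_div_le_one_div_of_le (by positivity)
  nlinarith

/-- differences of `D2` -/
lemma D3_lo (y h : ℝ) (hy : 1 ≤ y) (hh : 0 ≤ h) (hhy : h ≤ y) : h / (2 * (y + 1) ^ 3) ≤ D2 y - D2 (y + h) := by
  rw [D2_eq y hy, D2_eq (y + h) (by linarith), ← Real.log_div (by positivity) (by positivity)]
  refine le_trans ?_ (log_ge _ (by positivity))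
  obtain ⟨Y, hY⟩ : ∃ Y, Y = y + 1 := ⟨_, rfl⟩
  have hY2 : 2 ≤ Y := by linarith
  have e1 : y * (y + 2) = Y ^ 2 - 1 := by rw [hY]; ring
  have e2 : (y + h) * (y + h + 2) = (Y + h) ^ 2 - 1 := by rw [hY]; ring
  have e3 : y + h + 1 = Y + h := by rw [hY]; ring
  rw [e1, e2, e3, ← hY]
  have hp1 : 0 < Y ^ 2 - 1 := by nlinarith
  have hp2 : 0 < (Y + h) ^ 2 - 1 := by nlinarith
  have hYh : 0 < Y + h := by linarith
  have hY0 : 0 < Y := by linarith
  have e4 : 1 - 1 / (Y ^ 2 / (Y ^ 2 - 1) / ((Y + h) ^ 2 / ((Y + h) ^ 2 - 1))) =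
      ((Y + h) ^ 2 - Y ^ 2) / (Y ^ 2 * ((Y + h) ^ 2 - 1)) := by
    field_simp
    ring
  rw [e4, div_le_div_iff₀ (by positivity) (by positivity)]
  have h5 : (Y + h) ^ 2 - 1 ≤ 4 * Y ^ 2 := by nlinarith
  have h6 : 2 * h * Y ≤ (Y + h) ^ 2 - Y ^ 2 := by nlinarith
  calc h * (Y ^ 2 * ((Y + h) ^ 2 - 1)) ≤ h * (Y ^ 2 * (4 * Y ^ 2)) := by gcongr
    _ = (2 * h * Y) * (2 * Y ^ 3) := by ring
    _ ≤ ((Y + h) ^ 2 - Y ^ 2) * (2 * Y ^ 3) := by gcongr

lemma D3_hi (y h : ℝ) (hy : 1 ≤ y) (hh : 0 ≤ h) (hhy : h ≤ y) : D2 y - D2 (y + h) ≤ 4 * h / y ^ 3 := by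
  rw [D2_eq y hy, D2_eq (y + h) (by linarith), ← Real.log_div (by positivity) (by positivity)]
  refine (Real.log_le_sub_one_of_pos (by positivity)).trans ?_
  obtain ⟨Y, hY⟩ : ∃ Y, Y = y + 1 := ⟨_, rfl⟩
  have hY2 : 2 ≤ Y := by linarith
  have e1 : y * (y + 2) = Y ^ 2 - 1 := by rw [hY]; ring
  have e2 : (y + h) * (y + h + 2) = (Y + h) ^ 2 - 1 := by rw [hY]; ring
  have e3 : y + h + 1 = Y + h := by rw [hY]; ring
  rw [e1, e2, e3, ← hY]
  have hp1 : 0 < Y ^ 2 - 1 := by nlinarith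
  have hp2 : 0 < (Y + h) ^ 2 - 1 := by nlinarith
  have hYh : 0 < Y + h := by linarith
  have hY0 : 0 < Y := by linarith
  have hy0 : 0 < y := by linarith
  have e4 : Y ^ 2 / (Y ^ 2 - 1) / ((Y + h) ^ 2 / ((Y + h) ^ 2 - 1)) - 1 =
      ((Y + h) ^ 2 - Y ^ 2) / ((Y ^ 2 - 1) * (Y + h) ^ 2) := by
    field_simp
    ring
  rw [e4]
  have h5 : (Y + h) ^ 2 - Y ^ 2 ≤ 3 * h * Y := by nlinarith
  have h6 : 3 / 4 * Y ^ 2 ≤ Y ^ 2 - 1 := by nlinarith
  have h7 : y ^ 3 ≤ Y ^ 3 := by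
    apply pow_le_pow_left₀ hy0.le
    linarith
  have h8 : Y ^ 2 ≤ (Y + h) ^ 2 := by
    apply pow_le_pow_left₀ hY0.le
    linarith
  calc ((Y + h) ^ 2 - Y ^ 2) / ((Y ^ 2 - 1) * (Y + h) ^ 2) ≤ (3 * h * Y) / ((3 / 4 * Y ^ 2) * Y ^ 2) := by gcongr
    _ = 4 * h / Y ^ 3 := by
        field_simp
    _ ≤ 4 * h / y ^ 3 := by gcongr

/-- first bound: few oscillations -/
theorem logsum1 (κ y : ℝ) (L : ℕ) (hκ : 0 < κ) (hy : 1 ≤ y) (hκy : κ ≤ 3 / 4 * y) (hL : (L : ℝ) ≤ y + 1) :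
    ‖∑ j ∈ range L, e (κ * Real.log (y + j))‖ ≤ 4 * y / κ := by
  have hpi := Real.pi_gt_three
  have hy0 : 0 < y := by linarith
  have hfin : 3 + y / κ ≤ 4 * y / κ := by
    rw [le_div_iff₀ hκ, add_mul, div_mul_cancel₀ _ hκ.ne']
    linarith
  refine le_trans ?_ hfin
  rcases Nat.eq_zero_or_pos L with h0 | h0
  · rw [h0, range_zero, sum_empty, norm_zero]
    positivity
  rw [← norm_sum_neg, ← sum_range_reflect]
  obtain ⟨n, hn⟩ : ∃ n, L = n + 1 := ⟨L - 1, by omega⟩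
  subst hn
  rw [sum_range_succ]
  have hnr : (n : ℝ) ≤ y := by
    push_cast at hL
    linarith
  have h1 : ‖∑ j ∈ range n, e (-(κ * Real.log (y + ((n + 1 - 1 - j : ℕ) : ℝ))))‖ ≤ 2 + 1 / (Real.pi * (κ / (2 * y))) := by
    have e0 : ∀ j : ℕ, j ≤ n → ((n + 1 - 1 - j : ℕ) : ℝ) = (n : ℝ) - j := by
      intro j hj
      rw [Nat.add_sub_cancel, Nat.cast_sub hj]
    have hfor : ∀ j : ℕ, j < n → -(κ * Real.log (y + ((n + 1 - 1 - (j + 1) : ℕ) : ℝ))) -
        -(κ * Real.log (y + ((n + 1 - 1 - j : ℕ) : ℝ))) = κ * Real.log (1 + 1 / (y + ((n : ℝ) - j - 1))) := by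
      intro j hj
      have hjr : (j : ℝ) + 1 ≤ n := by exact_mod_cast hj
      rw [e0 j hj.le, e0 (j + 1) hj]
      push_cast
      have e1 : Real.log (1 + 1 / (y + ((n : ℝ) - j - 1))) = Real.log (y + (n - j)) - Real.log (y + (n - (j + 1))) := by
        rw [← Real.log_div (by linarith) (by linarith)]
        congr 1
        have : y + ((n : ℝ) - (j + 1)) ≠ 0 := by
          have : 0 < y + ((n : ℝ) - (j + 1)) := by linarith
          exact this.ne'
        have h2 : y + ((n : ℝ) - j - 1) ≠ 0 := by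
          have : 0 < y + ((n : ℝ) - j - 1) := by linarith
          exact this.ne'
        field_simp
        ring
      rw [e1]
      ring
    apply kl (fun j => -(κ * Real.log (y + ((n + 1 - 1 - j : ℕ) : ℝ)))) n (κ / (2 * y)) (by positivity)
    · intro k hk
      have hkr : (k : ℝ) + 2 ≤ n := by exact_mod_cast (by omega : k + 2 ≤ n)
      have f1 := hfor k (by omega)
      have f2 := hfor (k + 1) (by omega)
      rw [f1, f2]
      apply mul_le_mul_of_nonneg_left _ hκ.le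
      apply Real.log_le_log
      · have : 0 < 1 / (y + ((n : ℝ) - k - 1)) := by
          apply one_div_pos.2
          linarith
        linarith
      · have : 1 / (y + ((n : ℝ) - k - 1)) ≤ 1 / (y + ((n : ℝ) - ((k + 1 : ℕ) : ℝ) - 1)) := by
          push_cast
          apply one_div_le_one_div_of_le (by linarith)
          linarith
        linarith
    · intro k hk
      have hkr : (k : ℝ) + 1 ≤ n := by exact_mod_cast hk
      have f1 := hfor k (by omega)
      rw [f1, div_eq_mul_one_div]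
      apply mul_le_mul_of_nonneg_left _ hκ.le
      have hz : 0 < y + ((n : ℝ) - k - 1) := by linarith
      refine le_trans ?_ (log_ge _ (by positivity))
      have e2 : 1 - 1 / (1 + 1 / (y + ((n : ℝ) - k - 1))) = 1 / (y + ((n : ℝ) - k - 1) + 1) := by
        field_simp
        ring
      rw [e2]
      apply one_div_le_one_div_of_le (by linarith)
      linarith [(Nat.cast_nonneg k : (0 : ℝ) ≤ k)]
    · intro k hk
      have hkr : (k : ℝ) + 1 ≤ n := by exact_mod_cast hk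
      have f1 := hfor k (by omega)
      rw [f1]
      have hz : 0 < y + ((n : ℝ) - k - 1) := by linarith
      have e2 : Real.log (1 + 1 / (y + ((n : ℝ) - k - 1))) ≤ 1 / y := by
        refine (Real.log_le_sub_one_of_pos (by positivity)).trans ?_
        rw [add_sub_cancel_left]
        apply one_div_le_one_div_of_le hy0
        linarith
      calc κ * Real.log (1 + 1 / (y + ((n : ℝ) - k - 1))) ≤ κ * (1 / y) := mul_le_mul_of_nonneg_left e2 hκ.le
        _ ≤ 3 / 4 := by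
            rw [mul_one_div, div_le_iff₀ hy0]
            exact hκy
  have h2 : 1 / (Real.pi * (κ / (2 * y))) ≤ y / κ := by
    have e1 : 1 / (Real.pi * (κ / (2 * y))) = 2 / Real.pi * (y / κ) := by
      field_simp
    rw [e1]
    have e2 : 2 / Real.pi ≤ 1 := by
      rw [div_le_one (by linarith)]
      linarith
    have e3 : 0 ≤ y / κ := by positivity
    nlinarith
  have h3 := norm_add_le (∑ j ∈ range n, e (-(κ * Real.log (y + ((n + 1 - 1 - j : ℕ) : ℝ)))))
    (e (-(κ * Real.log (y + ((n + 1 - 1 - n : ℕ) : ℝ)))))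
  rw [norm_e] at h3
  linarith

/-- second bound: the second difference test -/
theorem logsum2 (κ y : ℝ) (L : ℕ) (hκ : 0 < κ) (hy : 1 ≤ y) (hL : (L : ℝ) ≤ y + 1) :
    ‖∑ j ∈ range L, e (κ * Real.log (y + j))‖ ^ 2 ≤ 1800 * (κ + y ^ 2 / κ) := by
  have hy0 : 0 < y := by linarith
  have hs0 : 0 < √κ := Real.sqrt_pos.2 hκ
  have hss : √κ * √κ = κ := Real.mul_self_sqrt hκ.le
  have h1 : ‖∑ j ∈ range L, e (κ * Real.log (y + j))‖ ≤ 30 * √κ + 30 * (y / √κ) := by
    rw [← norm_sum_neg]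
    have hsd : ∀ k : ℕ, (-(κ * Real.log (y + ((k + 2 : ℕ) : ℝ))) - -(κ * Real.log (y + ((k + 1 : ℕ) : ℝ)))) -
        (-(κ * Real.log (y + ((k + 1 : ℕ) : ℝ))) - -(κ * Real.log (y + k))) = κ * D2 (y + k) := by
      intro k
      unfold D2
      push_cast
      have e1 : y + ((k : ℝ) + 2) = y + k + 2 := by ring
      have e2 : y + ((k : ℝ) + 1) = y + k + 1 := by ring
      rw [e1, e2]
      ring
    have h2 := vdc2 (fun j => -(κ * Real.log (y + j))) L (κ / (9 * y ^ 2)) 9 (by positivity) (by norm_num)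
      (by
        intro k hk
        rw [hsd, div_eq_mul_one_div]
        apply mul_le_mul_of_nonneg_left _ hκ.le
        have hkr : (k : ℝ) + 2 ≤ L := by exact_mod_cast (by omega : k + 2 ≤ L)
        have hk0 : (0 : ℝ) ≤ k := Nat.cast_nonneg k
        refine le_trans ?_ (D2_lo (y + k) (by linarith))
        apply one_div_le_one_div_of_le (by positivity)
        have e1 : (y + k + 1) ^ 2 ≤ (3 * y) ^ 2 := by
          apply pow_le_pow_left₀ (by linarith)
          linarith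
        calc (y + k + 1) ^ 2 ≤ (3 * y) ^ 2 := e1
          _ = 9 * y ^ 2 := by ring)
      (by
        intro k hk
        rw [hsd]
        have hk0 : (0 : ℝ) ≤ k := Nat.cast_nonneg k
        have e1 : 9 * (κ / (9 * y ^ 2)) = κ * (1 / y ^ 2) := by field_simp
        rw [e1]
        apply mul_le_mul_of_nonneg_left _ hκ.le
        refine (D2_hi (y + k) (by linarith)).trans ?_
        apply one_div_le_one_div_of_le (by positivity)
        apply pow_le_pow_left₀ hy0.le
        linarith)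
    refine h2.trans ?_
    have e1 : √(κ / (9 * y ^ 2)) = √κ / (3 * y) := by
      rw [Real.sqrt_div hκ.le]
      congr 1
      rw [show 9 * y ^ 2 = (3 * y) ^ 2 by ring, Real.sqrt_sq (by positivity)]
    rw [e1]
    have e2 : 5 * 9 * ((L : ℝ) * (√κ / (3 * y))) ≤ 30 * √κ := by
      have : (L : ℝ) ≤ 2 * y := by linarith
      calc 5 * 9 * ((L : ℝ) * (√κ / (3 * y))) ≤ 5 * 9 * ((2 * y) * (√κ / (3 * y))) := by gcongr
        _ = 30 * √κ := by
            field_simp
            ring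
    have e3 : 10 / (√κ / (3 * y)) = 30 * (y / √κ) := by
      field_simp
      ring
    rw [e3]
    linarith
  calc ‖∑ j ∈ range L, e (κ * Real.log (y + j))‖ ^ 2 ≤ (30 * √κ + 30 * (y / √κ)) ^ 2 :=
        pow_le_pow_left₀ (norm_nonneg _) h1 2
    _ ≤ 2 * (30 * √κ) ^ 2 + 2 * (30 * (y / √κ)) ^ 2 := by nlinarith [sq_nonneg (30 * √κ - 30 * (y / √κ))]
    _ = 1800 * (κ + y ^ 2 / κ) := by
        have e1 : (30 * √κ) ^ 2 = 900 * κ := by rw [mul_pow, sq √κ, hss]; norm_num
        have e2 : (30 * (y / √κ)) ^ 2 = 900 * (y ^ 2 / κ) := by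
          rw [mul_pow, div_pow, sq √κ, hss]
          norm_num
        rw [e1, e2]
        ring

lemma sum_inv_sqrt' (H : ℕ) : ∑ h ∈ Ico 1 (H + 1), 1 / √(h : ℝ) ≤ 2 * √(H : ℝ) := by
  induction H with
  | zero => simp
  | succ H ih =>
    rw [sum_Ico_succ_top (by omega)]
    have hH0 : (0 : ℝ) ≤ H := Nat.cast_nonneg _
    have s0 : 0 ≤ √(H : ℝ) := Real.sqrt_nonneg _
    have s1 : 0 < √(H + 1 : ℝ) := Real.sqrt_pos.2 (by linarith)
    have e1 : √(H : ℝ) * √(H : ℝ) = H := Real.mul_self_sqrt hH0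
    have e2 : √(H + 1 : ℝ) * √(H + 1 : ℝ) = H + 1 := Real.mul_self_sqrt (by linarith)
    push_cast
    have e3 : 1 / √(H + 1 : ℝ) ≤ 2 * (√(H + 1 : ℝ) - √(H : ℝ)) := by
      rw [div_le_iff₀ s1]
      nlinarith [sq_nonneg (√(H + 1 : ℝ) - √(H : ℝ))]
    linarith

lemma sum_inv_sqrt (H : ℕ) : ∑ h ∈ Ico 1 H, 1 / √(h : ℝ) ≤ 2 * √(H : ℝ) := by
  refine le_trans ?_ (sum_inv_sqrt' H)
  apply sum_le_sum_of_subset_of_nonneg
  · intro i hi
    rw [mem_Ico] at hi ⊢
    omega
  · intro i _ _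
    positivity

/-- third bound: Weyl differencing and the second difference test, `κ = ρ ^ 3` -/
theorem logsum3 (ρ y : ℝ) (L : ℕ) (hρ : 1 ≤ ρ) (hρy : ρ ≤ y) (hL : (L : ℝ) ≤ y + 1) :
    ‖∑ j ∈ range L, e (ρ ^ 3 * Real.log (y + j))‖ ^ 2 ≤ 4000 * (y * ρ + y ^ 2 / ρ) := by
  have hy : 1 ≤ y := hρ.trans hρy
  have hy0 : 0 < y := by linarith
  have hρ0 : 0 < ρ := by linarith
  obtain ⟨H, hH⟩ : ∃ H, H = ⌈y / ρ⌉₊ := ⟨_, rfl⟩
  have hyρ : 1 ≤ y / ρ := by rwa [one_le_div hρ0]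
  have hH1 : y / ρ ≤ H := by rw [hH]; exact Nat.le_ceil _
  have hH2 : (H : ℝ) ≤ 2 * (y / ρ) := by
    have := (Nat.ceil_lt_add_one (show 0 ≤ y / ρ by positivity)).le
    rw [← hH] at this
    linarith
  have hHpos : 1 ≤ H := by
    have : (1 : ℝ) ≤ H := by linarith
    exact_mod_cast this
  have hH0 : (0 : ℝ) < H := by exact_mod_cast hHpos
  have hL2 : (L : ℝ) ≤ 2 * y := by linarith
  rcases lt_or_ge L H with hLH | hLH
  · -- short sums
    have h1 : ‖∑ j ∈ range L, e (ρ ^ 3 * Real.log (y + j))‖ ≤ L := by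
      refine (norm_sum_le _ _).trans ?_
      simp only [norm_e, sum_const, card_range, nsmul_eq_mul, mul_one, le_refl]
    have h2 : (L : ℝ) ≤ 2 * (y / ρ) := by
      have : (L : ℝ) ≤ H := by exact_mod_cast hLH.le
      linarith
    calc ‖∑ j ∈ range L, e (ρ ^ 3 * Real.log (y + j))‖ ^ 2 ≤ (2 * (y / ρ)) ^ 2 :=
          pow_le_pow_left₀ (norm_nonneg _) (h1.trans h2) 2
      _ = 4 * ((y ^ 2 / ρ) * (1 / ρ)) := by
          field_simp
          norm_num
      _ ≤ 4 * ((y ^ 2 / ρ) * 1) := by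
          have : 1 / ρ ≤ 1 := by
            rw [div_le_one hρ0]
            exact hρ
          gcongr
      _ ≤ 4000 * (y * ρ + y ^ 2 / ρ) := by
          have e1 : 0 < y * ρ := by positivity
          have e2 : 0 < y ^ 2 / ρ := by positivity
          linarith
  -- Weyl differencing
  have h1 := aproc (fun j => e (ρ ^ 3 * Real.log (y + j))) L H (fun n => (norm_e _).le) hHpos hLH
  refine h1.trans ?_
  obtain ⟨lam, hlam⟩ : ∃ lam, lam = ρ ^ 3 / (54 * y ^ 3) := ⟨_, rfl⟩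
  have hlam0 : 0 < lam := by rw [hlam]; positivity
  have hsl0 : 0 < √lam := Real.sqrt_pos.2 hlam0
  have hK : ∀ h ∈ Ico 1 H, Kc (fun j => e (ρ ^ 3 * Real.log (y + j))) L h ≤
      1080 * (L * (√lam * √(H : ℝ))) + 10 / √lam * (1 / √(h : ℝ)) := by
    intro h hh
    rw [mem_Ico] at hh
    have hh1 : (1 : ℝ) ≤ h := by exact_mod_cast hh.1
    have hh0 : (0 : ℝ) < h := by linarith
    have hhL : (h : ℝ) + 1 ≤ L := by exact_mod_cast (by omega : h + 1 ≤ L)
    have hhy : (h : ℝ) ≤ y := by linarith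
    unfold Kc
    have e1 : ∀ n : ℕ, e (ρ ^ 3 * Real.log (y + ((n + h : ℕ) : ℝ))) * conj (e (ρ ^ 3 * Real.log (y + n))) =
        e (-(ρ ^ 3 * (Real.log (y + n) - Real.log (y + n + h)))) := by
      intro n
      rw [e_conj, ← e_add]
      congr 1
      push_cast
      rw [← add_assoc]
      ring
    simp only [e1]
    rw [norm_sum_neg (fun n : ℕ => ρ ^ 3 * (Real.log (y + n) - Real.log (y + n + h)))]
    have hsd : ∀ k : ℕ, (ρ ^ 3 * (Real.log (y + ((k + 2 : ℕ) : ℝ)) - Real.log (y + ((k + 2 : ℕ) : ℝ) + h)) -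
        ρ ^ 3 * (Real.log (y + ((k + 1 : ℕ) : ℝ)) - Real.log (y + ((k + 1 : ℕ) : ℝ) + h))) -
        (ρ ^ 3 * (Real.log (y + ((k + 1 : ℕ) : ℝ)) - Real.log (y + ((k + 1 : ℕ) : ℝ) + h)) -
        ρ ^ 3 * (Real.log (y + k) - Real.log (y + k + h))) = -(ρ ^ 3 * (D2 (y + k) - D2 (y + k + h))) := by
      intro k
      unfold D2
      push_cast
      have e1 : y + ((k : ℝ) + 2) = y + k + 2 := by ring
      have e2 : y + ((k : ℝ) + 1) = y + k + 1 := by ring
      have e3 : y + k + 2 + (h : ℝ) = y + k + h + 2 := by ring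
      have e4 : y + k + 1 + (h : ℝ) = y + k + h + 1 := by ring
      rw [e1, e2, e3, e4]
      ring
    rw [← norm_sum_neg (fun n : ℕ => ρ ^ 3 * (Real.log (y + n) - Real.log (y + n + h)))]
    have h2 := vdc2 (fun n : ℕ => -(ρ ^ 3 * (Real.log (y + n) - Real.log (y + n + h)))) (L - h) (lam * h) 216
      (by positivity) (by norm_num)
      (by
        intro k hk
        have e2 := hsd k
        have hkr : (k : ℝ) + 2 ≤ L := by exact_mod_cast (by omega : k + 2 ≤ L)
        have hk0 : (0 : ℝ) ≤ k := Nat.cast_nonneg k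
        have e3 : lam * h ≤ ρ ^ 3 * (D2 (y + k) - D2 (y + k + h)) := by
          have e4 := D3_lo (y + k) h (by linarith) hh0.le (by linarith)
          have e5 : lam * h = ρ ^ 3 * (h / (54 * y ^ 3)) := by
            rw [hlam]
            ring
          rw [e5]
          apply mul_le_mul_of_nonneg_left _ (by positivity)
          refine le_trans ?_ e4
          apply div_le_div_of_nonneg_left hh0.le (by positivity)
          have e6 : (y + k + 1) ^ 3 ≤ (3 * y) ^ 3 := by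
            apply pow_le_pow_left₀ (by linarith)
            linarith
          calc 2 * (y + k + 1) ^ 3 ≤ 2 * (3 * y) ^ 3 := by linarith
            _ = 54 * y ^ 3 := by ring
        linarith)
      (by
        intro k hk
        have e2 := hsd k
        have hkr : (k : ℝ) + 2 ≤ L := by exact_mod_cast (by omega : k + 2 ≤ L)
        have hk0 : (0 : ℝ) ≤ k := Nat.cast_nonneg k
        have e3 : ρ ^ 3 * (D2 (y + k) - D2 (y + k + h)) ≤ 216 * (lam * h) := by
          have e4 := D3_hi (y + k) h (by linarith) hh0.le (by linarith)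
          have e5 : 216 * (lam * h) = ρ ^ 3 * (4 * h / y ^ 3) := by
            rw [hlam]
            field_simp
            ring
          rw [e5]
          apply mul_le_mul_of_nonneg_left _ (by positivity)
          refine e4.trans ?_
          apply div_le_div_of_nonneg_left (by positivity) (by positivity)
          apply pow_le_pow_left₀ hy0.le
          linarith
        linarith)
    refine h2.trans ?_
    have e2 : √(lam * h) = √lam * √(h : ℝ) := Real.sqrt_mul hlam0.le _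
    rw [e2]
    have hs1 : 0 < √(h : ℝ) := Real.sqrt_pos.2 hh0
    have hs2 : √(h : ℝ) ≤ √(H : ℝ) := Real.sqrt_le_sqrt (by exact_mod_cast hh.2.le)
    have hLh : ((L - h : ℕ) : ℝ) ≤ L := by exact_mod_cast Nat.sub_le L h
    have e3 : 5 * 216 * (((L - h : ℕ) : ℝ) * (√lam * √(h : ℝ))) ≤ 1080 * (L * (√lam * √(H : ℝ))) := by
      rw [show (5 * 216 : ℝ) = 1080 by norm_num]
      gcongr
    have e4 : 10 / (√lam * √(h : ℝ)) = 10 / √lam * (1 / √(h : ℝ)) := by
      field_simp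
    rw [e4]
    linarith
  have hT : ∑ h ∈ Ico 1 H, Kc (fun j => e (ρ ^ 3 * Real.log (y + j))) L h ≤
      1080 * (L * (√lam * √(H : ℝ))) * H + 10 / √lam * (2 * √(H : ℝ)) := by
    refine (sum_le_sum hK).trans ?_
    rw [sum_add_distrib, sum_const, Nat.card_Ico, nsmul_eq_mul, ← mul_sum]
    have e1 : ((H - 1 : ℕ) : ℝ) ≤ H := by exact_mod_cast Nat.sub_le H 1
    have e2 : ((H - 1 : ℕ) : ℝ) * (1080 * (L * (√lam * √(H : ℝ)))) ≤ 1080 * (L * (√lam * √(H : ℝ))) * H := by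
      rw [mul_comm]
      apply mul_le_mul_of_nonneg_left e1 (by positivity)
    have e3 : 10 / √lam * ∑ h ∈ Ico 1 H, 1 / √(h : ℝ) ≤ 10 / √lam * (2 * √(H : ℝ)) :=
      mul_le_mul_of_nonneg_left (sum_inv_sqrt H) (by positivity)
    linarith
  have hLp : (0 : ℝ) < L := lt_of_lt_of_le hH0 (by exact_mod_cast hLH)
  have hsH0 : 0 < √(H : ℝ) := Real.sqrt_pos.2 hH0
  have hsHH : √(H : ℝ) * √(H : ℝ) = H := Real.mul_self_sqrt hH0.le
  -- the square root
  obtain ⟨w, hw⟩ : ∃ w, w = √lam * √(H : ℝ) := ⟨_, rfl⟩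
  have hw0 : 0 < w := by rw [hw]; positivity
  have hw2 : w ^ 2 = lam * H := by
    rw [hw, mul_pow, Real.sq_sqrt hlam0.le, Real.sq_sqrt hH0.le]
  have hwu : w ≤ ρ / (5 * y) := by
    apply le_of_sq_le_sq _ (by positivity)
    rw [hw2]
    calc lam * H ≤ lam * (2 * (y / ρ)) := by gcongr
      _ = ρ ^ 2 / (27 * y ^ 2) := by
          rw [hlam]
          field_simp
          ring
      _ ≤ (ρ / (5 * y)) ^ 2 := by
          rw [div_pow, mul_pow]
          gcongr
          norm_num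
  have hwl : ρ / (8 * y) ≤ w := by
    apply le_of_sq_le_sq _ hw0.le
    rw [hw2]
    calc (ρ / (8 * y)) ^ 2 = ρ ^ 2 / (64 * y ^ 2) := by
          rw [div_pow, mul_pow]
          norm_num
      _ ≤ ρ ^ 2 / (54 * y ^ 2) := by gcongr; norm_num
      _ = lam * (y / ρ) := by
          rw [hlam]
          field_simp
      _ ≤ lam * H := by gcongr
  have hmain : 2 * (L : ℝ) ^ 2 / H + 4 * L / H * (1080 * (L * (√lam * √(H : ℝ))) * H + 10 / √lam * (2 * √(H : ℝ))) =
      2 * (L : ℝ) ^ 2 / H + 4320 * L ^ 2 * w + 80 * L / w := by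
    rw [hw]
    obtain ⟨s, hs⟩ : ∃ s, s = √(H : ℝ) := ⟨_, rfl⟩
    rw [← hs] at hsHH hsH0 ⊢
    rw [← hsHH]
    field_simp
    ring
  calc 2 * (L : ℝ) ^ 2 / H + 4 * L / H * ∑ h ∈ Ico 1 H, Kc (fun j => e (ρ ^ 3 * Real.log (y + j))) L h
      ≤ 2 * (L : ℝ) ^ 2 / H + 4 * L / H * (1080 * (L * (√lam * √(H : ℝ))) * H + 10 / √lam * (2 * √(H : ℝ))) := by
        gcongr
    _ = 2 * (L : ℝ) ^ 2 / H + 4320 * L ^ 2 * w + 80 * L / w := hmain
    _ ≤ 2 * (2 * y) ^ 2 / (y / ρ) + 4320 * (2 * y) ^ 2 * (ρ / (5 * y)) + 80 * (2 * y) / (ρ / (8 * y)) := by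
        gcongr
    _ = (8 + 3456) * (y * ρ) + 1280 * (y ^ 2 / ρ) := by
        field_simp
        ring
    _ ≤ 4000 * (y * ρ + y ^ 2 / ρ) := by
        have e1 : 0 < y * ρ := by positivity
        have e2 : 0 < y ^ 2 / ρ := by positivity
        linarith

end Pool.Agent.H561.Q4
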