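import Pool.Agent.H561.Q4.F1

set_option autoImplicit false

/-! The energy of a convolution in a convenient form. -/

namespace Pool.Agent.H561.Q4

open Finset
open Pool.Agent.helper24_UT
open Pool.Agent.helper24_UT.II
open Pool.Agent.H376R2.MR (ch er DP FK)

/-- the energy of a convolution, one factor with small sums -/
theorem cellT {C : ℝ} (hC : 0 < C) (hmv : Mv C) (m A B Q c h Y q r t₀ K : ℕ) (P : ℝ) (hQ : Q = 2 ^ (4 * (m + 1)))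
    (hc : c = A + 4 * m + 2 * Q + 6) (hh : h = A + 4 * c + 4 * B + 4 * m + 2 * Q + 4)
    (hl : 10 ≤ Real.log Y) (hlC : 4320 * C ≤ Real.log Y) (hK : 1 ≤ K) (hKY : (K : ℝ) ≤ Y) (ht : 2 ^ t₀ ≤ 3 * Y)
    (hq : 1 ≤ q) (hqB : (q : ℝ) ≤ (Real.log Y) ^ B) (hrq : r.Coprime q) (hP : 0 ≤ P) (KK : Finset ℤ) (hKK : KK ⊆ FK K)
    (a b : AC) (ha : ∀ n, n ≤ 9 * Y → ‖a n‖ ≤ 2 * Real.log Y)
    (hb : ∀ n, 1 ≤ n → n ≤ 9 * Y → ‖b n‖ ≤ (2 * Real.log Y) ^ m * tau n ^ m)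
    (hsupp : ∀ n, a n ≠ 0 → 2 ^ t₀ < n ∧ n ≤ 2 * 2 ^ t₀)
    (hA : ∀ k ∈ KK, ∀ s : ℕ, s < q → s.Coprime q → ∀ N₁ N₂ : ℕ, 2 ^ t₀ ≤ N₁ → N₁ ≤ N₂ → N₂ ≤ 2 * 2 ^ t₀ →
      ‖DP ((Ioc N₁ N₂).filter (fun n => n % q = s)) a k‖ ≤ P)
    (hPX : P ^ 2 * ((3 * Y / (2 ^ t₀ : ℕ) + K) * (3 * Y / (2 ^ t₀ : ℕ))) ≤ (Y : ℝ) ^ 2 / (Real.log Y) ^ h) :
    ∑ k ∈ KK, ‖DP ((Ioc Y (3 * Y)).filter (fun n => n % q = r % q)) (a * b : AC) k‖ ^ 2 ≤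
      (Y : ℝ) ^ 2 / (Real.log Y) ^ A := by
  obtain ⟨ℓ, hℓ⟩ : ∃ ℓ, ℓ = Real.log Y := ⟨_, rfl⟩
  rw [← hℓ] at hl hlC hqB ha hb hPX ⊢
  have hl0 : 0 < ℓ := by linarith
  have hl1 : 1 ≤ ℓ := by linarith
  have hY0 : (0 : ℝ) < Y := by
    rcases Nat.eq_zero_or_pos Y with h0 | h0
    · rw [h0, Nat.cast_zero, Real.log_zero] at hℓ
      linarith
    · exact_mod_cast h0
  have hYl : (11 : ℝ) ≤ Y := by
    have h1 := Real.add_one_le_exp ℓ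
    rw [hℓ, Real.exp_log hY0] at h1
    rw [← hℓ] at h1
    linarith
  have hYn : 11 ≤ Y := by exact_mod_cast hYl
  have hlog9 : Real.log (9 * Y) ≤ 2 * ℓ := by
    rw [Real.log_mul (by norm_num) hY0.ne', ← hℓ]
    have h1 : Real.log 9 ≤ 8 := by
      have := Real.log_le_sub_one_of_pos (show (0 : ℝ) < 9 by norm_num)
      linarith
    linarith
  have hI : ((⌈ℓ ^ (2 * c) * Real.log ((3 * Y : ℕ) : ℝ)⌉₊ : ℕ) : ℝ) ≤ 3 * ℓ ^ (2 * c + 1) := by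
    have h1 : Real.log ((3 * Y : ℕ) : ℝ) ≤ 2 * ℓ := by
      refine le_trans (Real.log_le_log ?_ ?_) hlog9
      · push_cast
        linarith
      · push_cast
        linarith
    have h2 : 0 ≤ Real.log ((3 * Y : ℕ) : ℝ) := Real.log_nonneg (by
      push_cast
      linarith)
    have h3 := Nat.ceil_lt_add_one (show 0 ≤ ℓ ^ (2 * c) * Real.log ((3 * Y : ℕ) : ℝ) by positivity)
    have h4 : ℓ ^ (2 * c) * Real.log ((3 * Y : ℕ) : ℝ) ≤ ℓ ^ (2 * c) * (2 * ℓ) := by gcongr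
    have h5 : (1 : ℝ) ≤ ℓ ^ (2 * c + 1) := one_le_pow₀ hl1
    have h6 : ℓ ^ (2 * c) * (2 * ℓ) = 2 * ℓ ^ (2 * c + 1) := by ring
    linarith
  have hD2 : (2 : ℝ) ≤ ℓ ^ (2 * c) := by
    have h1 : ℓ ^ 1 ≤ ℓ ^ (2 * c) := pow_le_pow_right₀ hl1 (by omega)
    rw [pow_one] at h1
    linarith
  have hmain := twofold hC hmv (ℓ ^ (2 * c)) ℓ (ℓ ^ c) P (2 * ℓ) ((2 * ℓ) ^ m) m Q Y q r (2 ^ t₀) K hQ hD2 hK (by omega)
    Nat.one_le_two_pow ht hq hrq hKY hl1 hlog9 (by positivity) (by rw [← pow_mul, mul_comm]) hP (by positivity) (by positivity)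
    KK hKK a b ha hb hsupp hA
  have e1 : ∀ k : ℤ, DP ((Ioc Y (3 * Y)).filter (fun n => n % q = r % q)) (a * b : AC) k =
      DP ((Ioc Y (3 * Y)).filter (fun n => n % q = r % q)) (fun n => ∑ x ∈ n.divisorsAntidiagonal,
      a x.1 * b x.2) k := by
    intro k
    unfold DP
    apply sum_congr rfl
    intro n _
    rw [ArithmeticFunction.mul_apply]
  simp only [e1]
  refine hmain.trans ?_
  have hnum := numT C ℓ Y P ((3 * Y / (2 ^ t₀ : ℕ) + K) * (3 * Y / (2 ^ t₀ : ℕ))) ⌈ℓ ^ (2 * c) * Real.log ((3 * Y : ℕ) : ℝ)⌉₊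
    q A B c h m Q hC hl hlC hc hh hI hqB hPX
  refine le_trans (le_of_eq ?_) hnum
  ring

end Pool.Agent.H561.Q4
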