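import Pool.Agent.H561.Q4.F2

set_option autoImplicit false

/-! Bounds for the sums over one short block (Vinogradov's method, from the library). -/

namespace Pool.Agent.H561.Q4

open Finset
open Pool.Agent.helper24_UT
open Pool.Agent.helper24_UT.II
open Pool.Agent.H376R2.MR (ch er DP FK)

/-- the functions in the identity -/
abbrev Typ (z : ℕ) (F : AC) : Prop := F = zt ∨ F = lg ∨ F = muz z

lemma pow_ineq (η ℓ : ℝ) (m : ℕ) (hη : 0 < η) (hη1 : η ≤ 1 / 10) (hm : 1 ≤ m) (hl : 1 ≤ ℓ)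
    (h : (4 * m : ℝ) ^ (1 / η) ≤ ℓ) : (2 * ℓ) ^ (1 - η) ≤ ℓ / (2 * m) := by
  have hl0 : 0 < ℓ := by linarith
  have hm1 : (1 : ℝ) ≤ m := by exact_mod_cast hm
  have h1 : (4 * m : ℝ) ≤ ℓ ^ η := by
    calc (4 * m : ℝ) = ((4 * m : ℝ) ^ (1 / η)) ^ η := by
          rw [← Real.rpow_mul (by positivity), one_div, inv_mul_cancel₀ hη.ne', Real.rpow_one]
      _ ≤ ℓ ^ η := Real.rpow_le_rpow (by positivity) h hη.le
  have h2 : (2 * ℓ) ^ (1 - η) ≤ 2 * (ℓ / ℓ ^ η) := by
    rw [Real.mul_rpow (by norm_num) hl0.le, Real.rpow_sub hl0, Real.rpow_one]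
    apply mul_le_mul_of_nonneg_right _ (by positivity)
    calc (2 : ℝ) ^ (1 - η) ≤ 2 ^ (1 : ℝ) := Real.rpow_le_rpow_of_exponent_le (by norm_num) (by linarith)
      _ = 2 := Real.rpow_one 2
  refine h2.trans ?_
  calc 2 * (ℓ / ℓ ^ η) ≤ 2 * (ℓ / (4 * m)) := by gcongr
    _ = ℓ / (2 * m) := by
        field_simp
        ring

/-- the sums over a short block are small -/
theorem supa (hT1 : S_T1) (hMAP : S_MAP) (m B h : ℕ) (hm : 1 ≤ m) : ∃ K₂ Y₀ : ℕ, ∀ Y : ℕ, Y₀ ≤ Y → ∀ q : ℕ, 1 ≤ q →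
    (q : ℝ) ≤ (Real.log Y) ^ B → ∀ k : ℤ, (Real.log Y) ^ K₂ ≤ |(k : ℝ)| → |(k : ℝ)| ≤ Y →
    ∀ U : ℕ, (Y : ℝ) ^ (1 / (2 * m) : ℝ) ≤ U → U ≤ Y → ∀ s : ℕ, s < q → s.Coprime q →
    ∀ (z : ℕ) (F : AC), Typ z F → ∀ N₁ N₂ : ℕ, U ≤ N₁ → N₁ ≤ N₂ → N₂ ≤ 2 * U →
    ‖DP ((Ioc N₁ N₂).filter (fun n => n % q = s)) F k‖ ≤ U / (Real.log Y) ^ h := by
  obtain ⟨η, hη, hη1, hT⟩ := hT1
  obtain ⟨Ka, La, hLa2, hTa⟩ := hT 1 B (h + 3)
  obtain ⟨Kb, Lb, hLb2, hMb⟩ := hMAP (4 * m) B (h + 3)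
  refine ⟨2 * max Ka Kb, ⌈Real.exp (max (max La Lb) (max 10 ((4 * m : ℝ) ^ (1 / η))))⌉₊, ?_⟩
  intro Y hY q hq hqB k hk hkY U hU hUY s hs hsq z F hF N₁ N₂ hN1 hN12 hN2
  have hY1 : Real.exp (max (max La Lb) (max 10 ((4 * m : ℝ) ^ (1 / η)))) ≤ Y :=
    (Nat.le_ceil _).trans (Nat.cast_le.mpr hY)
  have hY0 : (0 : ℝ) < Y := (Real.exp_pos _).trans_le hY1
  have hl' : max (max La Lb) (max 10 ((4 * m : ℝ) ^ (1 / η))) ≤ Real.log Y := by
    rw [Real.le_log_iff_exp_le hY0]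
    exact hY1
  set ℓ := Real.log Y with hℓ
  have hla : La ≤ ℓ := ((le_max_left _ _).trans (le_max_left _ _)).trans hl'
  have hlb : Lb ≤ ℓ := ((le_max_right _ _).trans (le_max_left _ _)).trans hl'
  have hl10 : 10 ≤ ℓ := ((le_max_left _ _).trans (le_max_right _ _)).trans hl'
  have hlη : (4 * m : ℝ) ^ (1 / η) ≤ ℓ := ((le_max_right _ _).trans (le_max_right _ _)).trans hl'
  have hl0 : 0 < ℓ := by linarith
  have hl1 : 1 ≤ ℓ := by linarith
  have hexpl : Real.exp ℓ = Y := Real.exp_log hY0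
  have hm1 : (1 : ℝ) ≤ m := by exact_mod_cast hm
  have hYU : Real.exp (ℓ / (2 * m)) ≤ U := by
    refine le_trans (le_of_eq ?_) hU
    rw [Real.rpow_def_of_pos hY0, ← hℓ, mul_one_div]
  have hU0 : (0 : ℝ) < U := (Real.exp_pos _).trans_le hYU
  have hU1 : 1 ≤ U := by exact_mod_cast hU0
  have hqL : (q : ℝ) ≤ (2 * ℓ) ^ B := hqB.trans (pow_le_pow_left₀ hl0.le (by linarith) B)
  have hkk : ∀ K' : ℕ, K' ≤ max Ka Kb → (2 * ℓ) ^ K' ≤ |(k : ℝ)| := by
    intro K' hK'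
    refine le_trans ?_ hk
    calc (2 * ℓ) ^ K' ≤ (ℓ ^ 2) ^ K' := by
          gcongr
          nlinarith
      _ = ℓ ^ (2 * K') := by rw [← pow_mul]
      _ ≤ ℓ ^ (2 * max Ka Kb) := pow_le_pow_right₀ hl1 (by omega)
  have hlogU : Real.log N₂ ≤ 2 * ℓ := by
    have h1 : (N₂ : ℝ) ≤ 2 * Y := by
      have : N₂ ≤ 2 * Y := by omega
      exact_mod_cast this
    have h2 : (0 : ℝ) < N₂ := by
      have : 0 < N₂ := by omega
      exact_mod_cast this
    have h3 : Real.log 2 ≤ 1 := by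
      have := Real.log_le_sub_one_of_pos (show (0 : ℝ) < 2 by norm_num)
      linarith
    calc Real.log N₂ ≤ Real.log (2 * Y) := Real.log_le_log h2 h1
      _ = Real.log 2 + ℓ := by rw [Real.log_mul (by norm_num) hY0.ne']
      _ ≤ _ := by linarith
  have hH0 : (0 : ℝ) < (2 * ℓ) ^ (h + 3) := by positivity
  -- the constant function
  have hzt : ∀ N : ℕ, N₁ ≤ N → N ≤ N₂ → ‖DP ((Ioc N₁ N).filter (fun n => n % q = s)) zt k‖ ≤
      4 * U / (2 * ℓ) ^ (h + 3) := by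
    intro N hN hN'
    have h1 := supb (fun _ => 1) k q s U (2 * U) ((2 * ℓ) ^ (h + 3)) hH0 (by
      intro M hM _
      simp only [one_mul]
      refine hTa (2 * ℓ) (by linarith) q s hq hqL k (hkk Ka (le_max_left _ _)) ?_ M ?_
      · rw [Nat.cast_one, one_mul, two_mul, Real.exp_add, hexpl]
        refine hkY.trans ?_
        have : (1 : ℝ) ≤ Y := by
          have h2 : 0 < Y := by exact_mod_cast hY0
          exact_mod_cast h2
        nlinarith
      · refine le_trans ?_ (hYU.trans (by exact_mod_cast hM))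
        exact Real.exp_le_exp.mpr (pow_ineq η ℓ m hη hη1 hm hl1 hlη)) N₁ N hN1 (by omega)
    have h2 : DP ((Ioc N₁ N).filter (fun n => n % q = s)) zt k = DP ((Ioc N₁ N).filter (fun n => n % q = s)) (fun _ => 1) k := by
      unfold DP
      apply sum_congr rfl
      intro n hn
      rw [mem_filter, mem_Ioc] at hn
      rw [zt_apply, if_neg (by omega)]
    rw [h2]
    refine h1.trans ?_
    apply div_le_div_of_nonneg_right _ hH0.le
    have : (N : ℝ) ≤ 2 * U := by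
      have : N ≤ 2 * U := by omega
      exact_mod_cast this
    linarith
  have hfin : 16 * ℓ * U / (2 * ℓ) ^ (h + 3) ≤ U / ℓ ^ h := by
    have h1 : ℓ ^ (h + 3) ≤ (2 * ℓ) ^ (h + 3) := pow_le_pow_left₀ hl0.le (by linarith) _
    calc 16 * ℓ * U / (2 * ℓ) ^ (h + 3) ≤ 16 * ℓ * U / ℓ ^ (h + 3) := by gcongr
      _ = (16 / ℓ ^ 2) * (U / ℓ ^ h) := by
          rw [pow_add]
          field_simp
      _ ≤ 1 * (U / ℓ ^ h) := by
          apply mul_le_mul_of_nonneg_right _ (by positivity)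
          rw [div_le_one (by positivity)]
          nlinarith
      _ = _ := one_mul _
  have hfin4 : 4 * U / (2 * ℓ) ^ (h + 3) ≤ U / ℓ ^ h := by
    refine le_trans ?_ hfin
    apply div_le_div_of_nonneg_right _ hH0.le
    nlinarith
  rcases hF with hF | hF | hF
  · rw [hF]
    exact (hzt N₂ hN12 le_rfl).trans hfin4
  · rw [hF]
    refine (dp_lg k q s N₁ N₂ _ (by omega) hN12 hzt).trans ?_
    refine le_trans ?_ hfin
    calc 2 * Real.log N₂ * (4 * U / (2 * ℓ) ^ (h + 3)) ≤ 2 * (2 * ℓ) * (4 * U / (2 * ℓ) ^ (h + 3)) := by gcongr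
      _ = 16 * ℓ * U / (2 * ℓ) ^ (h + 3) := by ring
  · rw [hF]
    have h1 := supb (fun n => ((ArithmeticFunction.moebius n : ℤ) : ℂ)) k q s U (2 * U) ((2 * ℓ) ^ (h + 3)) hH0 (by
      intro M hM hM'
      have h2 := hMb (2 * ℓ) (by linarith) q s hq hqL hsq k (hkk Kb (le_max_right _ _)) ?_ M ?_ ?_
      · rw [Nat.mod_eq_of_lt hs] at h2
        exact h2
      · rw [← hexpl] at hkY
        refine hkY.trans (Real.exp_le_exp.mpr ?_)
        push_cast
        nlinarith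
      · refine le_trans ?_ (hYU.trans (by exact_mod_cast hM))
        apply Real.exp_le_exp.mpr
        rw [div_le_div_iff₀ (by positivity) (by positivity)]
        push_cast
        nlinarith
      · have h3 : (M : ℝ) ≤ 2 * Y := by
          have : M ≤ 2 * Y := by omega
          exact_mod_cast this
        rw [two_mul, Real.exp_add, hexpl]
        have h4 : (2 : ℝ) ≤ Y := by
          have := Real.add_one_le_exp ℓ
          linarith
        nlinarith) N₁ (min N₂ z) hN1 (by omega)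
    have h2 : DP ((Ioc N₁ N₂).filter (fun n => n % q = s)) (muz z) k =
        DP ((Ioc N₁ (min N₂ z)).filter (fun n => n % q = s)) (fun n => ((ArithmeticFunction.moebius n : ℤ) : ℂ)) k := by
      unfold DP
      symm
      have h3 : (Ioc N₁ (min N₂ z)).filter (fun n => n % q = s) ⊆ (Ioc N₁ N₂).filter (fun n => n % q = s) := by
        apply filter_subset_filter
        exact Ioc_subset_Ioc_right (min_le_left _ _)
      rw [← sum_subset h3]
      · apply sum_congr rfl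
        intro n hn
        rw [mem_filter, mem_Ioc] at hn
        rw [muz_apply, if_pos (by omega)]
      · intro n hn hn'
        rw [mem_filter, mem_Ioc] at hn hn'
        rw [muz_apply, if_neg, zero_mul]
        intro h4
        exact hn' ⟨⟨hn.1.1, le_min hn.1.2 h4⟩, hn.2⟩
    rw [h2]
    refine h1.trans (le_trans ?_ hfin4)
    apply div_le_div_of_nonneg_right _ hH0.le
    have : ((min N₂ z : ℕ) : ℝ) ≤ 2 * U := by
      have : min N₂ z ≤ 2 * U := (min_le_left _ _).trans hN2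
      exact_mod_cast this
    linarith

end Pool.Agent.H561.Q4
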