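import Pool.Agent.H561.Q4.F3

set_option autoImplicit false

/-! Bounds for the sums over one long block (van der Corput's method). -/

namespace Pool.Agent.H561.Q4

open Finset
open Pool.Agent.helper24_UT
open Pool.Agent.helper24_UT.II
open Pool.Agent.H376R2.MR (ch er DP FK)

/-- numbers: the first difference test -/
lemma nb1 (ℓ y u T : ℝ) (h : ℕ) (hl : 1 ≤ ℓ) (hy : 0 < y) (hu : 0 < u) (huy : u ≤ 3 * y) (hT1 : 1 ≤ T)
    (hT : 2000000 * ℓ ^ (h + 2) ≤ T) :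
    (4 * ℓ * (52 * (u / T))) ^ 2 * ((3 * y / u + 2 * T) * (3 * y / u)) ≤ y ^ 2 / ℓ ^ h := by
  have hT0 : 0 < T := by linarith
  have hl0 : 0 < ℓ := by linarith
  calc (4 * ℓ * (52 * (u / T))) ^ 2 * ((3 * y / u + 2 * T) * (3 * y / u))
      = 129792 * ℓ ^ 2 * y * ((3 * y + 2 * T * u) / T ^ 2) := by
        field_simp
        ring
    _ ≤ 129792 * ℓ ^ 2 * y * ((9 * y * T) / T ^ 2) := by
        gcongr
        nlinarith [mul_le_mul_of_nonneg_left huy hT0.le, mul_le_mul_of_nonneg_left hT1 hy.le]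
    _ = (1168128 * ℓ ^ (h + 2) / T) * (y ^ 2 / ℓ ^ h) := by
        rw [pow_add]
        field_simp
        ring
    _ ≤ 1 * (y ^ 2 / ℓ ^ h) := by
        apply mul_le_mul_of_nonneg_right _ (by positivity)
        rw [div_le_one hT0]
        refine le_trans ?_ hT
        gcongr
        norm_num
    _ = _ := one_mul _

/-- numbers: the second difference test -/
lemma nb2 (ℓ g y u T q : ℝ) (h B e : ℕ) (hl : 1 ≤ ℓ) (he : 5 ≤ e) (hg1 : 1 ≤ g) (hyg : y = g ^ (12 * e))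
    (hu : g ^ (6 * e - 12) ≤ u) (huT : u ≤ 2 * T * q) (hT1 : 1 ≤ T) (hTg : T ≤ g ^ (9 * e - 12)) (hq : q ≤ ℓ ^ B) (hq0 : 0 ≤ q)
    (hT : 100000000 * ℓ ^ (h + 3) ≤ T) (hg : 100000000 * ℓ ^ (h + B + 3) ≤ g) :
    (4 * ℓ) ^ 2 * (50000 * (2 * T + u ^ 2 / T)) * ((3 * y / u + 2 * T) * (3 * y / u)) ≤ y ^ 2 / ℓ ^ h := by
  have hT0 : 0 < T := by linarith
  have hl0 : 0 < ℓ := by linarith
  have hg0 : 0 < g := by linarith
  have hu0 : 0 < u := lt_of_lt_of_le (by positivity) hu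
  have hy0 : 0 < y := by rw [hyg]; positivity
  have hlB : 1 ≤ ℓ ^ B := one_le_pow₀ hl
  -- the four terms
  have t1 : T / u ^ 2 ≤ 1 / g := by
    rw [div_le_div_iff₀ (by positivity) hg0, one_mul]
    calc T * g ≤ g ^ (9 * e - 12) * g := by gcongr
      _ = g ^ (9 * e - 11) := by
          rw [← pow_succ]
          congr 1
          omega
      _ ≤ g ^ (2 * (6 * e - 12)) := pow_le_pow_right₀ hg1 (by omega)
      _ = (g ^ (6 * e - 12)) ^ 2 := by
          rw [← pow_mul]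
          congr 1
          ring
      _ ≤ u ^ 2 := by gcongr
  have t2 : T ^ 2 / u ≤ y / g := by
    rw [div_le_div_iff₀ hu0 hg0]
    calc T ^ 2 * g ≤ (g ^ (9 * e - 12)) ^ 2 * g := by gcongr
      _ = g ^ (18 * e - 23) := by
          rw [← pow_mul, ← pow_succ]
          congr 1
          omega
      _ ≤ g ^ (12 * e + (6 * e - 12)) := pow_le_pow_right₀ hg1 (by omega)
      _ = y * g ^ (6 * e - 12) := by rw [pow_add, hyg]
      _ ≤ y * u := by gcongr
  have t3 : u ≤ 2 * ℓ ^ B * (y / g) := by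
    calc u ≤ 2 * T * q := huT
      _ ≤ 2 * T * ℓ ^ B := by gcongr
      _ ≤ 2 * (y / g) * ℓ ^ B := by
          have : T ≤ y / g := by
            rw [le_div_iff₀ hg0]
            calc T * g ≤ g ^ (9 * e - 12) * g := by gcongr
              _ = g ^ (9 * e - 11) := by
                  rw [← pow_succ]
                  congr 1
                  omega
              _ ≤ g ^ (12 * e) := pow_le_pow_right₀ hg1 (by omega)
              _ = y := hyg.symm
          gcongr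
      _ = _ := by ring
  calc (4 * ℓ) ^ 2 * (50000 * (2 * T + u ^ 2 / T)) * ((3 * y / u + 2 * T) * (3 * y / u))
      = 2400000 * ℓ ^ 2 * y * (6 * y * (T / u ^ 2) + 4 * (T ^ 2 / u) + 3 * y / T + 2 * u) := by
        field_simp
        ring
    _ ≤ 2400000 * ℓ ^ 2 * y * (6 * y * (1 / g) + 4 * (y / g) + 3 * y / T + 2 * (2 * ℓ ^ B * (y / g))) := by gcongr
    _ = 2400000 * ℓ ^ 2 * y ^ 2 * (10 * (1 / g) + 4 * ℓ ^ B * (1 / g) + 3 * (1 / T)) := by ring
    _ ≤ 2400000 * ℓ ^ 2 * y ^ 2 * (10 * ℓ ^ B * (1 / g) + 4 * ℓ ^ B * (1 / g) + 3 * (1 / T)) := by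
        gcongr
        linarith
    _ = 2400000 * ℓ ^ 2 * y ^ 2 * (14 * ℓ ^ B * (1 / g) + 3 * (1 / T)) := by ring
    _ ≤ 2400000 * ℓ ^ 2 * y ^ 2 * (14 * ℓ ^ B * (1 / (100000000 * ℓ ^ (h + B + 3))) + 3 * (1 / (100000000 * ℓ ^ (h + 3)))) := by
        gcongr
    _ = 2400000 * 17 / 100000000 / ℓ * (y ^ 2 / ℓ ^ h) := by
        rw [pow_add, pow_add, pow_add]
        field_simp
        ring
    _ ≤ 1 * (y ^ 2 / ℓ ^ h) := by
        apply mul_le_mul_of_nonneg_right _ (by positivity)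
        rw [div_le_one hl0]
        linarith
    _ = _ := one_mul _

/-- numbers: the third difference test -/
lemma nb3 (ℓ g y u T R : ℝ) (h e : ℕ) (hl : 1 ≤ ℓ) (he : 5 ≤ e) (hg1 : 1 ≤ g) (hyg : y = g ^ (12 * e))
    (hu : g ^ (3 * e + 6) ≤ u) (hu2 : u ≤ g ^ (6 * e - 12)) (hR1 : 1 ≤ R) (hRT : R ^ 3 = T) (hRg : R ≤ g ^ (3 * e - 4))
    (hR : 100000000 * ℓ ^ (h + 3) ≤ R) (hg : 100000000 * ℓ ^ (h + 3) ≤ g) :
    (4 * ℓ) ^ 2 * (32000 * (2 * (u * R) + u ^ 2 / R)) * ((3 * y / u + 2 * T) * (3 * y / u)) ≤ y ^ 2 / ℓ ^ h := by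
  have hR0 : 0 < R := by linarith
  have hl0 : 0 < ℓ := by linarith
  have hg0 : 0 < g := by linarith
  have hu0 : 0 < u := lt_of_lt_of_le (by positivity) hu
  have hy0 : 0 < y := by rw [hyg]; positivity
  -- the four terms
  have t1 : R / u ≤ 1 / g := by
    rw [div_le_div_iff₀ hu0 hg0, one_mul]
    calc R * g ≤ g ^ (3 * e - 4) * g := by gcongr
      _ = g ^ (3 * e - 3) := by
          rw [← pow_succ]
          congr 1
          omega
      _ ≤ g ^ (3 * e + 6) := pow_le_pow_right₀ hg1 (by omega)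
      _ ≤ u := hu
  have t2 : R ^ 4 ≤ y / g := by
    rw [le_div_iff₀ hg0]
    calc R ^ 4 * g ≤ (g ^ (3 * e - 4)) ^ 4 * g := by gcongr
      _ = g ^ (12 * e - 15) := by
          rw [← pow_mul, ← pow_succ]
          congr 1
          omega
      _ ≤ g ^ (12 * e) := pow_le_pow_right₀ hg1 (by omega)
      _ = y := hyg.symm
  have t3 : R ^ 2 * u ≤ y / g := by
    rw [le_div_iff₀ hg0]
    calc R ^ 2 * u * g ≤ (g ^ (3 * e - 4)) ^ 2 * g ^ (6 * e - 12) * g := by gcongr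
      _ = g ^ (12 * e - 19) := by
          rw [← pow_mul, ← pow_add, ← pow_succ]
          congr 1
          omega
      _ ≤ g ^ (12 * e) := pow_le_pow_right₀ hg1 (by omega)
      _ = y := hyg.symm
  calc (4 * ℓ) ^ 2 * (32000 * (2 * (u * R) + u ^ 2 / R)) * ((3 * y / u + 2 * T) * (3 * y / u))
      = 1536000 * ℓ ^ 2 * y * (6 * y * (R / u) + 4 * R ^ 4 + 3 * y / R + 2 * (R ^ 2 * u)) := by
        rw [← hRT]
        field_simp
        ring
    _ ≤ 1536000 * ℓ ^ 2 * y * (6 * y * (1 / g) + 4 * (y / g) + 3 * y / R + 2 * (y / g)) := by gcongr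
    _ = 1536000 * ℓ ^ 2 * y ^ 2 * (12 * (1 / g) + 3 * (1 / R)) := by ring
    _ ≤ 1536000 * ℓ ^ 2 * y ^ 2 * (12 * (1 / (100000000 * ℓ ^ (h + 3))) + 3 * (1 / (100000000 * ℓ ^ (h + 3)))) := by
        gcongr
    _ = 1536000 * 15 / 100000000 / ℓ * (y ^ 2 / ℓ ^ h) := by
        rw [pow_add]
        field_simp
        ring
    _ ≤ 1 * (y ^ 2 / ℓ ^ h) := by
        apply mul_le_mul_of_nonneg_right _ (by positivity)
        rw [div_le_one hl0]
        linarith
    _ = _ := one_mul _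

end Pool.Agent.H561.Q4
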