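import Pool.Agent.H561.Q4.F4

set_option autoImplicit false

/-! Bounds for the sums over one long block: all cases. -/

namespace Pool.Agent.H561.Q4

open Finset
open Pool.Agent.helper24_UT
open Pool.Agent.helper24_UT.II
open Pool.Agent.H376R2.MR (ch er DP FK)

/-- the sums over a long block are small -/
theorem supv (Y : ℕ) (g : ℝ) (h B e q U T : ℕ) (hl : 10 ≤ Real.log Y) (he : 5 ≤ e) (hyg : (Y : ℝ) = g ^ (12 * e))
    (hg0 : 0 < g) (hg : 100000000 * (Real.log Y) ^ (h + B + 3) ≤ g) (hq : 1 ≤ q) (hqB : (q : ℝ) ≤ (Real.log Y) ^ B)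
    (hU : g ^ (3 * e + 6) ≤ U) (hUY : (U : ℝ) ≤ 3 * Y) (hTg : (T : ℝ) ≤ g ^ (9 * e - 12))
    (hT : (100000000 * (Real.log Y) ^ (h + 3)) ^ 3 ≤ T) :
    ∃ P : ℝ, 0 ≤ P ∧ P ^ 2 * ((3 * Y / U + 2 * T) * (3 * Y / U)) ≤ (Y : ℝ) ^ 2 / (Real.log Y) ^ h ∧
    ∀ k : ℤ, (T : ℝ) ≤ |(k : ℝ)| → |(k : ℝ)| ≤ 2 * T → ∀ s : ℕ, s < q → ∀ F : AC, (F = zt ∨ F = lg) →
    ∀ N₁ N₂ : ℕ, U ≤ N₁ → N₁ ≤ N₂ → N₂ ≤ 2 * U → ‖DP ((Ioc N₁ N₂).filter (fun n => n % q = s)) F k‖ ≤ P := by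
  obtain ⟨ℓ, hℓ⟩ : ∃ ℓ, ℓ = Real.log Y := ⟨_, rfl⟩
  rw [← hℓ] at hl hg hqB hT ⊢
  have hl0 : 0 < ℓ := by linarith
  have hl1 : 1 ≤ ℓ := by linarith
  have hg2 : 2 ≤ g := by
    have : (1 : ℝ) ≤ ℓ ^ (h + B + 3) := one_le_pow₀ hl1
    linarith
  have hg1 : 1 ≤ g := by linarith
  have hY0 : (0 : ℝ) < Y := by rw [hyg]; positivity
  have hU0 : (0 : ℝ) < U := lt_of_lt_of_le (by positivity) hU
  have hU1 : 1 ≤ U := by exact_mod_cast hU0
  have hqg : ℓ ^ B ≤ g := by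
    refine le_trans ?_ hg
    have h1 : ℓ ^ B ≤ ℓ ^ (h + B + 3) := pow_le_pow_right₀ hl1 (by omega)
    have h2 : 0 ≤ ℓ ^ (h + B + 3) := by positivity
    linarith
  have hqU : (q : ℝ) ≤ U := by
    calc (q : ℝ) ≤ g := hqB.trans hqg
      _ ≤ g ^ (3 * e + 6) := le_self_pow₀ hg1 (by omega)
      _ ≤ U := hU
  have hqU' : q ≤ U := by exact_mod_cast hqU
  have hq0 : (1 : ℝ) ≤ q := by exact_mod_cast hq
  have hlh : 1 ≤ ℓ ^ (h + 3) := one_le_pow₀ hl1
  have hT1 : 100000000 * ℓ ^ (h + 3) ≤ (T : ℝ) := by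
    refine le_trans ?_ hT
    apply le_self_pow₀ _ (by norm_num)
    linarith
  have hT1' : (1 : ℝ) ≤ T := by linarith
  have hT0 : (0 : ℝ) < T := by linarith
  -- it is enough to bound the sums of the constant function
  suffices hmain : ∃ P : ℝ, 0 ≤ P ∧ (4 * ℓ * P) ^ 2 * ((3 * Y / U + 2 * T) * (3 * Y / U)) ≤ (Y : ℝ) ^ 2 / ℓ ^ h ∧
      ∀ k : ℤ, (T : ℝ) ≤ |(k : ℝ)| → |(k : ℝ)| ≤ 2 * T → ∀ s : ℕ, s < q →
      ∀ N₁ N₂ : ℕ, U ≤ N₁ → N₁ ≤ N₂ → N₂ ≤ 2 * U → ‖∑ n ∈ (Ioc N₁ N₂).filter (fun n => n % q = s), tw k n‖ ≤ P by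
    obtain ⟨P, hP0, hP1, hP2⟩ := hmain
    refine ⟨4 * ℓ * P, by positivity, hP1, ?_⟩
    intro k hk1 hk2 s hs F hF N₁ N₂ hN1 hN12 hN2
    rcases hF with hF | hF
    · rw [hF, dp_zt]
      refine (hP2 k hk1 hk2 s hs N₁ N₂ hN1 hN12 hN2).trans ?_
      nlinarith
    · rw [hF]
      refine (dp_lg k q s N₁ N₂ P (by omega) hN12 ?_).trans ?_
      · intro N hN hN'
        rw [dp_zt]
        exact hP2 k hk1 hk2 s hs N₁ N hN1 hN (hN'.trans hN2)
      · have h1 : Real.log N₂ ≤ 2 * ℓ := by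
          have h2 : (N₂ : ℝ) ≤ 6 * Y := by
            have h3 : (N₂ : ℝ) ≤ 2 * U := by exact_mod_cast hN2
            linarith
          have h3 : (0 : ℝ) < N₂ := by
            have : 0 < N₂ := by omega
            exact_mod_cast this
          have h4 : Real.log 6 ≤ 5 := by
            have := Real.log_le_sub_one_of_pos (show (0 : ℝ) < 6 by norm_num)
            linarith
          calc Real.log N₂ ≤ Real.log (6 * Y) := Real.log_le_log h3 h2
            _ = Real.log 6 + ℓ := by rw [Real.log_mul (by norm_num) hY0.ne', hℓ]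
            _ ≤ _ := by linarith
        have h5 : 2 * Real.log N₂ ≤ 4 * ℓ := by linarith
        exact mul_le_mul_of_nonneg_right h5 hP0
  by_cases hc1 : 2 * (T : ℝ) * q ≤ U
  · -- the first difference test
    refine ⟨52 * (U / T), by positivity, nb1 ℓ Y U T h hl1 hY0 hU0 hUY hT1' ?_, ?_⟩
    · refine le_trans ?_ hT1
      have h1 : ℓ ^ (h + 2) ≤ ℓ ^ (h + 3) := pow_le_pow_right₀ hl1 (by omega)
      have h2 : 0 ≤ ℓ ^ (h + 3) := by positivity
      linarith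
    · intro k hk1 hk2 s hs N₁ N₂ hN1 hN12 hN2
      have hk0 : k ≠ 0 := by
        intro h0
        rw [h0, Int.cast_zero, abs_zero] at hk1
        linarith
      refine (ap1 k q s U N₁ N₂ hq hs hqU' hN1 hN12 hN2 hk0 ?_).trans ?_
      · rw [le_div_iff₀ (by linarith)]
        calc |(k : ℝ)| * q ≤ 2 * T * q := by gcongr
          _ ≤ U := hc1
      · gcongr
  push Not at hc1
  by_cases hc2 : g ^ (6 * e - 12) ≤ (U : ℝ)
  · -- the second difference test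
    have hs0 : 0 ≤ 50000 * (2 * (T : ℝ) + (U : ℝ) ^ 2 / T) := by positivity
    refine ⟨Real.sqrt (50000 * (2 * (T : ℝ) + (U : ℝ) ^ 2 / T)), Real.sqrt_nonneg _, ?_, ?_⟩
    · rw [mul_pow, Real.sq_sqrt hs0]
      exact nb2 ℓ g Y U T q h B e hl1 he hg1 hyg hc2 hc1.le hT1' hTg hqB (by linarith) hT1 hg
    · intro k hk1 hk2 s hs N₁ N₂ hN1 hN12 hN2
      have hk0 : k ≠ 0 := by
        intro h0
        rw [h0, Int.cast_zero, abs_zero] at hk1
        linarith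
      apply Real.le_sqrt_of_sq_le
      refine (ap2 k q s U N₁ N₂ hq hs hqU' hN1 hN12 hN2 hk0).trans ?_
      gcongr
  · -- the third difference test
    push Not at hc2
    obtain ⟨R, hR⟩ : ∃ R : ℝ, R = (T : ℝ) ^ (1 / 3 : ℝ) := ⟨_, rfl⟩
    have hR0 : 0 < R := by rw [hR]; positivity
    have hR3 : R ^ 3 = T := by
      rw [hR, ← Real.rpow_natCast, ← Real.rpow_mul hT0.le]
      norm_num
    have hRg : R ≤ g ^ (3 * e - 4) := by
      apply le_of_pow_le_pow_left₀ (n := 3) (by norm_num) (by positivity)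
      rw [hR3, ← pow_mul]
      refine hTg.trans (le_of_eq ?_)
      congr 1
      omega
    have hRl : 100000000 * ℓ ^ (h + 3) ≤ R := by
      apply le_of_pow_le_pow_left₀ (n := 3) (by norm_num) hR0.le
      rw [hR3]
      exact hT
    have hR1 : 1 ≤ R := by linarith
    have hs0 : 0 ≤ 32000 * (2 * ((U : ℝ) * R) + (U : ℝ) ^ 2 / R) := by positivity
    refine ⟨Real.sqrt (32000 * (2 * ((U : ℝ) * R) + (U : ℝ) ^ 2 / R)), Real.sqrt_nonneg _, ?_, ?_⟩
    · rw [mul_pow, Real.sq_sqrt hs0]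
      refine nb3 ℓ g Y U T R h e hl1 he hg1 hyg hU hc2.le hR1 hR3 hRg hRl ?_
      refine le_trans ?_ hg
      have h1 : ℓ ^ (h + 3) ≤ ℓ ^ (h + B + 3) := pow_le_pow_right₀ hl1 (by omega)
      linarith
    · intro k hk1 hk2 s hs N₁ N₂ hN1 hN12 hN2
      obtain ⟨ρ, hρ⟩ : ∃ ρ : ℝ, ρ = |(k : ℝ)| ^ (1 / 3 : ℝ) := ⟨_, rfl⟩
      have hρ0 : 0 ≤ ρ := by rw [hρ]; positivity
      have hρ3 : ρ ^ 3 = |(k : ℝ)| := by
        rw [hρ, ← Real.rpow_natCast, ← Real.rpow_mul (abs_nonneg _)]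
        norm_num
      have hRρ : R ≤ ρ := by
        apply le_of_pow_le_pow_left₀ (n := 3) (by norm_num) hρ0
        rw [hR3, hρ3]
        exact hk1
      have hρR : ρ ≤ 2 * R := by
        apply le_of_pow_le_pow_left₀ (n := 3) (by norm_num) (by positivity)
        rw [hρ3, mul_pow, hR3]
        linarith
      apply Real.le_sqrt_of_sq_le
      refine (ap3 k q s U N₁ N₂ hq hs hqU' hN1 hN12 hN2 ρ ?_ hρ3 ?_).trans ?_
      · linarith
      · rw [le_div_iff₀ (by linarith)]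
        calc ρ * q ≤ (2 * R) * g := by
              gcongr
              exact hqB.trans hqg
          _ ≤ (g * g ^ (3 * e - 4)) * g := by
              gcongr
          _ = g ^ (3 * e - 2) := by
              rw [← pow_succ', ← pow_succ]
              congr 1
              omega
          _ ≤ g ^ (3 * e + 6) := pow_le_pow_right₀ hg1 (by omega)
          _ ≤ U := hU
      · have h1 : (U : ℝ) * ρ ≤ 2 * (U * R) := by
          calc (U : ℝ) * ρ ≤ U * (2 * R) := by gcongr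
            _ = _ := by ring
        have h2 : (U : ℝ) ^ 2 / ρ ≤ (U : ℝ) ^ 2 / R := by gcongr
        gcongr

end Pool.Agent.H561.Q4
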