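import Pool.Agent.H561.Q4.F5
import Pool.Graph.R_pool_sql_team_seeded_620a6dc7.helper24_UT_.Sil2

set_option autoImplicit false

/-! The energy of one tuple of blocks. -/

namespace Pool.Agent.H561.Q4

open Finset
open Pool.Agent.helper24_UT
open Pool.Agent.helper24_UT.II
open Pool.Agent.H376R2.MR (ch er DP FK)

lemma typ_bound (z Y i n : ℕ) (F : AC) (hF : Typ z F) (hl : 1 ≤ Real.log Y) (hlog : Real.log (9 * Y) ≤ 2 * Real.log Y)
    (hn : n ≤ 9 * Y) : ‖blk i F n‖ ≤ 2 * Real.log Y := by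
  rw [blk_apply]
  split_ifs
  · rcases hF with hF | hF | hF
    · rw [hF, zt_apply]
      split_ifs
      · rw [norm_zero]
        linarith
      · rw [norm_one]
        linarith
    · rw [hF, lg_apply, Complex.norm_real]
      rcases Nat.eq_zero_or_pos n with h0 | h0
      · rw [h0, Nat.cast_zero, Real.log_zero, norm_zero]
        linarith
      · rw [Real.norm_of_nonneg (Real.log_nonneg (by exact_mod_cast h0))]
        refine le_trans (Real.log_le_log (by exact_mod_cast h0) ?_) hlog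
        exact_mod_cast hn
    · rw [hF, muz_apply]
      split_ifs
      · have h1 : ‖((ArithmeticFunction.moebius n : ℤ) : ℂ)‖ ≤ 1 := by
          rw [Complex.norm_intCast]
          exact_mod_cast ArithmeticFunction.abs_moebius_le_one
        linarith
      · rw [norm_zero]
        linarith
  · rw [norm_zero]
    linarith

lemma dp_blk (t₀ : ℕ) (F : AC) (k : ℤ) (q s N₁ N₂ : ℕ) (h1 : 2 ^ t₀ ≤ N₁) (h2 : N₂ ≤ 2 * 2 ^ t₀) :
    DP ((Ioc N₁ N₂).filter (fun n => n % q = s)) (blk (t₀ + 1) F) k =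
      DP ((Ioc N₁ N₂).filter (fun n => n % q = s)) F k := by
  unfold DP
  apply sum_congr rfl
  intro n hn
  rw [mem_filter, mem_Ioc] at hn
  rw [blk_eq t₀ F n (by omega) (by omega)]

lemma log_mem (K₁ j : ℕ) (k : ℤ) (hk : k ∈ FK K₁) (hj : Nat.log 2 k.natAbs = j) (hk0 : k ≠ 0) :
    (2 : ℝ) ^ j ≤ |(k : ℝ)| ∧ |(k : ℝ)| < 2 * 2 ^ j ∧ (2 : ℝ) ^ j ≤ K₁ ∧ j ≤ Nat.log 2 K₁ ∧ k ∈ FK (2 ^ (j + 1)) := by
  have h0 : k.natAbs ≠ 0 := Int.natAbs_ne_zero.2 hk0
  have h1 : 2 ^ j ≤ k.natAbs := by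
    rw [← hj]
    exact Nat.pow_log_le_self 2 h0
  have h2 : k.natAbs < 2 ^ (j + 1) := by
    rw [← hj]
    exact Nat.lt_pow_succ_log_self (by norm_num) _
  have h3 : |(k : ℝ)| = (k.natAbs : ℝ) := by
    rw [Nat.cast_natAbs]
    push_cast
    rfl
  have h4 : k.natAbs < K₁ := by
    unfold FK at hk
    rw [mem_Ioo] at hk
    omega
  refine ⟨?_, ?_, ?_, ?_, ?_⟩
  · rw [h3]
    exact_mod_cast h1
  · rw [h3, ← pow_succ']
    exact_mod_cast h2
  · have : 2 ^ j ≤ K₁ := by omega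
    exact_mod_cast this
  · rw [← hj]
    exact Nat.log_mono_right h4.le
  · unfold FK
    rw [mem_Ioo]
    have h5 : ((2 ^ (j + 1) : ℕ) : ℤ) > (k.natAbs : ℤ) := by exact_mod_cast h2
    omega

end Pool.Agent.H561.Q4
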