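import Pool.Agent.H561.Q4.F6

set_option autoImplicit false

/-! The energy of one tuple of blocks. -/

namespace Pool.Agent.H561.Q4

open Finset
open Pool.Agent.helper24_UT
open Pool.Agent.helper24_UT.II
open Pool.Agent.H376R2.MR (ch er DP FK)

lemma gexp (Y e : ℕ) (hY : 1 ≤ Y) (he : 5 ≤ e) : ∃ g : ℝ, 0 < g ∧ g = (Y : ℝ) ^ (1 / (12 * e) : ℝ) ∧ (Y : ℝ) = g ^ (12 * e) ∧
    (Y : ℝ) ^ (3 / 4 - 1 / e : ℝ) = g ^ (9 * e - 12) ∧ (Y : ℝ) ^ (1 / 4 + 1 / (2 * e) : ℝ) = g ^ (3 * e + 6) := by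
  have hY0 : (0 : ℝ) < Y := by exact_mod_cast hY
  have he0 : (0 : ℝ) < e := by
    have : 0 < e := by omega
    exact_mod_cast this
  refine ⟨_, by positivity, rfl, ?_, ?_, ?_⟩
  · rw [← Real.rpow_natCast, ← Real.rpow_mul hY0.le]
    push_cast
    rw [one_div, inv_mul_cancel₀ (by positivity), Real.rpow_one]
  · rw [← Real.rpow_natCast, ← Real.rpow_mul hY0.le, Nat.cast_sub (by omega)]
    congr 1
    push_cast
    field_simp
    ring
  · rw [← Real.rpow_natCast, ← Real.rpow_mul hY0.le]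
    congr 1
    push_cast
    field_simp
    ring

/-- **The energy of one tuple.** -/
theorem one {C : ℝ} (hC : 0 < C) (hmv : Mv C) (hT1 : S_T1) (hMAP : S_MAP) (e A B m : ℕ) (he : 5 ≤ e) :
    ∃ K₂ Y₀ : ℕ, ∀ Y : ℕ, Y₀ ≤ Y → ∀ q r : ℕ, 1 ≤ q → (q : ℝ) ≤ (Real.log Y) ^ B → r.Coprime q →
    ∀ K₁ : ℕ, (K₁ : ℝ) ≤ (Y : ℝ) ^ (3 / 4 - 1 / e : ℝ) → ∀ z : ℕ, (z : ℝ) ≤ (Y : ℝ) ^ (1 / 4 + 1 / (2 * e) : ℝ) →
    ∀ t₀ : ℕ, 2 ^ t₀ ≤ 3 * Y → Y < (2 ^ (t₀ + 1)) ^ (m + 1) → ∀ F : AC, Typ z F →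
    ∀ b : AC, (∀ n, 1 ≤ n → n ≤ 9 * Y → ‖b n‖ ≤ (2 * Real.log Y) ^ m * tau n ^ m) →
    ∑ k ∈ (FK K₁).filter (fun k : ℤ => (Real.log Y) ^ K₂ ≤ |(k : ℝ)|),
      ‖DP ((Ioc Y (3 * Y)).filter (fun n => n % q = r % q)) (blk (t₀ + 1) F * b : AC) k‖ ^ 2 ≤
      (Y : ℝ) ^ 2 / (Real.log Y) ^ A := by
  obtain ⟨Q, hQ⟩ : ∃ Q, Q = 2 ^ (4 * (m + 1)) := ⟨_, rfl⟩
  obtain ⟨c, hc⟩ : ∃ c, c = (A + 2) + 4 * m + 2 * Q + 6 := ⟨_, rfl⟩
  obtain ⟨h, hh⟩ : ∃ h, h = (A + 2) + 4 * c + 4 * B + 4 * m + 2 * Q + 4 := ⟨_, rfl⟩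
  obtain ⟨Ka, Ya, hsupa⟩ := supa hT1 hMAP (m + 1) B (h + 2) (by omega)
  have he0 : (0 : ℝ) < e := by
    have : 0 < e := by omega
    exact_mod_cast this
  obtain ⟨n1, h1⟩ := Filter.eventually_atTop.1 (Pool.Agent.helper24_UT.Sil2.ev_pow (h + B + 3) (1 / (12 * e)) 100000000 (by positivity))
  obtain ⟨n2, h2⟩ := Filter.eventually_atTop.1 (Pool.Agent.helper24_UT.Sil2.ev_pow 0 (1 / (2 * (m + 1))) 2 (by positivity))
  refine ⟨max Ka (3 * h + 34), ⌈Real.exp (max 10 (4320 * C))⌉₊ + n1 + n2 + Ya, ?_⟩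
  intro Y hY q r hq hqB hrq K₁ hK₁ z hz t₀ ht ht' F hF b hb
  have hYa : ⌈Real.exp (max 10 (4320 * C))⌉₊ ≤ Y := by omega
  have hg1 := h1 Y (by omega)
  have hg2 := h2 Y (by omega)
  have hY1 : Real.exp (max 10 (4320 * C)) ≤ Y := (Nat.le_ceil _).trans (Nat.cast_le.mpr hYa)
  have hY0 : (0 : ℝ) < Y := (Real.exp_pos _).trans_le hY1
  have hYn : 1 ≤ Y := by exact_mod_cast hY0
  have hl' : max 10 (4320 * C) ≤ Real.log Y := by
    rw [Real.le_log_iff_exp_le hY0]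
    exact hY1
  have hl10 : 10 ≤ Real.log Y := (le_max_left _ _).trans hl'
  have hlC : 4320 * C ≤ Real.log Y := (le_max_right _ _).trans hl'
  obtain ⟨g, hg0, hg, hyg, hyg1, hyg2⟩ := gexp Y e hYn he
  rw [← hg] at hg1
  rw [hyg1] at hK₁
  rw [hyg2] at hz
  rw [pow_zero, mul_one] at hg2
  obtain ⟨ℓ, hℓ⟩ : ∃ ℓ, ℓ = Real.log Y := ⟨_, rfl⟩
  have hsupa' := hsupa Y (by omega) q hq hqB
  have hl0 : 0 < ℓ := by linarith
  have hl1 : 1 ≤ ℓ := by linarith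
  have hgg : 100000000 ≤ g := by
    refine le_trans ?_ hg1
    have : (1 : ℝ) ≤ Real.log Y ^ (h + B + 3) := one_le_pow₀ (by linarith)
    linarith
  have hg1' : 1 ≤ g := by linarith
  have hlog9 : Real.log (9 * Y) ≤ 2 * Real.log Y := by
    rw [Real.log_mul (by norm_num) hY0.ne']
    have h1 : Real.log 9 ≤ 8 := by
      have := Real.log_le_sub_one_of_pos (show (0 : ℝ) < 9 by norm_num)
      linarith
    linarith
  have hKY2 : 2 * (K₁ : ℝ) ≤ Y := by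
    calc 2 * (K₁ : ℝ) ≤ g * g ^ (9 * e - 12) := by
          gcongr
          linarith
      _ = g ^ (9 * e - 11) := by
          rw [← pow_succ']
          congr 1
          omega
      _ ≤ g ^ (12 * e) := pow_le_pow_right₀ hg1' (by omega)
      _ = Y := hyg.symm
  have hKY : (K₁ : ℝ) ≤ Y := by
    have : (0 : ℝ) ≤ K₁ := Nat.cast_nonneg _
    linarith
  rcases Nat.eq_zero_or_pos K₁ with h0 | hK1
  · have : FK K₁ = ∅ := by
      rw [h0]
      unfold FK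
      simp
    rw [this, Finset.filter_empty, Finset.sum_empty]
    positivity
  have ha : ∀ n, n ≤ 9 * Y → ‖blk (t₀ + 1) F n‖ ≤ 2 * Real.log Y := fun n hn =>
    typ_bound z Y (t₀ + 1) n F hF (by linarith) hlog9 hn
  have hA2 : (Y : ℝ) ^ 2 / Real.log Y ^ (A + 2) ≤ (Y : ℝ) ^ 2 / Real.log Y ^ A := by
    have : Real.log Y ^ A ≤ Real.log Y ^ (A + 2) := pow_le_pow_right₀ (by linarith) (by omega)
    rw [← hℓ] at this ⊢
    gcongr
  have hU0 : (0 : ℝ) < ((2 ^ t₀ : ℕ) : ℝ) := by positivity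
  have hKfil : (FK K₁).filter (fun k : ℤ => (Real.log Y) ^ (max Ka (3 * h + 34)) ≤ |(k : ℝ)|) ⊆ FK K₁ := filter_subset _ _
  by_cases hU : ((2 ^ t₀ : ℕ) : ℝ) ≤ g ^ (3 * e + 6)
  · -- a short block
    have hUY : ((2 ^ t₀ : ℕ) : ℝ) ≤ Y := by
      calc ((2 ^ t₀ : ℕ) : ℝ) ≤ g ^ (3 * e + 6) := hU
        _ ≤ g ^ (12 * e) := pow_le_pow_right₀ hg1' (by omega)
        _ = Y := hyg.symm
    have hUYn : 2 ^ t₀ ≤ Y := by exact_mod_cast hUY
    have hUlow : (Y : ℝ) ^ (1 / (2 * (m + 1 : ℕ)) : ℝ) ≤ ((2 ^ t₀ : ℕ) : ℝ) := by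
      push_cast at hg2 ⊢
      obtain ⟨w, hw⟩ : ∃ w : ℝ, w = (Y : ℝ) ^ (1 / (2 * ((m : ℝ) + 1)) : ℝ) := ⟨_, rfl⟩
      rw [← hw] at hg2 ⊢
      have hw2 : w ^ (2 * (m + 1)) = Y := by
        rw [hw, ← Real.rpow_natCast, ← Real.rpow_mul hY0.le]
        push_cast
        rw [one_div, inv_mul_cancel₀ (by positivity), Real.rpow_one]
      have h3 : (w ^ 2) ^ (m + 1) < ((2 : ℝ) ^ (t₀ + 1)) ^ (m + 1) := by
        rw [← pow_mul, hw2]
        exact_mod_cast ht'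
      have h4 : w ^ 2 < (2 : ℝ) ^ (t₀ + 1) := lt_of_pow_lt_pow_left₀ _ (by positivity) h3
      rw [pow_succ (2 : ℝ)] at h4
      have h5 : w * 2 ≤ w ^ 2 := by
        rw [sq]
        exact mul_le_mul_of_nonneg_left hg2 (by linarith)
      linarith
    refine le_trans ?_ hA2
    refine cellT hC hmv m (A + 2) B Q c h Y q r t₀ K₁ (((2 ^ t₀ : ℕ) : ℝ) / Real.log Y ^ (h + 2)) hQ hc hh hl10 hlC hK1 hKY ht
      hq hqB hrq (by positivity) _ hKfil (blk (t₀ + 1) F) b ha hb (fun n hn => blk_supp' t₀ F n hn) ?_ ?_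
    · intro k hk s hs hsq N₁ N₂ hN1 hN12 hN2
      rw [mem_filter] at hk
      rw [dp_blk t₀ F k q s N₁ N₂ hN1 hN2]
      refine hsupa' k ?_ ?_ (2 ^ t₀) hUlow hUYn s hs hsq z F hF N₁ N₂ hN1 hN12 hN2
      · refine le_trans ?_ hk.2
        exact pow_le_pow_right₀ (by linarith) (le_max_left _ _)
      · have h5 := hk.1
        unfold FK at h5
        rw [mem_Ioo] at h5
        have h6 : |k| ≤ (K₁ : ℤ) := by
          rw [abs_le]
          omega
        refine le_trans ?_ hKY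
        exact_mod_cast h6
    · rw [← hℓ]
      have hKU : (K₁ : ℝ) ≤ Y / ((2 ^ t₀ : ℕ) : ℝ) := by
        rw [le_div_iff₀ hU0]
        calc (K₁ : ℝ) * ((2 ^ t₀ : ℕ) : ℝ) ≤ g ^ (9 * e - 12) * g ^ (3 * e + 6) := by gcongr
          _ = g ^ (12 * e - 6) := by
              rw [← pow_add]
              congr 1
              omega
          _ ≤ g ^ (12 * e) := pow_le_pow_right₀ hg1' (by omega)
          _ = Y := hyg.symm
      obtain ⟨u, hu⟩ : ∃ u : ℝ, u = ((2 ^ t₀ : ℕ) : ℝ) := ⟨_, rfl⟩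
      rw [← hu] at hKU hU0 ⊢
      calc (u / ℓ ^ (h + 2)) ^ 2 * ((3 * Y / u + K₁) * (3 * Y / u))
          ≤ (u / ℓ ^ (h + 2)) ^ 2 * ((3 * Y / u + Y / u) * (3 * Y / u)) := by gcongr
        _ = 12 / ℓ ^ (h + 4) * (Y ^ 2 / ℓ ^ h) := by
            rw [pow_add, pow_add]
            field_simp
            ring
        _ ≤ 1 * (Y ^ 2 / ℓ ^ h) := by
            apply mul_le_mul_of_nonneg_right _ (by positivity)
            rw [div_le_one (by positivity)]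
            have h7 : ℓ ^ 4 ≤ ℓ ^ (h + 4) := pow_le_pow_right₀ hl1 (by omega)
            have h8 : (10 : ℝ) ^ 4 ≤ ℓ ^ 4 := pow_le_pow_left₀ (by norm_num) (by linarith) 4
            norm_num at h8
            linarith
        _ = _ := one_mul _
  push Not at hU
  have hFc : F = muz z ∨ (F = zt ∨ F = lg) := by
    rcases hF with h3 | h3 | h3
    · exact Or.inr (Or.inl h3)
    · exact Or.inr (Or.inr h3)
    · exact Or.inl h3
  rcases hFc with hFm | hFm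
  · -- the Moebius function is zero
    refine le_trans ?_ hA2
    refine cellT hC hmv m (A + 2) B Q c h Y q r t₀ K₁ 0 hQ hc hh hl10 hlC hK1 hKY ht
      hq hqB hrq le_rfl _ hKfil (blk (t₀ + 1) F) b ha hb (fun n hn => blk_supp' t₀ F n hn) ?_ ?_
    · intro k hk s hs hsq N₁ N₂ hN1 hN12 hN2
      rw [dp_blk t₀ F k q s N₁ N₂ hN1 hN2, hFm]
      unfold DP
      rw [sum_eq_zero, norm_zero]
      intro n hn
      rw [mem_filter, mem_Ioc] at hn
      have h4 : z < n := by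
        have h5 : (z : ℝ) < ((2 ^ t₀ : ℕ) : ℝ) := lt_of_le_of_lt hz hU
        have h6 : z < 2 ^ t₀ := by exact_mod_cast h5
        omega
      rw [muz_apply, if_neg (by omega), zero_mul]
    · rw [zero_pow two_ne_zero, zero_mul]
      positivity
  · -- a long block
    set KK := (FK K₁).filter (fun k : ℤ => (Real.log Y) ^ (max Ka (3 * h + 34)) ≤ |(k : ℝ)|) with hKK
    have hJ : ((Nat.log 2 K₁ + 1 : ℕ) : ℝ) ≤ ℓ ^ 2 := by
      have h3 : (2 : ℝ) ^ Nat.log 2 K₁ ≤ Y := by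
        refine le_trans ?_ hKY
        exact_mod_cast Nat.pow_log_le_self 2 (by omega)
      have h4 := Real.log_le_log (by positivity) h3
      rw [Real.log_pow, ← hℓ] at h4
      have h5 := Real.log_two_gt_d9
      push_cast
      nlinarith
    have hfib : ∀ j ∈ range (Nat.log 2 K₁ + 1), ∑ k ∈ KK with Nat.log 2 k.natAbs = j,
        ‖DP ((Ioc Y (3 * Y)).filter (fun n => n % q = r % q)) (blk (t₀ + 1) F * b : AC) k‖ ^ 2 ≤
        (Y : ℝ) ^ 2 / (Real.log Y) ^ (A + 2) := by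
      intro j hj
      rcases (KK.filter (fun k => Nat.log 2 k.natAbs = j)).eq_empty_or_nonempty with hem | ⟨k₀, hk₀⟩
      · rw [hem, sum_empty]
        positivity
      -- the size of the frequencies
      have hmem : ∀ k ∈ KK.filter (fun k => Nat.log 2 k.natAbs = j), (2 : ℝ) ^ j ≤ |(k : ℝ)| ∧ |(k : ℝ)| < 2 * 2 ^ j ∧
          (2 : ℝ) ^ j ≤ K₁ ∧ j ≤ Nat.log 2 K₁ ∧ k ∈ FK (2 ^ (j + 1)) ∧ ℓ ^ (3 * h + 34) ≤ |(k : ℝ)| := by
        intro k hk
        rw [mem_filter, hKK, mem_filter] at hk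
        have h3 : ℓ ^ (3 * h + 34) ≤ |(k : ℝ)| := by
          refine le_trans ?_ hk.1.2
          rw [hℓ]
          exact pow_le_pow_right₀ (by linarith) (le_max_right _ _)
        have hk0 : k ≠ 0 := by
          intro h4
          rw [h4, Int.cast_zero, abs_zero] at h3
          have : (0 : ℝ) < ℓ ^ (3 * h + 34) := by positivity
          linarith
        obtain ⟨e1, e2, e3, e4, e5⟩ := log_mem K₁ j k hk.1.1 hk.2 hk0
        exact ⟨e1, e2, e3, e4, e5, h3⟩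
      obtain ⟨f1, f2, f3, _, _, f6⟩ := hmem k₀ hk₀
      have hT : (100000000 * (Real.log Y) ^ (h + 3)) ^ 3 ≤ (((2 ^ j : ℕ) : ℕ) : ℝ) := by
        rw [← hℓ]
        have h5 : (100000000 : ℝ) ≤ ℓ ^ 8 := by
          calc (100000000 : ℝ) = 10 ^ 8 := by norm_num
            _ ≤ ℓ ^ 8 := pow_le_pow_left₀ (by norm_num) (by linarith) 8
        have h6 : (100000000 * ℓ ^ (h + 3)) ^ 3 ≤ ℓ ^ (3 * h + 33) := by
          calc (100000000 * ℓ ^ (h + 3)) ^ 3 ≤ (ℓ ^ 8 * ℓ ^ (h + 3)) ^ 3 := by gcongr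
            _ = ℓ ^ (3 * h + 33) := by ring
        have h7 : ℓ ^ (3 * h + 34) = ℓ * ℓ ^ (3 * h + 33) := by ring
        have h8 : 0 < ℓ ^ (3 * h + 33) := by positivity
        push_cast
        nlinarith
      have hTg : (((2 ^ j : ℕ) : ℕ) : ℝ) ≤ g ^ (9 * e - 12) := by
        push_cast
        exact f3.trans hK₁
      have hUY3 : ((2 ^ t₀ : ℕ) : ℝ) ≤ 3 * Y := by exact_mod_cast ht
      obtain ⟨P, hP0, hPX, hPk⟩ := supv Y g h B e q (2 ^ t₀) (2 ^ j) hl10 he hyg hg0 hg1 hq hqB hU.le hUY3 hTg hT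
      refine cellT hC hmv m (A + 2) B Q c h Y q r t₀ (2 ^ (j + 1)) P hQ hc hh hl10 hlC Nat.one_le_two_pow ?_ ht
        hq hqB hrq hP0 _ ?_ (blk (t₀ + 1) F) b ha hb (fun n hn => blk_supp' t₀ F n hn) ?_ ?_
      · push_cast
        rw [pow_succ]
        linarith
      · intro k hk
        exact (hmem k hk).2.2.2.2.1
      · intro k hk s hs hsq N₁ N₂ hN1 hN12 hN2
        rw [dp_blk t₀ F k q s N₁ N₂ hN1 hN2]
        have h5 := hmem k hk
        refine hPk k ?_ ?_ s hs F hFm N₁ N₂ hN1 hN12 hN2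
        · push_cast
          exact h5.1
        · push_cast
          exact h5.2.1.le
      · refine le_trans (le_of_eq ?_) hPX
        push_cast
        ring
    have hmaps : ∀ k ∈ KK, Nat.log 2 k.natAbs ∈ range (Nat.log 2 K₁ + 1) := by
      intro k hk
      rw [hKK, mem_filter] at hk
      have h3 : k.natAbs < K₁ := by
        have := hk.1
        unfold FK at this
        rw [mem_Ioo] at this
        omega
      rw [mem_range]
      have := Nat.log_mono_right (b := 2) h3.le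
      omega
    rw [← sum_fiberwise_of_maps_to hmaps]
    refine (sum_le_sum hfib).trans ?_
    rw [sum_const, card_range, nsmul_eq_mul, ← hℓ]
    calc ((Nat.log 2 K₁ + 1 : ℕ) : ℝ) * ((Y : ℝ) ^ 2 / ℓ ^ (A + 2)) ≤ ℓ ^ 2 * ((Y : ℝ) ^ 2 / ℓ ^ (A + 2)) := by gcongr
      _ = (Y : ℝ) ^ 2 / ℓ ^ A := by
          rw [pow_add]
          field_simp

end Pool.Agent.H561.Q4
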