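import Pool.Agent.H561.Q4.F7

set_option autoImplicit false

/-! The energy of the products in the identity, and of the primes in progressions. -/

namespace Pool.Agent.H561.Q4

open Finset
open Pool.Agent.helper24_UT
open Pool.Agent.helper24_UT.II
open Pool.Agent.H376R2.MR (ch er DP FK)

/-- **The energy of a product.** -/
theorem prodE {C : ℝ} (hC : 0 < C) (hmv : Mv C) (hT1 : S_T1) (hMAP : S_MAP) (e A B m : ℕ) (he : 5 ≤ e) :
    ∃ K₂ Y₀ : ℕ, ∀ Y : ℕ, Y₀ ≤ Y → ∀ q r : ℕ, 1 ≤ q → (q : ℝ) ≤ (Real.log Y) ^ B → r.Coprime q →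
    ∀ K₁ : ℕ, (K₁ : ℝ) ≤ (Y : ℝ) ^ (3 / 4 - 1 / e : ℝ) → ∀ z : ℕ, (z : ℝ) ≤ (Y : ℝ) ^ (1 / 4 + 1 / (2 * e) : ℝ) →
    ∀ F : Fin (m + 1) → AC, (∀ i, Typ z (F i)) →
    ∑ k ∈ (FK K₁).filter (fun k : ℤ => (Real.log Y) ^ K₂ ≤ |(k : ℝ)|),
      ‖DP ((Ioc Y (3 * Y)).filter (fun n => n % q = r % q)) (∏ i, F i : AC) k‖ ^ 2 ≤
      (Y : ℝ) ^ 2 / (Real.log Y) ^ A := by
  obtain ⟨K₂, Y₁, h1⟩ := one hC hmv hT1 hMAP e (A + 4 * (m + 1)) B m he
  refine ⟨K₂, Y₁ + ⌈Real.exp 10⌉₊, ?_⟩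
  intro Y hY q r hq hqB hrq K₁ hK₁ z hz F hF
  have h1 := h1 Y (by omega) q r hq hqB hrq K₁ hK₁ z hz
  have hYa : ⌈Real.exp 10⌉₊ ≤ Y := by omega
  have hY1 : Real.exp 10 ≤ Y := (Nat.le_ceil _).trans (Nat.cast_le.mpr hYa)
  have hY0 : (0 : ℝ) < Y := (Real.exp_pos _).trans_le hY1
  have hYn : 1 ≤ Y := by exact_mod_cast hY0
  have hl10 : 10 ≤ Real.log Y := by
    rw [Real.le_log_iff_exp_le hY0]
    exact hY1
  have hlog9 : Real.log (9 * Y) ≤ 2 * Real.log Y := by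
    rw [Real.log_mul (by norm_num) hY0.ne']
    have h1 : Real.log 9 ≤ 8 := by
      have := Real.log_le_sub_one_of_pos (show (0 : ℝ) < 9 by norm_num)
      linarith
    linarith
  obtain ⟨R, hR⟩ : ∃ R, R = Nat.clog 2 (3 * Y) := ⟨_, rfl⟩
  have hR3 : 3 * Y ≤ 2 ^ R := by
    rw [hR]
    exact Nat.le_pow_clog (by norm_num) _
  have hR1 : 1 ≤ R := by
    by_contra hcon
    have : R = 0 := by omega
    rw [this, pow_zero] at hR3
    omega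
  have hR4 : 2 ^ (R - 1) < 3 * Y := by
    rw [hR]
    exact Nat.pow_pred_clog_lt_self (by norm_num) (by omega)
  have hRl : ((R + 1 : ℕ) : ℝ) ≤ (Real.log Y) ^ 2 := by
    have h3 : (2 : ℝ) ^ (R - 1) ≤ 9 * Y := by
      have : 2 ^ (R - 1) ≤ 9 * Y := by omega
      exact_mod_cast this
    have h4 := Real.log_le_log (by positivity) h3
    rw [Real.log_pow, Nat.cast_sub hR1] at h4
    have h5 := Real.log_two_gt_d9
    have h6 : (1 : ℝ) ≤ R := by exact_mod_cast hR1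
    push_cast at h4 ⊢
    nlinarith
  set KK := (FK K₁).filter (fun k : ℤ => (Real.log Y) ^ K₂ ≤ |(k : ℝ)|) with hKK
  set TT := Fintype.piFinset (fun _ : Fin (m + 1) => range (R + 1)) with hTT
  have hcard : (TT.card : ℝ) ≤ (Real.log Y) ^ (2 * (m + 1)) := by
    rw [hTT, Fintype.card_piFinset, prod_const, card_range, card_univ, Fintype.card_fin]
    push_cast at hRl ⊢
    rw [pow_mul]
    exact pow_le_pow_left₀ (by positivity) hRl _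
  have hdec : ∀ k : ℤ, DP ((Ioc Y (3 * Y)).filter (fun n => n % q = r % q)) (∏ i, F i : AC) k =
      ∑ t ∈ TT, DP ((Ioc Y (3 * Y)).filter (fun n => n % q = r % q)) (∏ i, blk (t i) (F i) : AC) k := by
    intro k
    unfold DP
    rw [sum_comm]
    apply sum_congr rfl
    intro n hn
    rw [mem_filter, mem_Ioc] at hn
    rw [blocks R (m + 1) n F (by omega), sum_mul]
  have htup : ∀ t ∈ TT, ∑ k ∈ KK, ‖DP ((Ioc Y (3 * Y)).filter (fun n => n % q = r % q)) (∏ i, blk (t i) (F i) : AC) k‖ ^ 2 ≤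
      (Y : ℝ) ^ 2 / (Real.log Y) ^ (A + 4 * (m + 1)) := by
    intro t ht
    rw [hTT, Fintype.mem_piFinset] at ht
    by_cases hsm : 2 ^ (∑ i, t i) ≤ Y
    · have h3 : ∀ k : ℤ, DP ((Ioc Y (3 * Y)).filter (fun n => n % q = r % q)) (∏ i, blk (t i) (F i) : AC) k = 0 := by
        intro k
        unfold DP
        apply sum_eq_zero
        intro n hn
        rw [mem_filter, mem_Ioc] at hn
        have h4 : (∏ i, blk (t i) (F i) : AC) n = 0 := by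
          by_contra hcon
          have := prod_supp (m + 1) t F univ n hcon
          omega
        rw [h4, zero_mul]
      simp only [h3, norm_zero]
      rw [sum_eq_zero (fun _ _ => by norm_num)]
      positivity
    · push Not at hsm
      obtain ⟨i₀, _, hi₀⟩ := exists_max_image (univ : Finset (Fin (m + 1))) t univ_nonempty
      have h3 : Y < (2 ^ t i₀) ^ (m + 1) := by
        refine lt_of_lt_of_le hsm ?_
        rw [← pow_mul]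
        apply Nat.pow_le_pow_right (by norm_num)
        calc ∑ i, t i ≤ ∑ _i : Fin (m + 1), t i₀ := sum_le_sum fun i _ => hi₀ i (mem_univ i)
          _ = t i₀ * (m + 1) := by rw [sum_const, card_univ, Fintype.card_fin, smul_eq_mul, mul_comm]
      have h4 : t i₀ ≠ 0 := by
        intro h5
        rw [h5, pow_zero, one_pow] at h3
        omega
      obtain ⟨t₀, ht₀⟩ := Nat.exists_eq_succ_of_ne_zero h4
      have ht₁ := ht i₀
      rw [mem_range, ht₀] at ht₁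
      have h5 : 2 ^ t₀ ≤ 3 * Y := by
        have : 2 ^ t₀ ≤ 2 ^ (R - 1) := Nat.pow_le_pow_right (by norm_num) (by omega)
        omega
      have h6 : (∏ i, blk (t i) (F i) : AC) = blk (t₀ + 1) (F i₀) * ∏ i ∈ univ.erase i₀, blk (t i) (F i) := by
        rw [← mul_prod_erase univ _ (mem_univ i₀), ht₀]
      rw [h6]
      refine h1 t₀ h5 (by rw [ht₀] at h3; exact h3) (F i₀) (hF i₀) _ ?_
      have h7 := prod_bound (9 * Y) (m + 1) (fun i => blk (t i) (F i)) (2 * Real.log Y) (by linarith)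
        (fun i n hn => typ_bound z Y (t i) n (F i) (hF i) (by linarith) hlog9 hn) (univ.erase i₀)
      rw [card_erase_of_mem (mem_univ i₀), card_univ, Fintype.card_fin, Nat.add_sub_cancel] at h7
      exact h7
  obtain ⟨ℓ, hℓ⟩ : ∃ ℓ, ℓ = Real.log Y := ⟨_, rfl⟩
  rw [← hℓ] at htup hcard hl10 ⊢
  have hl0 : 0 < ℓ := by linarith
  calc ∑ k ∈ KK, ‖DP ((Ioc Y (3 * Y)).filter (fun n => n % q = r % q)) (∏ i, F i : AC) k‖ ^ 2
      ≤ ∑ k ∈ KK, (TT.card : ℝ) * ∑ t ∈ TT,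
        ‖DP ((Ioc Y (3 * Y)).filter (fun n => n % q = r % q)) (∏ i, blk (t i) (F i) : AC) k‖ ^ 2 := by
        refine sum_le_sum fun k _ => ?_
        rw [hdec k]
        exact (pow_le_pow_left₀ (norm_nonneg _) (norm_sum_le _ _) 2).trans sq_sum_le_card_mul_sum_sq
    _ = (TT.card : ℝ) * ∑ t ∈ TT, ∑ k ∈ KK,
        ‖DP ((Ioc Y (3 * Y)).filter (fun n => n % q = r % q)) (∏ i, blk (t i) (F i) : AC) k‖ ^ 2 := by
        rw [← mul_sum, sum_comm]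
    _ ≤ (TT.card : ℝ) * ∑ t ∈ TT, (Y : ℝ) ^ 2 / ℓ ^ (A + 4 * (m + 1)) :=
        mul_le_mul_of_nonneg_left (sum_le_sum htup) (Nat.cast_nonneg _)
    _ = (TT.card : ℝ) ^ 2 * ((Y : ℝ) ^ 2 / ℓ ^ (A + 4 * (m + 1))) := by
        rw [sum_const, nsmul_eq_mul]
        ring
    _ ≤ (ℓ ^ (2 * (m + 1))) ^ 2 * ((Y : ℝ) ^ 2 / ℓ ^ (A + 4 * (m + 1))) := by gcongr
    _ = (Y : ℝ) ^ 2 / ℓ ^ A := by
        rw [← pow_mul, pow_add]
        have : ℓ ^ (2 * (m + 1) * 2) = ℓ ^ (4 * (m + 1)) := by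
          congr 1
          ring
        rw [this]
        field_simp

/-- primes in progressions, large frequencies -/
def S_FRL4 : Prop := ∀ e A B : ℕ, 5 ≤ e → ∃ (K₂ Y₀ : ℕ), ∀ Y : ℕ, Y₀ ≤ Y → ∀ q r : ℕ, 1 ≤ q →
  (q : ℝ) ≤ (Real.log Y) ^ B → r.Coprime q → ∀ K₁ : ℕ, (K₁ : ℝ) ≤ (Y : ℝ) ^ (3 / 4 - 1 / e : ℝ) →
  ∑ k ∈ (FK K₁).filter (fun k : ℤ => (Real.log Y) ^ K₂ ≤ |(k : ℝ)|),
    ‖DP ((Ioc Y (3 * Y)).filter (fun n => n % q = r % q)) (fun n => (ArithmeticFunction.vonMangoldt n : ℂ)) k‖ ^ 2 ≤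
    (Y : ℝ) ^ 2 / (Real.log Y) ^ A

lemma four_sq (a b c d : ℂ) : ‖4 * a - 6 * b + 4 * c - d‖ ^ 2 ≤ 144 * (‖a‖ ^ 2 + ‖b‖ ^ 2 + ‖c‖ ^ 2 + ‖d‖ ^ 2) := by
  have h1 : ‖4 * a - 6 * b + 4 * c - d‖ ≤ 4 * ‖a‖ + 6 * ‖b‖ + 4 * ‖c‖ + ‖d‖ := by
    calc ‖4 * a - 6 * b + 4 * c - d‖ ≤ ‖4 * a - 6 * b + 4 * c‖ + ‖d‖ := norm_sub_le _ _
      _ ≤ ‖4 * a - 6 * b‖ + ‖4 * c‖ + ‖d‖ := by gcongr; exact norm_add_le _ _
      _ ≤ ‖4 * a‖ + ‖6 * b‖ + ‖4 * c‖ + ‖d‖ := by gcongr; exact norm_sub_le _ _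
      _ = _ := by
          rw [norm_mul, norm_mul, norm_mul]
          norm_num
  have h2 := pow_le_pow_left₀ (norm_nonneg _) h1 2
  refine h2.trans ?_
  nlinarith [sq_nonneg (‖a‖ - ‖b‖), sq_nonneg (‖a‖ - ‖c‖), sq_nonneg (‖a‖ - ‖d‖), sq_nonneg (‖b‖ - ‖c‖),
    sq_nonneg (‖b‖ - ‖d‖), sq_nonneg (‖c‖ - ‖d‖), sq_nonneg ‖a‖, sq_nonneg ‖b‖, sq_nonneg ‖c‖, sq_nonneg ‖d‖]

end Pool.Agent.H561.Q4
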