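import Pool.Agent.H561.Q4.T1

set_option autoImplicit false

/-! The identity of Heath-Brown with four factors, and the decomposition into blocks. -/

namespace Pool.Agent.H561.Q4

open Finset
open Pool.Agent.helper24_UT
open Pool.Agent.helper24_UT.II
open Pool.Agent.H376R2.MR (ch er DP FK)

/-- arithmetic functions with complex values -/
abbrev AC := ArithmeticFunction ℂ

/-- the constant function one -/
noncomputable def zt : AC := ⟨fun n => if n = 0 then 0 else 1, by simp⟩

/-- the logarithm -/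
noncomputable def lg : AC := ⟨fun n => ((Real.log n : ℝ) : ℂ), by simp⟩

/-- the Moebius function up to `z` -/
noncomputable def muz (z : ℕ) : AC := ⟨fun n => if n ≤ z then ((ArithmeticFunction.moebius n : ℤ) : ℂ) else 0, by simp⟩

/-- the function of von Mangoldt -/
noncomputable def La : AC := ⟨fun n => (ArithmeticFunction.vonMangoldt n : ℂ), by simp⟩

lemma zt_apply (n : ℕ) : zt n = if n = 0 then 0 else 1 := rfl

lemma lg_apply (n : ℕ) : lg n = ((Real.log n : ℝ) : ℂ) := rfl

lemma muz_apply (z n : ℕ) : muz z n = if n ≤ z then ((ArithmeticFunction.moebius n : ℤ) : ℂ) else 0 := rfl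

lemma La_apply (n : ℕ) : La n = (ArithmeticFunction.vonMangoldt n : ℂ) := rfl

lemma La_zt : La * zt = lg := by
  ext n
  rw [ArithmeticFunction.mul_apply, lg_apply, ← ArithmeticFunction.vonMangoldt_sum, Complex.ofReal_sum]
  have h1 : ∑ x ∈ n.divisorsAntidiagonal, La x.1 * zt x.2 = ∑ x ∈ n.divisorsAntidiagonal,
      (fun i _ => (ArithmeticFunction.vonMangoldt i : ℂ)) x.1 x.2 := by
    apply sum_congr rfl
    intro x hx
    rw [Nat.mem_divisorsAntidiagonal] at hx
    have h2 : x.2 ≠ 0 := by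
      intro h3
      rw [h3, mul_zero] at hx
      exact hx.2 hx.1.symm
    rw [La_apply, zt_apply, if_neg h2, mul_one]
  rw [h1, Nat.sum_divisorsAntidiagonal (f := fun i _ => (ArithmeticFunction.vonMangoldt i : ℂ))]

/-- `1 - ζ M` vanishes up to `z` -/
lemma vanish1 (z n : ℕ) (hn : n ≤ z) : (1 - zt * muz z : AC) n = 0 := by
  have h0 : (1 - zt * muz z : AC) n = (1 : AC) n - (zt * muz z) n := rfl
  rw [h0]
  rcases Nat.eq_zero_or_pos n with h | h
  · rw [h]
    simp
  rw [ArithmeticFunction.mul_apply]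
  have h1 : ∑ x ∈ n.divisorsAntidiagonal, zt x.1 * muz z x.2 = ∑ x ∈ n.divisorsAntidiagonal,
      (fun _ j => ((ArithmeticFunction.moebius j : ℤ) : ℂ)) x.1 x.2 := by
    apply sum_congr rfl
    intro x hx
    have hx2 := Nat.divisor_le (Nat.snd_mem_divisors_of_mem_antidiagonal hx)
    rw [Nat.mem_divisorsAntidiagonal] at hx
    have h2 : x.1 ≠ 0 := by
      intro h3
      rw [h3, zero_mul] at hx
      exact hx.2 hx.1.symm
    rw [zt_apply, if_neg h2, one_mul, muz_apply, if_pos (hx2.trans hn)]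
  rw [h1, Nat.sum_divisorsAntidiagonal' (f := fun _ j => ((ArithmeticFunction.moebius j : ℤ) : ℂ))]
  have h2 : ∑ i ∈ n.divisors, ((ArithmeticFunction.moebius i : ℤ) : ℂ) = ((∑ i ∈ n.divisors, ArithmeticFunction.moebius i : ℤ) : ℂ) := by
    push_cast
    rfl
  rw [h2]
  have h3 : (∑ i ∈ n.divisors, ArithmeticFunction.moebius i : ℤ) = (1 : ArithmeticFunction ℤ) n := by
    rw [← ArithmeticFunction.coe_zeta_mul_moebius, ArithmeticFunction.coe_zeta_mul_apply]
  rw [h3, ArithmeticFunction.one_apply, ArithmeticFunction.one_apply]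
  split_ifs <;> simp

lemma vanish_mul (f g : AC) (a b : ℕ) (hf : ∀ n, n ≤ a → f n = 0) (hg : ∀ n, n ≤ b → g n = 0) :
    ∀ n, n ≤ a * b → (f * g) n = 0 := by
  intro n hn
  rw [ArithmeticFunction.mul_apply]
  apply sum_eq_zero
  intro x hx
  rw [Nat.mem_divisorsAntidiagonal] at hx
  by_cases h1 : x.1 ≤ a
  · rw [hf x.1 h1, zero_mul]
  · by_cases h2 : x.2 ≤ b
    · rw [hg x.2 h2, mul_zero]
    · exfalso
      push Not at h1 h2
      have : a * b < x.1 * x.2 := Nat.mul_lt_mul'' h1 h2
      omega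

/-- **Heath-Brown's identity.** -/
theorem hb4 (z n : ℕ) (hn : n ≤ z ^ 4) :
    La n = 4 * (lg * muz z) n - 6 * (lg * zt * muz z ^ 2) n + 4 * (lg * zt ^ 2 * muz z ^ 3) n -
      (lg * zt ^ 3 * muz z ^ 4) n := by
  obtain ⟨A, hA⟩ : ∃ A : AC, A = 1 - zt * muz z := ⟨_, rfl⟩
  have h1 : ∀ n, n ≤ z → A n = 0 := by rw [hA]; exact vanish1 z
  have h2 := vanish_mul A A z z h1 h1
  have h3 := vanish_mul (A * A) A (z * z) z h2 h1
  have h4 := vanish_mul (A * A * A) A (z * z * z) z h3 h1
  have h5 : ∀ n, n ≤ z ^ 4 → (La * (A * A * A * A)) n = 0 := by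
    intro n hn
    have h6 := vanish_mul (A * A * A * A) La (z * z * z * z) 1 h4 (by
      intro n hn
      rw [La_apply]
      interval_cases n <;> simp) n (by
      calc n ≤ z ^ 4 := hn
        _ = z * z * z * z * 1 := by ring)
    rw [mul_comm]
    exact h6
  have h6 : La * (A * A * A * A) = La - 4 * (lg * muz z) + 6 * (lg * zt * muz z ^ 2) - 4 * (lg * zt ^ 2 * muz z ^ 3) +
      (lg * zt ^ 3 * muz z ^ 4) := by
    rw [hA, ← La_zt]
    ring
  have h7 := h5 n hn
  rw [h6] at h7
  have e1 : ∀ (c : AC), (4 * c : AC) n = 4 * c n := by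
    intro c
    have : (4 * c : AC) = c + c + c + c := by ring
    rw [this]
    simp only [ArithmeticFunction.add_apply]
    ring
  have e2 : ∀ (c : AC), (6 * c : AC) n = 6 * c n := by
    intro c
    have : (6 * c : AC) = c + c + c + c + c + c := by ring
    rw [this]
    simp only [ArithmeticFunction.add_apply]
    ring
  have e3 : (La - 4 * (lg * muz z) + 6 * (lg * zt * muz z ^ 2) - 4 * (lg * zt ^ 2 * muz z ^ 3) +
      (lg * zt ^ 3 * muz z ^ 4) : AC) n = La n - (4 * (lg * muz z) : AC) n + (6 * (lg * zt * muz z ^ 2) : AC) n -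
      (4 * (lg * zt ^ 2 * muz z ^ 3) : AC) n + (lg * zt ^ 3 * muz z ^ 4 : AC) n := rfl
  rw [e3, e1, e2, e1] at h7
  linear_combination h7

/-- the block of `f` with the index `i`: the integers `1` (for `i = 0`) or `2 ^ (i - 1) < n ≤ 2 ^ i` -/
noncomputable def blk (i : ℕ) (f : AC) : AC := ⟨fun n => if Nat.clog 2 n = i then f n else 0, by simp⟩

lemma blk_apply (i : ℕ) (f : AC) (n : ℕ) : blk i f n = if Nat.clog 2 n = i then f n else 0 := rfl

lemma tr_apply (R : ℕ) (f : AC) (n : ℕ) (hn : n ≤ 2 ^ R) : (∑ i ∈ range (R + 1), blk i f) n = f n := by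
  have h1 : (∑ i ∈ range (R + 1), blk i f) n = ∑ i ∈ range (R + 1), blk i f n := by
    induction (range (R + 1)) using Finset.induction_on with
    | empty => simp
    | insert a s ha ih => rw [sum_insert ha, sum_insert ha, ArithmeticFunction.add_apply, ih]
  rw [h1]
  simp only [blk_apply]
  rw [sum_ite_eq, if_pos]
  rw [mem_range]
  have := Nat.clog_le_of_le_pow hn
  omega

lemma mul_agree (X : ℕ) (f f' g g' : AC) (hf : ∀ n, n ≤ X → f n = f' n) (hg : ∀ n, n ≤ X → g n = g' n) :
    ∀ n, n ≤ X → (f * g) n = (f' * g') n := by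
  intro n hn
  rw [ArithmeticFunction.mul_apply, ArithmeticFunction.mul_apply]
  apply sum_congr rfl
  intro x hx
  have h1 := Nat.divisor_le (Nat.snd_mem_divisors_of_mem_antidiagonal hx)
  have h2 := Nat.divisor_le (Nat.fst_mem_divisors_of_mem_antidiagonal hx)
  rw [hf _ (h2.trans hn), hg _ (h1.trans hn)]

lemma prod_agree (X m : ℕ) (f g : Fin m → AC) (h : ∀ i, ∀ n, n ≤ X → f i n = g i n) (s : Finset (Fin m)) :
    ∀ n, n ≤ X → (∏ i ∈ s, f i) n = (∏ i ∈ s, g i) n := by
  induction s using Finset.induction_on with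
  | empty => intro n _; simp
  | insert a s ha ih =>
    rw [prod_insert ha, prod_insert ha]
    exact mul_agree X _ _ _ _ (h a) ih

/-- **The decomposition into blocks.** -/
theorem blocks (R m n : ℕ) (F : Fin m → AC) (hn : n ≤ 2 ^ R) :
    (∏ i, F i) n = ∑ t ∈ Fintype.piFinset (fun _ : Fin m => range (R + 1)), (∏ i, blk (t i) (F i)) n := by
  rw [← prod_agree (2 ^ R) m (fun i => ∑ j ∈ range (R + 1), blk j (F i)) F (fun i n hn => tr_apply R (F i) n hn) univ n hn]
  rw [prod_univ_sum]
  induction (Fintype.piFinset (fun _ : Fin m => range (R + 1))) using Finset.induction_on with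
  | empty => simp
  | insert a s ha ih => rw [sum_insert ha, sum_insert ha, ArithmeticFunction.add_apply, ih]

lemma blk_supp (i : ℕ) (f : AC) (n : ℕ) (h : blk i f n ≠ 0) : n ≤ 2 ^ i := by
  rw [blk_apply] at h
  split_ifs at h with h1
  · rw [← h1]
    exact Nat.le_pow_clog (by norm_num) n
  · exact absurd rfl h

lemma blk_supp' (i : ℕ) (f : AC) (n : ℕ) (h : blk (i + 1) f n ≠ 0) : 2 ^ i < n ∧ n ≤ 2 * 2 ^ i := by
  refine ⟨?_, ?_⟩
  · rw [blk_apply] at h
    split_ifs at h with h1
    · by_contra hcon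
      have := Nat.clog_le_of_le_pow (not_lt.1 hcon)
      omega
    · exact absurd rfl h
  · have := blk_supp (i + 1) f n h
    rwa [pow_succ', ] at this

lemma prod_supp (m : ℕ) (t : Fin m → ℕ) (F : Fin m → AC) (s : Finset (Fin m)) (n : ℕ)
    (h : (∏ i ∈ s, blk (t i) (F i)) n ≠ 0) : n ≤ 2 ^ (∑ i ∈ s, t i) := by
  induction s using Finset.induction_on generalizing n with
  | empty =>
    rw [prod_empty, ArithmeticFunction.one_apply] at h
    split_ifs at h with h1
    · rw [h1]
      simp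
    · exact absurd rfl h
  | insert a s ha ih =>
    rw [prod_insert ha, ArithmeticFunction.mul_apply] at h
    obtain ⟨x, hx, hx0⟩ := exists_ne_zero_of_sum_ne_zero h
    rw [Nat.mem_divisorsAntidiagonal] at hx
    have h1 : blk (t a) (F a) x.1 ≠ 0 := left_ne_zero_of_mul hx0
    have h2 := right_ne_zero_of_mul hx0
    have h3 := blk_supp (t a) (F a) x.1 h1
    have h4 := ih x.2 h2
    rw [sum_insert ha, pow_add, ← hx.1]
    exact Nat.mul_le_mul h3 h4

lemma prod_bound (X m : ℕ) (G : Fin m → AC) (V : ℝ) (hV : 0 ≤ V) (h : ∀ i, ∀ n, n ≤ X → ‖G i n‖ ≤ V)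
    (s : Finset (Fin m)) : ∀ n, 1 ≤ n → n ≤ X → ‖(∏ i ∈ s, G i) n‖ ≤ V ^ s.card * tau n ^ s.card := by
  induction s using Finset.induction_on with
  | empty =>
    intro n _ _
    rw [prod_empty, ArithmeticFunction.one_apply, card_empty, pow_zero, pow_zero]
    split_ifs <;> simp
  | insert a s ha ih =>
    intro n hn hnX
    rw [prod_insert ha, card_insert_of_notMem ha, ArithmeticFunction.mul_apply, pow_succ' V]
    exact coefG (fun n => G a n) (fun n => (∏ i ∈ s, G i) n) V (V ^ s.card) s.card n X hn hnX hV (by positivity)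
      (h a) ih n.divisorsAntidiagonal (fun p hp => (Nat.mem_divisorsAntidiagonal.1 hp).1)

end Pool.Agent.H561.Q4
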