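import Pool.Agent.H561.Q4.V4

set_option autoImplicit false

/-! The energy of a convolution of two sequences, one of them with small sums over the short intervals in progressions. -/

namespace Pool.Agent.H561.Q4

open Finset
open Pool.Agent.helper24_UT
open Pool.Agent.helper24_UT.II
open Pool.Agent.H376R2.MR (ch er DP FK)

/-- moments of the divisor function over a set -/
lemma tau_set' (t : ℕ) (T : Finset ℕ) (x : ℕ) (hx : 1 ≤ x) (hT : T ⊆ Icc 1 x) :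
    ∑ n ∈ T, tau n ^ (2 * t) ≤ Real.sqrt (T.card * (x * (1 + Real.log x) ^ (2 ^ (4 * t)))) := by
  apply Real.le_sqrt_of_sq_le
  have h1 := sq_sum_le_card_mul_sum_sq (s := T) (f := fun n => tau n ^ (2 * t))
  refine h1.trans ?_
  have h2 : ∑ n ∈ T, (tau n ^ (2 * t)) ^ 2 ≤ x * (1 + Real.log x) ^ (2 ^ (4 * t)) := by
    calc ∑ n ∈ T, (tau n ^ (2 * t)) ^ 2 = ∑ n ∈ T, tau n ^ (4 * t) := by
          refine Finset.sum_congr rfl fun n _ => ?_
          rw [← pow_mul]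
          congr 1
          ring
      _ ≤ ∑ n ∈ Icc 1 x, tau n ^ (4 * t) := Finset.sum_le_sum_of_subset_of_nonneg hT fun n _ _ => by
          have := tau_nonneg n
          positivity
      _ ≤ _ := tau_pow_sum (4 * t) x hx
  gcongr

/-- the energy of the error term -/
lemma errG {C : ℝ} (hC : 0 < C) (hmv : Mv C) (D ℓ E V : ℝ) (t Q Y K : ℕ) (hQ : Q = 2 ^ (4 * t)) (hD : 2 ≤ D) (hK : 1 ≤ K)
    (hY : 1 ≤ Y) (hKY : (K : ℝ) ≤ Y) (hV : 0 ≤ V)
    (hl : 1 ≤ ℓ) (hlog : Real.log (9 * Y) ≤ 2 * ℓ) (hE0 : 0 < E) (hE : E ^ 2 ≤ D) (a : ℕ → ℂ)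
    (ha : ∀ n ∈ Sh D Y, ‖a n‖ ≤ V * tau n ^ t) :
    ∑ k ∈ FK K, ‖DP (Sh D Y) a k‖ ^ 2 ≤ 270 * C * V ^ 2 * ℓ * (3 * ℓ) ^ Q * Y ^ 2 / E := by
  have hD0 : 0 < D := by linarith
  have hY0 : (0 : ℝ) < Y := by exact_mod_cast hY
  have hsub := Sh_sub hD Y
  have hlog0 : 0 ≤ Real.log (9 * (Y : ℝ)) := Real.log_nonneg (by
    have : (1 : ℝ) ≤ Y := by exact_mod_cast hY
    linarith)
  have h3l : 1 ≤ 3 * ℓ := by linarith
  have h3Q : 1 ≤ (3 * ℓ) ^ Q := one_le_pow₀ h3l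
  have h1 : ∑ n ∈ Sh D Y, tau n ^ (2 * t) ≤ 9 * (3 * ℓ) ^ Q * Y / E := by
    refine (tau_set' t (Sh D Y) (9 * Y) (by omega) hsub).trans ?_
    rw [← hQ]
    apply Real.sqrt_le_iff.mpr
    refine ⟨by positivity, ?_⟩
    have h2 : (1 + Real.log ((9 * Y : ℕ) : ℝ)) ^ Q ≤ (3 * ℓ) ^ Q := by
      push_cast
      apply pow_le_pow_left₀ (by linarith)
      linarith
    obtain ⟨M, hM⟩ : ∃ M, M = (3 * ℓ) ^ Q := ⟨_, rfl⟩
    rw [← hM] at h2 h3Q ⊢
    calc ((Sh D Y).card : ℝ) * (((9 * Y : ℕ) : ℝ) * (1 + Real.log ((9 * Y : ℕ) : ℝ)) ^ Q)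
        ≤ (8 * Y / D) * (((9 * Y : ℕ) : ℝ) * M) := by
          have := card_Sh hD Y
          gcongr
      _ = 72 * M * Y ^ 2 / D := by
          push_cast
          ring
      _ ≤ 72 * M * Y ^ 2 / E ^ 2 := by gcongr
      _ ≤ 81 * (M * M) * Y ^ 2 / E ^ 2 := by
          have : M ≤ M * M := le_mul_of_one_le_left (by linarith) h3Q
          gcongr
          nlinarith
      _ = (9 * M * Y / E) ^ 2 := by ring
  have h3 : ∑ n ∈ Sh D Y, ‖a n‖ ^ 2 ≤ V ^ 2 * (9 * (3 * ℓ) ^ Q * Y / E) := by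
    calc ∑ n ∈ Sh D Y, ‖a n‖ ^ 2 ≤ ∑ n ∈ Sh D Y, V ^ 2 * tau n ^ (2 * t) := by
          refine Finset.sum_le_sum fun n hn => ?_
          calc ‖a n‖ ^ 2 ≤ (V * tau n ^ t) ^ 2 := pow_le_pow_left₀ (norm_nonneg _) (ha n hn) 2
            _ = _ := by rw [mul_pow, ← pow_mul, mul_comm t 2]
      _ = V ^ 2 * ∑ n ∈ Sh D Y, tau n ^ (2 * t) := by rw [Finset.mul_sum]
      _ ≤ _ := by gcongr
  have h4 := energy hC hmv (Sh D Y) a (9 * Y) (9 * Y) _ K (by
    have : (1 : ℝ) ≤ Y := by exact_mod_cast hY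
    linarith) (by positivity) le_rfl (fun n hn => by
      have h4 := hsub hn
      rw [Finset.mem_Icc] at h4
      exact ⟨h4.1, by exact_mod_cast h4.2⟩) h3 hK
  refine h4.trans ?_
  calc C * (1 + Real.log (9 * Y)) * ((9 * Y + K) * (V ^ 2 * (9 * (3 * ℓ) ^ Q * Y / E)))
      ≤ C * (3 * ℓ) * ((10 * Y) * (V ^ 2 * (9 * (3 * ℓ) ^ Q * Y / E))) := by
        gcongr
        · linarith
        · linarith
    _ = 270 * C * V ^ 2 * ℓ * (3 * ℓ) ^ Q * Y ^ 2 / E := by ring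

/-- the coefficients of a convolution -/
lemma coefG (a b : ℕ → ℂ) (Va Vb : ℝ) (t n X : ℕ) (hn : 1 ≤ n) (hnX : n ≤ X) (hVa : 0 ≤ Va) (hVb : 0 ≤ Vb)
    (ha : ∀ m, m ≤ X → ‖a m‖ ≤ Va) (hb : ∀ m, 1 ≤ m → m ≤ X → ‖b m‖ ≤ Vb * tau m ^ t) (P : Finset (ℕ × ℕ))
    (hP : ∀ p ∈ P, p.1 * p.2 = n) :
    ‖∑ p ∈ P, a p.1 * b p.2‖ ≤ Va * Vb * tau n ^ (t + 1) := by
  have hn0 : n ≠ 0 := by omega
  have hsub : P ⊆ n.divisorsAntidiagonal := by
    intro p hp
    rw [Nat.mem_divisorsAntidiagonal]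
    exact ⟨hP p hp, hn0⟩
  have hcard : (n.divisorsAntidiagonal.card : ℝ) = tau n := by
    unfold tau
    rw [Finset.card_eq_sum_ones, Finset.card_eq_sum_ones, Nat.sum_divisorsAntidiagonal (f := fun _ _ => (1 : ℕ))]
  calc ‖∑ p ∈ P, a p.1 * b p.2‖ ≤ ∑ p ∈ P, ‖a p.1 * b p.2‖ := norm_sum_le _ _
    _ ≤ ∑ p ∈ n.divisorsAntidiagonal, ‖a p.1 * b p.2‖ :=
        Finset.sum_le_sum_of_subset_of_nonneg hsub fun _ _ _ => norm_nonneg _
    _ ≤ ∑ p ∈ n.divisorsAntidiagonal, Va * Vb * tau n ^ t := by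
        refine Finset.sum_le_sum fun p hp => ?_
        rw [Nat.mem_divisorsAntidiagonal] at hp
        have h1 : p.1 ≠ 0 := by
          rintro h2
          rw [h2] at hp
          omega
        have h2 : p.2 ≠ 0 := by
          rintro h3
          rw [h3] at hp
          omega
        have h3 : p.1 ≤ n := by rw [← hp.1]; exact Nat.le_mul_of_pos_right _ (Nat.pos_of_ne_zero h2)
        have h4 : p.2 ≤ n := by rw [← hp.1]; exact Nat.le_mul_of_pos_left _ (Nat.pos_of_ne_zero h1)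
        have h5 : tau p.2 ≤ tau n := tau_mono hn0 ⟨p.1, by rw [mul_comm]; exact hp.1.symm⟩
        have h6 := tau_nonneg p.2
        rw [norm_mul]
        calc ‖a p.1‖ * ‖b p.2‖ ≤ Va * (Vb * tau p.2 ^ t) :=
              mul_le_mul (ha p.1 (by omega)) (hb p.2 (by omega) (by omega)) (norm_nonneg _) hVa
          _ ≤ Va * (Vb * tau n ^ t) := by gcongr
          _ = _ := by ring
    _ = _ := by
        rw [Finset.sum_const, nsmul_eq_mul, hcard]
        ring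

/-- **The energy of a convolution.** -/
theorem twofold {C : ℝ} (hC : 0 < C) (hmv : Mv C) (D ℓ E P Va Vb : ℝ) (t Q Y q r U K : ℕ) (hQ : Q = 2 ^ (4 * (t + 1)))
    (hD : 2 ≤ D) (hK : 1 ≤ K) (hY : 1 ≤ Y) (hU : 1 ≤ U) (hUY : U ≤ 3 * Y) (hq : 1 ≤ q) (hrq : r.Coprime q)
    (hKY : (K : ℝ) ≤ Y) (hl : 1 ≤ ℓ) (hlog : Real.log (9 * Y) ≤ 2 * ℓ) (hE0 : 0 < E) (hE : E ^ 2 ≤ D) (hP : 0 ≤ P)
    (hVa : 0 ≤ Va) (hVb : 0 ≤ Vb) (KK : Finset ℤ) (hKK : KK ⊆ FK K) (a b : ℕ → ℂ)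
    (ha : ∀ m, m ≤ 9 * Y → ‖a m‖ ≤ Va) (hb : ∀ m, 1 ≤ m → m ≤ 9 * Y → ‖b m‖ ≤ Vb * tau m ^ t)
    (hsupp : ∀ m, a m ≠ 0 → U < m ∧ m ≤ 2 * U)
    (hA : ∀ k ∈ KK, ∀ s : ℕ, s < q → s.Coprime q → ∀ N₁ N₂ : ℕ, U ≤ N₁ → N₁ ≤ N₂ → N₂ ≤ 2 * U →
      ‖DP ((Ioc N₁ N₂).filter (fun n => n % q = s)) a k‖ ≤ P) :
    ∑ k ∈ KK, ‖DP ((Ioc Y (3 * Y)).filter (fun n => n % q = r % q)) (fun n => ∑ x ∈ n.divisorsAntidiagonal,
      a x.1 * b x.2) k‖ ^ 2 ≤
    2 * (270 * C * (2 * (Va * Vb)) ^ 2 * ℓ * (3 * ℓ) ^ Q * Y ^ 2 / E) +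
      2 * (((⌈D * Real.log ((3 * Y : ℕ) : ℝ)⌉₊ : ℝ) * q ^ 2) ^ 2 *
        (P ^ 2 * (C * (3 * ℓ) * ((3 * Y / U + K) * (3 * Y / U * (Vb ^ 2 * (3 * ℓ) ^ Q)))))) := by
  have hD0 : 0 < D := by linarith
  have hY1 : (1 : ℝ) ≤ Y := by exact_mod_cast hY
  have hY0 : (0 : ℝ) < Y := by linarith
  have hU0 : (0 : ℝ) < U := by exact_mod_cast hU
  have hlog3 : Real.log (3 * Y) ≤ 2 * ℓ := by
    refine (Real.log_le_log (by positivity) ?_).trans hlog
    linarith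
  -- abbreviations
  set J := range ⌈D * Real.log ((3 * Y : ℕ) : ℝ)⌉₊ ×ˢ Qs q r with hJ
  set c : ℕ → ℂ := fun n => ∑ x ∈ n.divisorsAntidiagonal, a x.1 * b x.2 with hc
  set c1 : ℕ → ℂ := fun n => ∑ p ∈ (T1 U 0 Y q r \ T2 D U 0 Y q r).filter (fun p => p.1 * p.2 = n),
    a p.1 * b p.2 with hc1
  set c2 : ℕ → ℂ := fun n => ∑ p ∈ (T2 D U 0 Y q r \ T1 U 0 Y q r).filter (fun p => p.1 * p.2 = n),
    a p.1 * b p.2 with hc2
  set fA : ℕ × (ℕ × ℕ) → ℤ → ℂ := fun j k => DP ((ce D U Y j.1).filter (fun m => m % q = j.2.1)) a k with hfA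
  set fB : ℕ × (ℕ × ℕ) → ℤ → ℂ := fun j k => DP ((JJ D U 0 Y j.1).filter (fun m => m % q = j.2.2)) b k with hfB
  have hT1 : ∀ p ∈ T1 U 0 Y q r, p.1 ≠ 0 ∧ p.2 ≠ 0 := by
    intro p hp
    simp only [T1, Finset.mem_filter, Finset.mem_product, Finset.mem_Ioc] at hp
    omega
  have hT2 : ∀ p ∈ T2 D U 0 Y q r, p.1 ≠ 0 ∧ p.2 ≠ 0 := by
    intro p hp
    simp only [T2, Finset.mem_filter, Finset.mem_product, Finset.mem_Ioc] at hp
    omega
  -- the main identity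
  have hmain : ∀ k : ℤ, DP ((Ioc Y (3 * Y)).filter (fun n => n % q = r % q)) c k =
      DP (Sh D Y) (fun n => c1 n - c2 n) k + ∑ j ∈ J, fA j k * fB j k := by
    intro k
    set F : ℕ × ℕ → ℂ := fun p => (a p.1 * ch k (Real.log p.1)) * (b p.2 * ch k (Real.log p.2)) with hF
    have h1 : DP ((Ioc Y (3 * Y)).filter (fun n => n % q = r % q)) c k = ∑ p ∈ T1 U 0 Y q r, F p := by
      rw [hF, collect ((Ioc Y (3 * Y)).filter (fun n => n % q = r % q)) (T1 U 0 Y q r) a b k hT1]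
      · unfold DP
        refine Finset.sum_congr rfl fun n hn => ?_
        congr 1
        rw [hc]
        simp only [Finset.mem_filter, Finset.mem_Ioc] at hn
        symm
        apply Finset.sum_subset
        · intro p hp
          rw [Finset.mem_filter] at hp
          rw [Nat.mem_divisorsAntidiagonal]
          exact ⟨hp.2, by omega⟩
        · intro p hp hp'
          rw [Nat.mem_divisorsAntidiagonal] at hp
          by_cases hz : a p.1 = 0
          · rw [hz, zero_mul]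
          · exfalso
            apply hp'
            obtain ⟨g1, g2⟩ := hsupp p.1 hz
            have h2 : p.2 ≠ 0 := by
              intro h3
              rw [h3] at hp
              omega
            have h3 : p.1 ≤ n := by rw [← hp.1]; exact Nat.le_mul_of_pos_right _ (Nat.pos_of_ne_zero h2)
            have h4 : p.2 ≤ n := by rw [← hp.1]; exact Nat.le_mul_of_pos_left _ (by omega)
            simp only [T1, Finset.mem_filter, Finset.mem_product, Finset.mem_Ioc]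
            rw [hp.1]
            exact ⟨⟨⟨⟨g1, by omega⟩, by omega, by omega⟩, hn.1, hn.2⟩, rfl⟩
      · intro p hp
        simp only [T1, Finset.mem_filter, Finset.mem_product, Finset.mem_Ioc] at hp
        simp only [Finset.mem_filter, Finset.mem_Ioc]
        exact ⟨hp.2.1, hp.2.2⟩
    have h2 : ∑ p ∈ T2 D U 0 Y q r, F p = ∑ j ∈ J, fA j k * fB j k := by
      rw [hF]
      exact decomp hD0 hU hq (fun m => a m * ch k (Real.log m)) (fun l => b l * ch k (Real.log l))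
    have h3 : ∑ p ∈ T1 U 0 Y q r \ T2 D U 0 Y q r, F p = DP (Sh D Y) c1 k := by
      rw [hF, collect (Sh D Y) _ a b k (fun p hp => hT1 p (Finset.mem_sdiff.mp hp).1)
        (fun p hp => sd1 hD0 hU hp)]
    have h4 : ∑ p ∈ T2 D U 0 Y q r \ T1 U 0 Y q r, F p = DP (Sh D Y) c2 k := by
      rw [hF, collect (Sh D Y) _ a b k (fun p hp => hT2 p (Finset.mem_sdiff.mp hp).1)
        (fun p hp => sd2 hD0 hU hp)]
    have h5 := Finset.sum_sdiff_sub_sum_sdiff (s₁ := T1 U 0 Y q r) (s₂ := T2 D U 0 Y q r) (f := F)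
    have h6 : DP (Sh D Y) (fun n => c1 n - c2 n) k = DP (Sh D Y) c1 k - DP (Sh D Y) c2 k := by
      unfold DP
      rw [← Finset.sum_sub_distrib]
      refine Finset.sum_congr rfl fun n _ => ?_
      ring
    rw [h1, h6, ← h2, ← h3, ← h4]
    linear_combination h5
  -- the error term
  have herr : ∑ k ∈ KK, ‖DP (Sh D Y) (fun n => c1 n - c2 n) k‖ ^ 2 ≤
      270 * C * (2 * (Va * Vb)) ^ 2 * ℓ * (3 * ℓ) ^ Q * Y ^ 2 / E := by
    refine le_trans (Finset.sum_le_sum_of_subset_of_nonneg hKK fun _ _ _ => by positivity) ?_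
    refine errG hC hmv D ℓ E (2 * (Va * Vb)) (t + 1) Q Y K hQ hD hK hY hKY (by positivity) hl hlog hE0 hE _ ?_
    intro n hn
    have hn1 := Finset.mem_Icc.mp (Sh_sub hD Y hn)
    refine (norm_sub_le _ _).trans ?_
    have h1 := coefG a b Va Vb t n (9 * Y) hn1.1 hn1.2 hVa hVb ha hb
      ((T1 U 0 Y q r \ T2 D U 0 Y q r).filter (fun p => p.1 * p.2 = n)) (fun p hp => (Finset.mem_filter.mp hp).2)
    have h2 := coefG a b Va Vb t n (9 * Y) hn1.1 hn1.2 hVa hVb ha hb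
      ((T2 D U 0 Y q r \ T1 U 0 Y q r).filter (fun p => p.1 * p.2 = n)) (fun p hp => (Finset.mem_filter.mp hp).2)
    have h3 : ‖c1 n‖ ≤ Va * Vb * tau n ^ (t + 1) := h1
    have h4 : ‖c2 n‖ ≤ Va * Vb * tau n ^ (t + 1) := h2
    linarith
  -- the products
  have hprod : ∀ j ∈ J, ∑ k ∈ KK, (‖fA j k‖ * ‖fB j k‖) ^ 2 ≤
      P ^ 2 * (C * (3 * ℓ) * ((3 * Y / U + K) * (3 * Y / U * (Vb ^ 2 * (3 * ℓ) ^ Q)))) := by
    intro j hj
    simp only [hJ, Finset.mem_product, Finset.mem_range, Qs, Finset.mem_filter] at hj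
    obtain ⟨hj1, ⟨hj2, hj3⟩, hj4⟩ := hj
    have hco : (j.2.1 * j.2.2).Coprime q := by
      have h1 : Nat.gcd (j.2.1 * j.2.2) q = Nat.gcd r q := by
        rw [Nat.gcd_comm, Nat.gcd_rec, hj4, ← Nat.gcd_rec, Nat.gcd_comm]
      rw [Nat.Coprime, h1]
      exact hrq
    have hco1 : j.2.1.Coprime q := Nat.Coprime.coprime_mul_right hco
    have hMU : (U : ℝ) ≤ MM D U j.1 := MM_ge hD0 U j.1
    have hMU0 : 0 < MM D U j.1 := by linarith
    have hfAP : ∀ k ∈ KK, ‖fA j k‖ ≤ P := by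
      intro k hk
      have hN1 : U ≤ ⌊MM D U j.1⌋₊ := Nat.le_floor hMU
      have heq : fA j k = DP ((Ioc ⌊MM D U j.1⌋₊ (max ⌊MM D U j.1⌋₊ (min (min ⌊MM D U (j.1 + 1)⌋₊ (3 * Y)) (2 * U)))).filter
          (fun n => n % q = j.2.1)) a k := by
        simp only [hfA]
        unfold DP ce
        symm
        apply Finset.sum_subset
        · intro n hn
          rw [Finset.mem_filter, Finset.mem_Ioc] at hn ⊢
          refine ⟨⟨hn.1.1, ?_⟩, hn.2⟩
          have h1 := hn.1.2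
          rw [le_max_iff] at h1
          rcases h1 with h1 | h1
          · omega
          · exact h1.trans (min_le_left _ _)
        · intro n hn hn'
          rw [Finset.mem_filter, Finset.mem_Ioc] at hn hn'
          obtain ⟨⟨h1, h2⟩, h3⟩ := hn
          by_contra hz
          have ha0 : a n ≠ 0 := fun h0 => hz (by rw [h0, zero_mul])
          obtain ⟨g1, g2⟩ := hsupp n ha0
          apply hn'
          refine ⟨⟨h1, ?_⟩, h3⟩
          rw [le_max_iff]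
          right
          exact le_min h2 g2
      rw [heq]
      rcases le_or_gt ⌊MM D U j.1⌋₊ (2 * U) with h5 | h5
      · refine hA k hk j.2.1 hj2 hco1 _ _ hN1 (le_max_left _ _) ?_
        rw [max_le_iff]
        exact ⟨h5, min_le_right _ _⟩
      · have h6 : max ⌊MM D U j.1⌋₊ (min (min ⌊MM D U (j.1 + 1)⌋₊ (3 * Y)) (2 * U)) = ⌊MM D U j.1⌋₊ := by
          apply max_eq_left
          exact (min_le_right _ _).trans h5.le
        rw [h6, Finset.Ioc_self, Finset.filter_empty]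
        unfold DP
        simp only [Finset.sum_empty, norm_zero]
        exact hP
    have hEn : ∑ k ∈ FK K, ‖fB j k‖ ^ 2 ≤ C * (3 * ℓ) * ((3 * Y / U + K) * (3 * Y / U * (Vb ^ 2 * (3 * ℓ) ^ Q))) := by
      have hYU1 : (1 : ℝ) ≤ 3 * Y / U := by
        rw [le_div_iff₀ hU0, one_mul]
        exact_mod_cast hUY
      obtain ⟨X, hX⟩ : ∃ X, X = ⌊3 * (Y : ℝ) / U⌋₊ := ⟨_, rfl⟩
      have hX1 : 1 ≤ X := by rw [hX]; exact Nat.le_floor (by simpa using hYU1)
      have hXle : (X : ℝ) ≤ 3 * Y / U := by rw [hX]; exact Nat.floor_le (by positivity)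
      have hXY : X ≤ 3 * Y := by
        have h1 : (X : ℝ) ≤ 3 * Y := by
          refine hXle.trans (div_le_self (by positivity) ?_)
          exact_mod_cast hU
        exact_mod_cast h1
      have hsub : ∀ n ∈ (JJ D U 0 Y j.1).filter (fun m => m % q = j.2.2), 1 ≤ n ∧ n ≤ X := by
        intro n hn
        rw [Finset.mem_filter, JJ, Finset.mem_Ioc] at hn
        refine ⟨by omega, ?_⟩
        rw [hX]
        apply Nat.le_floor
        have h1 : n ≤ ⌊3 * (Y : ℝ) / MM D U j.1⌋₊ := hn.1.2.trans (min_le_left _ _)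
        have h2 : (n : ℝ) ≤ 3 * Y / MM D U j.1 := (Nat.cast_le.mpr h1).trans (Nat.floor_le (by positivity))
        refine h2.trans ?_
        gcongr
      have hG : ∑ n ∈ (JJ D U 0 Y j.1).filter (fun m => m % q = j.2.2), ‖b n‖ ^ 2 ≤
          3 * Y / U * (Vb ^ 2 * (3 * ℓ) ^ Q) := by
        calc ∑ n ∈ (JJ D U 0 Y j.1).filter (fun m => m % q = j.2.2), ‖b n‖ ^ 2
            ≤ ∑ n ∈ Icc 1 X, Vb ^ 2 * tau n ^ (2 * t) := by
              refine le_trans (Finset.sum_le_sum (g := fun n => Vb ^ 2 * tau n ^ (2 * t)) fun n hn => ?_)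
                (Finset.sum_le_sum_of_subset_of_nonneg ?_ ?_)
              · obtain ⟨g1, g2⟩ := hsub n hn
                calc ‖b n‖ ^ 2 ≤ (Vb * tau n ^ t) ^ 2 :=
                      pow_le_pow_left₀ (norm_nonneg _) (hb n g1 (by omega)) 2
                  _ = _ := by rw [mul_pow, ← pow_mul, mul_comm t 2]
              · intro n hn
                rw [Finset.mem_Icc]
                exact hsub n hn
              · intro n _ _
                have := tau_nonneg n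
                positivity
          _ = Vb ^ 2 * ∑ n ∈ Icc 1 X, tau n ^ (2 * t) := by rw [Finset.mul_sum]
          _ ≤ Vb ^ 2 * (X * (1 + Real.log X) ^ (2 ^ (2 * t))) := by
              gcongr
              exact tau_pow_sum (2 * t) X hX1
          _ ≤ Vb ^ 2 * ((3 * Y / U) * (3 * ℓ) ^ Q) := by
              have hlX0 : 0 ≤ Real.log (X : ℝ) := Real.log_natCast_nonneg _
              have hlX : Real.log (X : ℝ) ≤ 2 * ℓ := by
                refine (Real.log_le_log (by exact_mod_cast hX1) ?_).trans hlog3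
                exact_mod_cast hXY
              have h1 : (1 + Real.log (X : ℝ)) ^ (2 ^ (2 * t)) ≤ (3 * ℓ) ^ Q := by
                calc (1 + Real.log (X : ℝ)) ^ (2 ^ (2 * t)) ≤ (3 * ℓ) ^ (2 ^ (2 * t)) := by
                      apply pow_le_pow_left₀ (by linarith)
                      linarith
                  _ ≤ (3 * ℓ) ^ Q := by
                      apply pow_le_pow_right₀ (by linarith)
                      rw [hQ]
                      exact Nat.pow_le_pow_right (by norm_num) (by omega)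
              gcongr
          _ = _ := by ring
      have h1 := energy hC hmv ((JJ D U 0 Y j.1).filter (fun m => m % q = j.2.2)) b (3 * Y) (3 * Y / U) _ K
        (by linarith) (by positivity) (div_le_self (by positivity) (by exact_mod_cast hU))
        (fun n hn => ⟨(hsub n hn).1, (Nat.cast_le.mpr (hsub n hn).2).trans hXle⟩) hG hK
      refine h1.trans ?_
      have h2 : 0 ≤ Real.log (3 * (Y : ℝ)) := Real.log_nonneg (by linarith)
      have h3 : 1 + Real.log (3 * (Y : ℝ)) ≤ 3 * ℓ := by linarith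
      have h4 : 0 ≤ (3 * (Y : ℝ) / U + K) * (3 * Y / U * (Vb ^ 2 * (3 * ℓ) ^ Q)) := by positivity
      exact mul_le_mul_of_nonneg_right (mul_le_mul_of_nonneg_left h3 hC.le) h4
    calc ∑ k ∈ KK, (‖fA j k‖ * ‖fB j k‖) ^ 2 ≤ ∑ k ∈ KK, P ^ 2 * ‖fB j k‖ ^ 2 := by
          refine Finset.sum_le_sum fun k hk => ?_
          rw [mul_pow]
          refine mul_le_mul_of_nonneg_right (pow_le_pow_left₀ (norm_nonneg _) (hfAP k hk) 2) (by positivity)
      _ = P ^ 2 * ∑ k ∈ KK, ‖fB j k‖ ^ 2 := by rw [Finset.mul_sum]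
      _ ≤ P ^ 2 * ∑ k ∈ FK K, ‖fB j k‖ ^ 2 := by
          gcongr
      _ ≤ _ := mul_le_mul_of_nonneg_left hEn (by positivity)
  obtain ⟨Z, hZ⟩ : ∃ Z, Z = P ^ 2 * (C * (3 * ℓ) * ((3 * Y / U + K) * (3 * Y / U * (Vb ^ 2 * (3 * ℓ) ^ Q)))) := ⟨_, rfl⟩
  have hZ0 : 0 ≤ Z := by rw [hZ]; positivity
  rw [← hZ] at hprod ⊢
  have hsum : ∑ k ∈ KK, ‖∑ j ∈ J, fA j k * fB j k‖ ^ 2 ≤ (J.card : ℝ) ^ 2 * Z := by
    calc ∑ k ∈ KK, ‖∑ j ∈ J, fA j k * fB j k‖ ^ 2
        ≤ ∑ k ∈ KK, (J.card : ℝ) * ∑ j ∈ J, (‖fA j k‖ * ‖fB j k‖) ^ 2 := by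
          refine Finset.sum_le_sum fun k _ => ?_
          have h1 : ‖∑ j ∈ J, fA j k * fB j k‖ ≤ ∑ j ∈ J, ‖fA j k‖ * ‖fB j k‖ := by
            refine (norm_sum_le _ _).trans (le_of_eq ?_)
            refine Finset.sum_congr rfl fun j _ => norm_mul _ _
          exact (pow_le_pow_left₀ (norm_nonneg _) h1 2).trans sq_sum_le_card_mul_sum_sq
      _ = (J.card : ℝ) * ∑ j ∈ J, ∑ k ∈ KK, (‖fA j k‖ * ‖fB j k‖) ^ 2 := by
          rw [← Finset.mul_sum, Finset.sum_comm]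
      _ ≤ (J.card : ℝ) * ∑ j ∈ J, Z := by
          refine mul_le_mul_of_nonneg_left (Finset.sum_le_sum hprod) (Nat.cast_nonneg _)
      _ = _ := by rw [Finset.sum_const, nsmul_eq_mul]; ring
  have hcard : (J.card : ℝ) ≤ (⌈D * Real.log ((3 * Y : ℕ) : ℝ)⌉₊ : ℝ) * q ^ 2 := by
    rw [hJ, Finset.card_product, Finset.card_range, Nat.cast_mul]
    exact mul_le_mul_of_nonneg_left (card_Qs q r) (Nat.cast_nonneg _)
  calc ∑ k ∈ KK, ‖DP ((Ioc Y (3 * Y)).filter (fun n => n % q = r % q)) c k‖ ^ 2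
      ≤ ∑ k ∈ KK, (2 * ‖DP (Sh D Y) (fun n => c1 n - c2 n) k‖ ^ 2 + 2 * ‖∑ j ∈ J, fA j k * fB j k‖ ^ 2) := by
        refine Finset.sum_le_sum fun k _ => ?_
        rw [hmain k]
        have h1 := norm_add_le (DP (Sh D Y) (fun n => c1 n - c2 n) k) (∑ j ∈ J, fA j k * fB j k)
        have h2 := pow_le_pow_left₀ (norm_nonneg _) h1 2
        nlinarith [sq_nonneg (‖DP (Sh D Y) (fun n => c1 n - c2 n) k‖ - ‖∑ j ∈ J, fA j k * fB j k‖)]
    _ = 2 * ∑ k ∈ KK, ‖DP (Sh D Y) (fun n => c1 n - c2 n) k‖ ^ 2 +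
        2 * ∑ k ∈ KK, ‖∑ j ∈ J, fA j k * fB j k‖ ^ 2 := by
        rw [Finset.sum_add_distrib, Finset.mul_sum, Finset.mul_sum]
    _ ≤ _ := by
        have h1 : (J.card : ℝ) ^ 2 * Z ≤ ((⌈D * Real.log ((3 * Y : ℕ) : ℝ)⌉₊ : ℝ) * q ^ 2) ^ 2 * Z := by
          gcongr
        linarith

end Pool.Agent.H561.Q4
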