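import Pool.Graph.R_seed8.R377.KusminLandau

set_option autoImplicit false

/-! The second difference test of van der Corput, from the inequality of Kusmin and Landau. -/

namespace Pool.Agent.H561.Q4

open Finset
open Pool.Agent.R377.KL (e kl norm_e e_sub_int)

/-- the Kusmin-Landau inequality for the reversed sequence: differences in `[θ, 3/4]` below, shifted -/
lemma piece_up (x : ℕ → ℝ) (a b : ℕ) (m : ℤ) (θ : ℝ) (hθ : 0 < θ)
    (hmono : ∀ k, a ≤ k → k + 1 < b → x (k + 1) - x k ≤ x (k + 2) - x (k + 1))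
    (hlo : ∀ k, a ≤ k → k < b → m + θ ≤ x (k + 1) - x k) (hhi : ∀ k, a ≤ k → k < b → x (k + 1) - x k ≤ m + 3 / 4) :
    ‖∑ k ∈ Ico a b, e (x k)‖ ≤ 2 + 1 / (Real.pi * θ) := by
  rw [sum_Ico_eq_sum_range]
  have h1 : ∑ j ∈ range (b - a), e (x (a + j)) = ∑ j ∈ range (b - a), e (x (a + j) - m * j) := by
    apply sum_congr rfl
    intro j _
    have := e_sub_int (x (a + j)) (m * j)
    push_cast at this
    exact this.symm
  rw [h1]
  apply kl (fun j => x (a + j) - m * j) (b - a) θ hθ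
  · intro k hk
    have := hmono (a + k) (by omega) (by omega)
    simp only [← add_assoc]
    push_cast
    linarith
  · intro k hk
    have := hlo (a + k) (by omega) (by omega)
    simp only [← add_assoc]
    push_cast
    linarith
  · intro k hk
    have := hhi (a + k) (by omega) (by omega)
    simp only [← add_assoc]
    push_cast
    linarith

/-- differences in `[m + 1/4, m + 1 - θ]`, increasing -/
lemma piece_down (x : ℕ → ℝ) (a b : ℕ) (m : ℤ) (θ : ℝ) (hθ : 0 < θ)
    (hmono : ∀ k, a ≤ k → k + 1 < b → x (k + 1) - x k ≤ x (k + 2) - x (k + 1))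
    (hlo : ∀ k, a ≤ k → k < b → m + 1 / 4 ≤ x (k + 1) - x k) (hhi : ∀ k, a ≤ k → k < b → x (k + 1) - x k ≤ m + 1 - θ) :
    ‖∑ k ∈ Ico a b, e (x k)‖ ≤ 3 + 1 / (Real.pi * θ) := by
  have hpi := Real.pi_pos
  rcases le_or_gt b a with hab | hab
  · rw [Ico_eq_empty (by omega), sum_empty, norm_zero]
    positivity
  rw [sum_eq_sum_Ico_succ_bot hab]
  have h0 : ‖∑ k ∈ Ico (a + 1) b, e (x k)‖ ≤ 2 + 1 / (Real.pi * θ) := by
    rw [sum_Ico_eq_sum_range, ← sum_range_reflect]
    have h1 : ∑ j ∈ range (b - (a + 1)), e (x (a + 1 + (b - (a + 1) - 1 - j))) =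
        ∑ j ∈ range (b - (a + 1)), e (x (b - 1 - j) - (-(m + 1 : ℤ) : ℤ) * j) := by
      apply sum_congr rfl
      intro j hj
      rw [mem_range] at hj
      have := e_sub_int (x (b - 1 - j)) (-(m + 1) * j)
      push_cast at this ⊢
      rw [this]
      congr 2
      omega
    rw [h1]
    apply kl (fun j => x (b - 1 - j) - (-(m + 1 : ℤ) : ℤ) * j) (b - (a + 1)) θ hθ
    · intro k hk
      have := hmono (b - 1 - (k + 2)) (by omega) (by omega)
      rw [show b - 1 - (k + 2) + 1 = b - 1 - (k + 1) by omega, show b - 1 - (k + 2) + 2 = b - 1 - k by omega] at this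
      push_cast
      linarith
    · intro k hk
      have := hhi (b - 1 - (k + 1)) (by omega) (by omega)
      rw [show b - 1 - (k + 1) + 1 = b - 1 - k by omega] at this
      push_cast
      linarith
    · intro k hk
      have := hlo (b - 1 - (k + 1)) (by omega) (by omega)
      rw [show b - 1 - (k + 1) + 1 = b - 1 - k by omega] at this
      push_cast
      linarith
  calc ‖e (x a) + ∑ k ∈ Ico (a + 1) b, e (x k)‖ ≤ ‖e (x a)‖ + ‖∑ k ∈ Ico (a + 1) b, e (x k)‖ := norm_add_le _ _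
    _ ≤ 1 + (2 + 1 / (Real.pi * θ)) := by rw [norm_e]; linarith
    _ = _ := by ring

open Classical in
/-- the number of the differences below `u` -/
noncomputable def Nu (x : ℕ → ℝ) (n : ℕ) (u : ℝ) : ℕ := ((range n).filter (fun k => x (k + 1) - x k < u)).card

lemma Nu_le (x : ℕ → ℝ) (n : ℕ) (u : ℝ) : Nu x n u ≤ n := by
  classical
  unfold Nu
  refine (card_filter_le _ _).trans ?_
  rw [card_range]

lemma Nu_mono (x : ℕ → ℝ) (n : ℕ) {u v : ℝ} (h : u ≤ v) : Nu x n u ≤ Nu x n v := by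
  classical
  unfold Nu
  apply card_le_card
  intro k hk
  rw [mem_filter] at hk ⊢
  exact ⟨hk.1, lt_of_lt_of_le hk.2 h⟩

lemma diff_mono (x : ℕ → ℝ) (n : ℕ) (hmono : ∀ k, k + 1 < n → x (k + 1) - x k ≤ x (k + 2) - x (k + 1)) :
    ∀ i j : ℕ, i ≤ j → j < n → x (i + 1) - x i ≤ x (j + 1) - x j := by
  intro i j hij
  induction j, hij using Nat.le_induction with
  | base => intro _; exact le_rfl
  | succ j hj ih =>
    intro hjn
    exact (ih (by omega)).trans (hmono j hjn)

/-- the differences below `u` come first -/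
lemma Nu_iff (x : ℕ → ℝ) (n : ℕ) (hmono : ∀ k, k + 1 < n → x (k + 1) - x k ≤ x (k + 2) - x (k + 1)) (u : ℝ) (k : ℕ)
    (hk : k < n) : k < Nu x n u ↔ x (k + 1) - x k < u := by
  classical
  have hd := diff_mono x n hmono
  have hset : ∀ j, j < n → x (j + 1) - x j < u → ∀ i, i ≤ j → i ∈ (range n).filter (fun k => x (k + 1) - x k < u) := by
    intro j hj hju i hij
    rw [mem_filter, mem_range]
    exact ⟨by omega, lt_of_le_of_lt (hd i j hij hj) hju⟩
  constructor
  · intro h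
    by_contra hcon
    have hsub : (range n).filter (fun k => x (k + 1) - x k < u) ⊆ range k := by
      intro i hi
      rw [mem_filter, mem_range] at hi
      rw [mem_range]
      by_contra h2
      exact hcon (lt_of_le_of_lt (hd k i (not_lt.1 h2) hi.1) hi.2)
    have := card_le_card hsub
    rw [card_range] at this
    unfold Nu at h
    omega
  · intro h
    have hsub : range (k + 1) ⊆ (range n).filter (fun k => x (k + 1) - x k < u) := by
      intro i hi
      rw [mem_range] at hi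
      exact hset k hk h i (by omega)
    have := card_le_card hsub
    rw [card_range] at this
    unfold Nu
    omega

lemma diff_lin (x : ℕ → ℝ) (n : ℕ) (lam : ℝ) (h : ∀ k, k + 1 < n → lam ≤ (x (k + 2) - x (k + 1)) - (x (k + 1) - x k)) :
    ∀ i j : ℕ, i ≤ j → j < n → lam * ((j : ℝ) - i) ≤ (x (j + 1) - x j) - (x (i + 1) - x i) := by
  intro i j hij
  induction j, hij using Nat.le_induction with
  | base => intro _; simp
  | succ j hj ih =>
    intro hjn
    have h1 := ih (by omega)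
    have h2 := h j hjn
    push_cast
    linarith

lemma diff_linU (x : ℕ → ℝ) (n : ℕ) (lam : ℝ) (h : ∀ k, k + 1 < n → (x (k + 2) - x (k + 1)) - (x (k + 1) - x k) ≤ lam) :
    ∀ i j : ℕ, i ≤ j → j < n → (x (j + 1) - x j) - (x (i + 1) - x i) ≤ lam * ((j : ℝ) - i) := by
  intro i j hij
  induction j, hij using Nat.le_induction with
  | base => intro _; simp
  | succ j hj ih =>
    intro hjn
    have h1 := ih (by omega)
    have h2 := h j hjn
    push_cast
    linarith

/-- one block of differences, from `m - δ` to `m + 1 - δ` -/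
lemma block (x : ℕ → ℝ) (n : ℕ) (lam : ℝ) (hlam : 0 < lam)
    (hlo : ∀ k, k + 1 < n → lam ≤ (x (k + 2) - x (k + 1)) - (x (k + 1) - x k)) (δ : ℝ) (hδ : 0 < δ) (hδ4 : δ ≤ 1 / 4)
    (m : ℤ) :
    ‖∑ k ∈ Ico (Nu x n (m - δ)) (Nu x n (m + 1 - δ)), e (x k)‖ ≤ 2 * δ / lam + 6 + 2 * (1 / (Real.pi * δ)) := by
  have hmono : ∀ k, k + 1 < n → x (k + 1) - x k ≤ x (k + 2) - x (k + 1) := by
    intro k hk
    have := hlo k hk
    linarith
  have hiff := Nu_iff x n hmono
  obtain ⟨a, ha⟩ : ∃ a, a = Nu x n (m - δ) := ⟨_, rfl⟩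
  obtain ⟨b, hb⟩ : ∃ b, b = Nu x n (m + δ) := ⟨_, rfl⟩
  obtain ⟨c, hc⟩ : ∃ c, c = Nu x n (m + 1 / 2) := ⟨_, rfl⟩
  obtain ⟨d, hd⟩ : ∃ d, d = Nu x n (m + 1 - δ) := ⟨_, rfl⟩
  have hab : a ≤ b := by rw [ha, hb]; exact Nu_mono x n (by linarith)
  have hbc : b ≤ c := by rw [hb, hc]; exact Nu_mono x n (by linarith)
  have hcd : c ≤ d := by rw [hc, hd]; exact Nu_mono x n (by linarith)
  have hdn : d ≤ n := by rw [hd]; exact Nu_le x n _
  rw [← ha, ← hd, ← sum_Ico_consecutive _ (hab.trans hbc) hcd, ← sum_Ico_consecutive _ hab hbc]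
  have hA : ‖∑ k ∈ Ico a b, e (x k)‖ ≤ 2 * δ / lam + 1 := by
    have h1 : ‖∑ k ∈ Ico a b, e (x k)‖ ≤ ((b - a : ℕ) : ℝ) := by
      refine (norm_sum_le _ _).trans ?_
      simp only [norm_e, sum_const, Nat.card_Ico, nsmul_eq_mul, mul_one, le_refl]
    refine h1.trans ?_
    rcases Nat.eq_zero_or_pos (b - a) with h0 | h0
    · rw [h0]
      push_cast
      positivity
    · have h2 : x (a + 1) - x a ≥ m - δ := by
        have := (not_congr (hiff (m - δ) a (by omega))).1 (by omega)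
        linarith
      have h3 : x (b - 1 + 1) - x (b - 1) < m + δ := (hiff (m + δ) (b - 1) (by omega)).1 (by omega)
      have h4 := diff_lin x n lam hlo a (b - 1) (by omega) (by omega)
      have h5 : ((b - 1 : ℕ) : ℝ) = (b : ℝ) - 1 := by
        rw [Nat.cast_sub (by omega)]
        simp
      rw [h5] at h4
      rw [Nat.cast_sub (by omega)]
      have h6 : lam * ((b : ℝ) - 1 - a) ≤ 2 * δ := by linarith
      have h7 : (b : ℝ) - 1 - a ≤ 2 * δ / lam := by
        rw [le_div_iff₀ hlam]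
        linarith
      linarith
  have hB : ‖∑ k ∈ Ico b c, e (x k)‖ ≤ 2 + 1 / (Real.pi * δ) := by
    apply piece_up x b c m δ hδ
    · intro k hk1 hk2
      exact hmono k (by omega)
    · intro k hk1 hk2
      have := (not_congr (hiff (m + δ) k (by omega))).1 (by omega)
      linarith
    · intro k hk1 hk2
      have := (hiff (m + 1 / 2) k (by omega)).1 (by omega)
      linarith
  have hC : ‖∑ k ∈ Ico c d, e (x k)‖ ≤ 3 + 1 / (Real.pi * δ) := by
    apply piece_down x c d m δ hδ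
    · intro k hk1 hk2
      exact hmono k (by omega)
    · intro k hk1 hk2
      have := (not_congr (hiff (m + 1 / 2) k (by omega))).1 (by omega)
      linarith
    · intro k hk1 hk2
      have := (hiff (m + 1 - δ) k (by omega)).1 (by omega)
      linarith
  have h1 := norm_add_le (∑ k ∈ Ico a b, e (x k) + ∑ k ∈ Ico b c, e (x k)) (∑ k ∈ Ico c d, e (x k))
  have h2 := norm_add_le (∑ k ∈ Ico a b, e (x k)) (∑ k ∈ Ico b c, e (x k))
  linarith

/-- **The second difference test.** -/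
theorem vdc2 (x : ℕ → ℝ) (n : ℕ) (lam α : ℝ) (hlam : 0 < lam) (hα : 1 ≤ α)
    (hlo : ∀ k, k + 1 < n → lam ≤ (x (k + 2) - x (k + 1)) - (x (k + 1) - x k))
    (hhi : ∀ k, k + 1 < n → (x (k + 2) - x (k + 1)) - (x (k + 1) - x k) ≤ α * lam) :
    ‖∑ k ∈ range n, e (x k)‖ ≤ 5 * α * (n * √lam) + 10 / √lam := by
  have hs0 : 0 < √lam := Real.sqrt_pos.2 hlam
  have hss : √lam * √lam = lam := Real.mul_self_sqrt hlam.le
  have htriv : ‖∑ k ∈ range n, e (x k)‖ ≤ n := by
    refine (norm_sum_le _ _).trans ?_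
    simp only [norm_e, sum_const, card_range, nsmul_eq_mul, mul_one, le_refl]
  have hn0 : (0 : ℝ) ≤ n := Nat.cast_nonneg n
  rcases le_or_gt (1 / 4) √lam with h4 | h4
  · have h1 : (n : ℝ) ≤ 5 * α * (n * √lam) := by
      have : n * (1 / 4) ≤ n * √lam := mul_le_mul_of_nonneg_left h4 hn0
      nlinarith
    have h2 : 0 < 10 / √lam := by positivity
    linarith
  rcases Nat.eq_zero_or_pos n with hn | hn
  · rw [hn]
    simp
    positivity
  obtain ⟨δ, hδ⟩ : ∃ δ, δ = √lam := ⟨_, rfl⟩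
  rw [← hδ] at hs0 hss h4 ⊢
  have hmono : ∀ k, k + 1 < n → x (k + 1) - x k ≤ x (k + 2) - x (k + 1) := by
    intro k hk
    have := hlo k hk
    linarith
  have hiff := Nu_iff x n hmono
  have hdm := diff_mono x n hmono
  obtain ⟨m0, hm0⟩ : ∃ m0 : ℤ, m0 = ⌊x (0 + 1) - x 0 + δ⌋ := ⟨_, rfl⟩
  obtain ⟨m1, hm1⟩ : ∃ m1 : ℤ, m1 = ⌊x (n - 1 + 1) - x (n - 1) + δ⌋ + 1 := ⟨_, rfl⟩
  have e0 : (m0 : ℝ) ≤ x (0 + 1) - x 0 + δ := by rw [hm0]; exact Int.floor_le _
  have e0' : x (0 + 1) - x 0 + δ < m0 + 1 := by rw [hm0]; exact Int.lt_floor_add_one _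
  have e1 : x (n - 1 + 1) - x (n - 1) + δ < m1 := by
    rw [hm1]
    push_cast
    exact Int.lt_floor_add_one _
  have e1' : (m1 : ℝ) ≤ x (n - 1 + 1) - x (n - 1) + δ + 1 := by
    rw [hm1]
    push_cast
    linarith [Int.floor_le (x (n - 1 + 1) - x (n - 1) + δ)]
  have hdd := hdm 0 (n - 1) (by omega) (by omega)
  have hm01 : m0 ≤ m1 := by
    have : (m0 : ℝ) < m1 := by linarith
    exact_mod_cast this.le
  obtain ⟨J, hJ⟩ : ∃ J : ℕ, m1 = m0 + J := ⟨(m1 - m0).toNat, by omega⟩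
  have hN0 : Nu x n (m0 - δ) = 0 := by
    by_contra hcon
    have := (hiff (m0 - δ) 0 hn).1 (by omega)
    linarith
  have hN1 : Nu x n (m1 - δ) = n := by
    have h1 := (hiff (m1 - δ) (n - 1) (by omega)).2 (by linarith)
    have h2 := Nu_le x n (m1 - δ)
    omega
  have htel : ∀ j : ℕ, ∑ k ∈ range (Nu x n ((m0 + j : ℤ) - δ)), e (x k) =
      ∑ i ∈ range j, ∑ k ∈ Ico (Nu x n ((m0 + i : ℤ) - δ)) (Nu x n ((m0 + i : ℤ) + 1 - δ)), e (x k) := by
    intro j
    induction j with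
    | zero =>
      simp only [Nat.cast_zero, add_zero, range_zero, sum_empty]
      rw [hN0]
      simp
    | succ j ih =>
      rw [sum_range_succ, ← ih, range_eq_Ico, range_eq_Ico]
      have h1 : (((m0 + ((j + 1 : ℕ) : ℤ) : ℤ) : ℝ) - δ) = ((m0 + j : ℤ) : ℝ) + 1 - δ := by
        push_cast
        ring
      rw [h1, sum_Ico_consecutive _ (Nat.zero_le _) (Nu_mono x n (by linarith))]
  have h5 := htel J
  rw [← hJ, hN1] at h5
  rw [h5]
  have hblk : ∀ i ∈ range J, ‖∑ k ∈ Ico (Nu x n ((m0 + i : ℤ) - δ)) (Nu x n ((m0 + i : ℤ) + 1 - δ)), e (x k)‖ ≤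
      5 / δ := by
    intro i _
    refine (block x n lam hlam hlo δ hs0 h4.le (m0 + i)).trans ?_
    have h6 : 2 * δ / lam = 2 / δ := by
      rw [← hss]
      field_simp
    have h7 : (6 : ℝ) ≤ (3 / 2) / δ := by
      rw [le_div_iff₀ hs0]
      linarith
    have h8 : 2 * (1 / (Real.pi * δ)) ≤ (2 / 3) / δ := by
      have hpi := Real.pi_gt_three
      have : 1 / (Real.pi * δ) ≤ 1 / (3 * δ) := by
        apply one_div_le_one_div_of_le (by positivity)
        exact mul_le_mul_of_nonneg_right hpi.le hs0.le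
      calc 2 * (1 / (Real.pi * δ)) ≤ 2 * (1 / (3 * δ)) := by linarith
        _ = (2 / 3) / δ := by field_simp
    rw [h6]
    calc 2 / δ + 6 + 2 * (1 / (Real.pi * δ)) ≤ 2 / δ + (3 / 2) / δ + (2 / 3) / δ := by linarith
      _ = (2 + 3 / 2 + 2 / 3) / δ := by ring
      _ ≤ 5 / δ := by
          apply div_le_div_of_nonneg_right _ hs0.le
          norm_num
  have hJr : (J : ℝ) ≤ α * lam * n + 2 := by
    have h6 : (J : ℝ) = m1 - m0 := by
      rw [hJ]
      push_cast
      ring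
    have h7 := diff_linU x n (α * lam) hhi 0 (n - 1) (by omega) (by omega)
    have h8 : ((n - 1 : ℕ) : ℝ) ≤ n := by exact_mod_cast Nat.sub_le n 1
    have h9 : α * lam * (((n - 1 : ℕ) : ℝ) - (0 : ℕ)) ≤ α * lam * n := by
      apply mul_le_mul_of_nonneg_left _ (by positivity)
      push_cast
      linarith
    linarith
  calc ‖∑ i ∈ range J, ∑ k ∈ Ico (Nu x n ((m0 + i : ℤ) - δ)) (Nu x n ((m0 + i : ℤ) + 1 - δ)), e (x k)‖
      ≤ ∑ i ∈ range J, 5 / δ := (norm_sum_le _ _).trans (sum_le_sum hblk)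
    _ = J * (5 / δ) := by rw [sum_const, card_range, nsmul_eq_mul]
    _ ≤ (α * lam * n + 2) * (5 / δ) := mul_le_mul_of_nonneg_right hJr (by positivity)
    _ = 5 * α * (n * δ) + 10 / δ := by
        rw [← hss]
        field_simp
        ring

end Pool.Agent.H561.Q4
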