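import Pool.Agent.H561.Q4.V1

set_option autoImplicit false

/-! The inequality of van der Corput (Weyl differencing) for finite sums. -/

namespace Pool.Agent.H561.Q4

open Finset
open scoped ComplexConjugate

/-- truncation -/
noncomputable def Zt (z : ℕ → ℂ) (L : ℕ) (n : ℕ) : ℂ := if n < L then z n else 0

/-- shifts -/
noncomputable def Ut (z : ℕ → ℂ) (L h m : ℕ) : ℂ := if h ≤ m then Zt z L (m - h) else 0

lemma sum_shift (f : ℕ → ℂ) (R h : ℕ) (hh : h ≤ R) :
    ∑ m ∈ range R, (if h ≤ m then f (m - h) else 0) = ∑ n ∈ range (R - h), f n := by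
  rw [← sum_filter]
  have h1 : (range R).filter (fun m => h ≤ m) = (range (R - h)).image (fun n => n + h) := by
    ext m
    simp only [mem_filter, mem_range, mem_image]
    constructor
    · rintro ⟨h1, h2⟩
      exact ⟨m - h, by omega, by omega⟩
    · rintro ⟨n, h1, h2⟩
      omega
  rw [h1, sum_image]
  · apply sum_congr rfl
    intro n _
    rw [Nat.add_sub_cancel]
  · intro a _ b _ hab
    simp only at hab
    omega

lemma sum_Zt (z : ℕ → ℂ) (L R : ℕ) (h : L ≤ R) : ∑ n ∈ range R, Zt z L n = ∑ n ∈ range L, z n := by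
  unfold Zt
  rw [← sum_filter]
  congr 1
  ext n
  simp only [mem_filter, mem_range]
  omega

lemma sum_Ut (z : ℕ → ℂ) (L H h : ℕ) (hh : h < H) : ∑ m ∈ range (L + H), Ut z L h m = ∑ n ∈ range L, z n := by
  unfold Ut
  rw [sum_shift (Zt z L) (L + H) h (by omega), sum_Zt z L _ (by omega)]

/-- the correlation with shift `d` -/
noncomputable def Kc (z : ℕ → ℂ) (L d : ℕ) : ℝ := ‖∑ n ∈ range (L - d), z (n + d) * conj (z n)‖

lemma corr_lt (z : ℕ → ℂ) (L H h1 h2 : ℕ) (h12 : h1 ≤ h2) (h2H : h2 < H) :
    ∑ m ∈ range (L + H), Ut z L h1 m * conj (Ut z L h2 m) = ∑ n ∈ range (L - (h2 - h1)), z (n + (h2 - h1)) * conj (z n) := by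
  obtain ⟨d, hd⟩ : ∃ d, h2 = h1 + d := ⟨h2 - h1, by omega⟩
  subst hd
  rw [Nat.add_sub_cancel_left]
  have h3 : ∑ m ∈ range (L + H), Ut z L h1 m * conj (Ut z L (h1 + d) m) =
      ∑ m ∈ range (L + H), (if h1 + d ≤ m then (fun n => Zt z L (n + d) * conj (Zt z L n)) (m - (h1 + d)) else 0) := by
    apply sum_congr rfl
    intro m _
    unfold Ut
    by_cases h : h1 + d ≤ m
    · rw [if_pos h, if_pos (by omega), if_pos h]
      simp only
      congr 2
      omega
    · rw [if_neg h, if_neg h, map_zero, mul_zero]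
  rw [h3, sum_shift (fun n => Zt z L (n + d) * conj (Zt z L n)) (L + H) (h1 + d) (by omega)]
  have h4 : ∀ n, Zt z L (n + d) * conj (Zt z L n) = if n < L - d then z (n + d) * conj (z n) else 0 := by
    intro n
    unfold Zt
    by_cases h : n < L - d
    · rw [if_pos (by omega), if_pos (by omega), if_pos h]
    · rw [if_neg (by omega), zero_mul, if_neg h]
  simp only [h4]
  rw [← sum_filter]
  congr 1
  ext n
  simp only [mem_filter, mem_range]
  omega

lemma corr_norm (z : ℕ → ℂ) (L H h1 h2 : ℕ) (h1H : h1 < H) (h2H : h2 < H) :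
    ‖∑ m ∈ range (L + H), Ut z L h1 m * conj (Ut z L h2 m)‖ = Kc z L (max h1 h2 - min h1 h2) := by
  rcases le_total h1 h2 with h | h
  · rw [corr_lt z L H h1 h2 h h2H, max_eq_right h, min_eq_left h]
    rfl
  · rw [max_eq_left h, min_eq_right h]
    have h3 : ∑ m ∈ range (L + H), Ut z L h1 m * conj (Ut z L h2 m) =
        conj (∑ m ∈ range (L + H), Ut z L h2 m * conj (Ut z L h1 m)) := by
      rw [map_sum]
      apply sum_congr rfl
      intro m _
      rw [map_mul, Complex.conj_conj, mul_comm]
    rw [h3, Complex.norm_conj, corr_lt z L H h2 h1 h h1H]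
    rfl

/-- **van der Corput's inequality.** -/
theorem aproc (z : ℕ → ℂ) (L H : ℕ) (hz : ∀ n, ‖z n‖ ≤ 1) (hH : 1 ≤ H) (hHL : H ≤ L) :
    ‖∑ n ∈ range L, z n‖ ^ 2 ≤ 2 * (L : ℝ) ^ 2 / H + 4 * L / H * ∑ h ∈ Ico 1 H, Kc z L h := by
  obtain ⟨S, hS⟩ : ∃ S, S = ∑ n ∈ range L, z n := ⟨_, rfl⟩
  rw [← hS]
  have hH0 : (0 : ℝ) < H := by exact_mod_cast hH
  have hL0 : (0 : ℝ) ≤ L := Nat.cast_nonneg _
  have hHLr : (H : ℝ) ≤ L := by exact_mod_cast hHL
  have hK0 : ∀ h, 0 ≤ Kc z L h := fun h => norm_nonneg _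
  -- the sum of the shifts
  have h1 : ∑ m ∈ range (L + H), ∑ h ∈ range H, Ut z L h m = H * S := by
    rw [sum_comm]
    calc ∑ h ∈ range H, ∑ m ∈ range (L + H), Ut z L h m = ∑ h ∈ range H, S := by
          apply sum_congr rfl
          intro h hh
          rw [mem_range] at hh
          rw [sum_Ut z L H h hh, hS]
      _ = H * S := by rw [sum_const, card_range, nsmul_eq_mul]
  have h2 : (H : ℝ) ^ 2 * ‖S‖ ^ 2 ≤ (L + H : ℕ) * ∑ m ∈ range (L + H), ‖∑ h ∈ range H, Ut z L h m‖ ^ 2 := by
    have e1 : (H : ℝ) * ‖S‖ = ‖(H : ℂ) * S‖ := by rw [norm_mul, Complex.norm_natCast]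
    rw [← mul_pow, e1, ← h1]
    have e2 : ‖∑ m ∈ range (L + H), ∑ h ∈ range H, Ut z L h m‖ ≤ ∑ m ∈ range (L + H), ‖∑ h ∈ range H, Ut z L h m‖ :=
      norm_sum_le _ _
    refine (pow_le_pow_left₀ (norm_nonneg _) e2 2).trans ?_
    refine sq_sum_le_card_mul_sum_sq.trans ?_
    rw [card_range]
  have h3 : ∑ m ∈ range (L + H), ‖∑ h ∈ range H, Ut z L h m‖ ^ 2 ≤ H * (L + 2 * ∑ h ∈ Ico 1 H, Kc z L h) := by
    have e1 : ((∑ m ∈ range (L + H), ‖∑ h ∈ range H, Ut z L h m‖ ^ 2 : ℝ) : ℂ) =
        ∑ h1 ∈ range H, ∑ h2 ∈ range H, ∑ m ∈ range (L + H), Ut z L h1 m * conj (Ut z L h2 m) := by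
      push_cast
      have e2 : ∀ m, ((‖∑ h ∈ range H, Ut z L h m‖ : ℝ) : ℂ) ^ 2 =
          ∑ h1 ∈ range H, ∑ h2 ∈ range H, Ut z L h1 m * conj (Ut z L h2 m) := by
        intro m
        rw [← Complex.mul_conj', map_sum, sum_mul_sum]
      simp only [e2]
      rw [sum_comm]
      apply sum_congr rfl
      intro h1 _
      rw [sum_comm]
    have e3 : ∑ m ∈ range (L + H), ‖∑ h ∈ range H, Ut z L h m‖ ^ 2 =
        ‖∑ h1 ∈ range H, ∑ h2 ∈ range H, ∑ m ∈ range (L + H), Ut z L h1 m * conj (Ut z L h2 m)‖ := by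
      rw [← e1, Complex.norm_real, Real.norm_of_nonneg]
      exact sum_nonneg fun _ _ => sq_nonneg _
    rw [e3]
    calc ‖∑ h1 ∈ range H, ∑ h2 ∈ range H, ∑ m ∈ range (L + H), Ut z L h1 m * conj (Ut z L h2 m)‖
        ≤ ∑ h1 ∈ range H, ∑ h2 ∈ range H, Kc z L (max h1 h2 - min h1 h2) := by
          refine (norm_sum_le _ _).trans (sum_le_sum fun h1 hh1 => ?_)
          refine (norm_sum_le _ _).trans (sum_le_sum fun h2 hh2 => ?_)
          rw [mem_range] at hh1 hh2
          exact (corr_norm z L H h1 h2 hh1 hh2).le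
      _ ≤ ∑ h1 ∈ range H, (L + 2 * ∑ h ∈ Ico 1 H, Kc z L h) := by
          apply sum_le_sum
          intro h1 hh1
          rw [mem_range] at hh1
          have f1 : range H = (Ico 0 h1) ∪ {h1} ∪ Ico (h1 + 1) H := by
            ext i
            simp only [mem_range, mem_union, mem_Ico, mem_singleton]
            omega
          have f2 : Kc z L 0 ≤ L := by
            unfold Kc
            refine (norm_sum_le _ _).trans ?_
            calc ∑ n ∈ range (L - 0), ‖z (n + 0) * conj (z n)‖ ≤ ∑ n ∈ range (L - 0), (1 : ℝ) := by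
                  apply sum_le_sum
                  intro n _
                  rw [norm_mul, Complex.norm_conj]
                  have := hz n
                  have := hz (n + 0)
                  exact mul_le_one₀ this (norm_nonneg _) (hz n)
              _ = L := by simp
          have f3 : ∑ h2 ∈ Ico 0 h1, Kc z L (max h1 h2 - min h1 h2) ≤ ∑ h ∈ Ico 1 H, Kc z L h := by
            have g1 : ∑ h2 ∈ Ico 0 h1, Kc z L (max h1 h2 - min h1 h2) = ∑ h ∈ (Ico 0 h1).image (fun i => h1 - i), Kc z L h := by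
              rw [sum_image]
              · apply sum_congr rfl
                intro i hi
                rw [mem_Ico] at hi
                rw [max_eq_left (by omega), min_eq_right (by omega)]
              · intro a ha b hb hab
                rw [mem_coe, mem_Ico] at ha hb
                simp only at hab
                omega
            rw [g1]
            apply sum_le_sum_of_subset_of_nonneg
            · intro i hi
              rw [mem_image] at hi
              obtain ⟨j, hj, rfl⟩ := hi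
              rw [mem_Ico] at hj ⊢
              omega
            · intro i _ _
              exact hK0 i
          have f4 : ∑ h2 ∈ Ico (h1 + 1) H, Kc z L (max h1 h2 - min h1 h2) ≤ ∑ h ∈ Ico 1 H, Kc z L h := by
            have g1 : ∑ h2 ∈ Ico (h1 + 1) H, Kc z L (max h1 h2 - min h1 h2) =
                ∑ h ∈ (Ico (h1 + 1) H).image (fun i => i - h1), Kc z L h := by
              rw [sum_image]
              · apply sum_congr rfl
                intro i hi
                rw [mem_Ico] at hi
                rw [max_eq_right (by omega), min_eq_left (by omega)]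
              · intro a ha b hb hab
                rw [mem_coe, mem_Ico] at ha hb
                simp only at hab
                omega
            rw [g1]
            apply sum_le_sum_of_subset_of_nonneg
            · intro i hi
              rw [mem_image] at hi
              obtain ⟨j, hj, rfl⟩ := hi
              rw [mem_Ico] at hj ⊢
              omega
            · intro i _ _
              exact hK0 i
          rw [f1, sum_union, sum_union, sum_singleton, max_self, min_self, Nat.sub_self]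
          · linarith
          · rw [disjoint_left]
            intro i hi hi2
            rw [mem_Ico] at hi
            rw [mem_singleton] at hi2
            omega
          · rw [disjoint_left]
            intro i hi hi2
            rw [mem_union, mem_Ico, mem_singleton] at hi
            rw [mem_Ico] at hi2
            omega
      _ = H * (L + 2 * ∑ h ∈ Ico 1 H, Kc z L h) := by rw [sum_const, card_range, nsmul_eq_mul]
  obtain ⟨T, hT⟩ : ∃ T, T = ∑ h ∈ Ico 1 H, Kc z L h := ⟨_, rfl⟩
  have hT0 : 0 ≤ T := by rw [hT]; exact sum_nonneg fun h _ => hK0 h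
  rw [← hT] at h3 ⊢
  have h4 : (H : ℝ) ^ 2 * ‖S‖ ^ 2 ≤ (2 * L) * (H * (L + 2 * T)) := by
    refine h2.trans ?_
    push_cast
    have : 0 ≤ ∑ m ∈ range (L + H), ‖∑ h ∈ range H, Ut z L h m‖ ^ 2 := sum_nonneg fun _ _ => sq_nonneg _
    calc ((L : ℝ) + H) * ∑ m ∈ range (L + H), ‖∑ h ∈ range H, Ut z L h m‖ ^ 2
        ≤ (2 * L) * ∑ m ∈ range (L + H), ‖∑ h ∈ range H, Ut z L h m‖ ^ 2 := by
          apply mul_le_mul_of_nonneg_right _ this
          linarith
      _ ≤ (2 * L) * (H * (L + 2 * T)) := mul_le_mul_of_nonneg_left h3 (by positivity)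
  have h5 : 2 * (L : ℝ) ^ 2 / H + 4 * L / H * T = ((2 * L) * (H * (L + 2 * T))) / H ^ 2 := by
    field_simp
    ring
  rw [h5, le_div_iff₀ (by positivity)]
  linarith

end Pool.Agent.H561.Q4
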