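import Pool.Agent.H561.Q4.V3
import Pool.Graph.R_pool_sql_team_seeded_620a6dc7.helper24_UT_.II

set_option autoImplicit false

/-! The sums of `n ^ (-ik)` in arithmetic progressions. -/

namespace Pool.Agent.H561.Q4

open Finset
open Pool.Agent.helper24_UT
open Pool.Agent.R377.KL (e norm_e e_add)
open Pool.Agent.H376R2.MR (ch er DP FK)

lemma tw_eq (k : ℤ) (q : ℕ) (y : ℝ) (hq : 1 ≤ q) (hy : 1 ≤ y) (j : ℕ) (n : ℕ) (hn : (n : ℝ) = q * (y + j)) :
    tw k n = tw k q * e (-((k : ℝ) / (2 * Real.pi) * Real.log (y + j))) := by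
  have hq0 : (0 : ℝ) < q := by exact_mod_cast hq
  have hyj : 0 < y + j := by positivity
  have hpi := Real.pi_pos
  unfold tw er e
  rw [← Complex.exp_add, hn, Real.log_mul hq0.ne' hyj.ne']
  congr 1
  have hpi' : (Real.pi : ℂ) ≠ 0 := by exact_mod_cast hpi.ne'
  push_cast
  field_simp
  ring

lemma tw_norm (k : ℝ) (x : ℝ) : ‖tw k x‖ = 1 := by
  unfold tw er
  exact Complex.norm_exp_ofReal_mul_I _

lemma kl_abs (k : ℤ) (y : ℝ) (L : ℕ) :
    ‖∑ j ∈ range L, e (-((k : ℝ) / (2 * Real.pi) * Real.log (y + j)))‖ =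
      ‖∑ j ∈ range L, e (|(k : ℝ)| / (2 * Real.pi) * Real.log (y + j))‖ := by
  rcases le_total 0 (k : ℝ) with h | h
  · rw [abs_of_nonneg h]
    exact norm_sum_neg (fun j : ℕ => (k : ℝ) / (2 * Real.pi) * Real.log (y + j)) _
  · rw [abs_of_nonpos h]
    congr 1
    apply sum_congr rfl
    intro j _
    congr 1
    ring

/-- the sum over a progression as a sum of `e (κ log (y + j))` -/
theorem apsum (k : ℤ) (q s N N1 N2 : ℕ) (hq : 1 ≤ q) (hs : s < q) (hqN : q ≤ N) (h1 : N ≤ N1) (h12 : N1 ≤ N2)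
    (h2 : N2 ≤ 2 * N) :
    ∑ n ∈ (Ioc N1 N2).filter (fun n => n % q = s), tw k n = 0 ∨
    ∃ (y : ℝ) (L : ℕ), 1 ≤ y ∧ (N : ℝ) / q ≤ y ∧ q * y ≤ 2 * N ∧ (L : ℝ) ≤ y + 1 ∧
      ‖∑ n ∈ (Ioc N1 N2).filter (fun n => n % q = s), tw k n‖ =
        ‖∑ j ∈ range L, e (|(k : ℝ)| / (2 * Real.pi) * Real.log (y + j))‖ := by
  have hq0 : (0 : ℝ) < q := by exact_mod_cast hq
  obtain ⟨m1, hm1⟩ : ∃ m1, m1 = (N1 - s) / q := ⟨_, rfl⟩
  obtain ⟨m2, hm2⟩ : ∃ m2, m2 = (N2 - s) / q := ⟨_, rfl⟩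
  have hset : (Ioc N1 N2).filter (fun n => n % q = s) = (Ioc m1 m2).image (fun m => q * m + s) := by
    ext n
    simp only [mem_filter, mem_Ioc, mem_image]
    constructor
    · rintro ⟨⟨h3, h4⟩, h5⟩
      have h6 := Nat.div_add_mod n q
      rw [h5] at h6
      refine ⟨n / q, ⟨?_, ?_⟩, h6⟩
      · rw [hm1]
        apply Nat.div_lt_of_lt_mul
        omega
      · rw [hm2]
        rw [Nat.le_div_iff_mul_le (by omega), mul_comm]
        omega
    · rintro ⟨m, ⟨h3, h4⟩, rfl⟩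
      refine ⟨⟨?_, ?_⟩, ?_⟩
      · rw [hm1, Nat.div_lt_iff_lt_mul (by omega), mul_comm] at h3
        omega
      · rw [hm2, Nat.le_div_iff_mul_le (by omega), mul_comm] at h4
        have : s ≤ N2 := by omega
        omega
      · rw [Nat.mul_add_mod]
        exact Nat.mod_eq_of_lt hs
  have hsum : ∑ n ∈ (Ioc N1 N2).filter (fun n => n % q = s), tw k n =
      ∑ m ∈ Ioc m1 m2, tw k ((q * m + s : ℕ) : ℝ) := by
    rw [hset, sum_image]
    intro a _ b _ hab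
    simp only at hab
    have : q * a = q * b := by omega
    exact Nat.eq_of_mul_eq_mul_left (by omega) this
  rcases Nat.lt_or_ge m1 m2 with hm | hm
  · right
    obtain ⟨y, hy⟩ : ∃ y : ℝ, y = m1 + 1 + (s : ℝ) / q := ⟨_, rfl⟩
    have hqy : q * y = q * (m1 + 1) + s := by
      rw [hy]
      field_simp
    have hm10 : (0 : ℝ) ≤ m1 := Nat.cast_nonneg _
    have hs0 : (0 : ℝ) ≤ (s : ℝ) / q := by positivity
    have hy1 : 1 ≤ y := by rw [hy]; linarith
    have hN1y : (N1 : ℝ) < q * y := by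
      rw [hqy]
      have h3 : (N1 - s) / q < m1 + 1 := by omega
      rw [Nat.div_lt_iff_lt_mul (by omega), mul_comm] at h3
      have h4 : N1 < q * (m1 + 1) + s := by omega
      exact_mod_cast h4
    have hm2le : q * m2 + s ≤ N2 := by
      have h4 : m2 ≤ (N2 - s) / q := by omega
      rw [Nat.le_div_iff_mul_le (by omega), mul_comm] at h4
      omega
    have hm2r : (q : ℝ) * m2 + s ≤ 2 * N := by
      have : q * m2 + s ≤ 2 * N := hm2le.trans h2
      exact_mod_cast this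
    have hN1r : (N : ℝ) ≤ N1 := by exact_mod_cast h1
    refine ⟨y, m2 - m1, hy1, ?_, ?_, ?_, ?_⟩
    · rw [div_le_iff₀ hq0]
      linarith
    · rw [hqy]
      have : (m1 : ℝ) + 1 ≤ m2 := by exact_mod_cast hm
      have : (q : ℝ) * (m1 + 1) ≤ q * m2 := mul_le_mul_of_nonneg_left this hq0.le
      linarith
    · rw [Nat.cast_sub hm.le]
      have e1 : (q : ℝ) * (m2 - m1) ≤ q * (y + 1) := by
        have e2 : (q : ℝ) * m2 + s ≤ 2 * (q * y) := by linarith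
        have e3 : q * y = q * m1 + q + s := by rw [hqy]; ring
        nlinarith
      exact le_of_mul_le_mul_left e1 hq0
    · rw [← kl_abs, hsum]
      have h3 : ∑ m ∈ Ioc m1 m2, tw k ((q * m + s : ℕ) : ℝ) =
          tw k q * ∑ j ∈ range (m2 - m1), e (-((k : ℝ) / (2 * Real.pi) * Real.log (y + j))) := by
        have h4 : Ioc m1 m2 = Ico (m1 + 1) (m2 + 1) := by
          ext i
          simp only [mem_Ioc, mem_Ico]
          omega
        rw [h4, sum_Ico_eq_sum_range, mul_sum]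
        have h5 : m2 + 1 - (m1 + 1) = m2 - m1 := by omega
        rw [h5]
        apply sum_congr rfl
        intro j _
        apply tw_eq k q y hq hy1 j
        rw [hy]
        push_cast
        field_simp
        ring
      rw [h3, norm_mul, tw_norm, one_mul]
  · left
    rw [hsum, Ioc_eq_empty (by omega), sum_empty]

/-- few oscillations -/
theorem ap1 (k : ℤ) (q s N N1 N2 : ℕ) (hq : 1 ≤ q) (hs : s < q) (hqN : q ≤ N) (h1 : N ≤ N1) (h12 : N1 ≤ N2)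
    (h2 : N2 ≤ 2 * N) (hk : k ≠ 0) (hkN : |(k : ℝ)| ≤ N / q) :
    ‖∑ n ∈ (Ioc N1 N2).filter (fun n => n % q = s), tw k n‖ ≤ 52 * (N / |(k : ℝ)|) := by
  have hk0 : 0 < |(k : ℝ)| := abs_pos.2 (by exact_mod_cast hk)
  have hq0 : (1 : ℝ) ≤ q := by exact_mod_cast hq
  have hpi := Real.pi_gt_three
  have hpi2 := Real.pi_lt_d4
  have hN0 : (0 : ℝ) ≤ N := Nat.cast_nonneg _
  rcases apsum k q s N N1 N2 hq hs hqN h1 h12 h2 with h | ⟨y, L, hy, hNy, hyN, hL, he⟩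
  · rw [h, norm_zero]
    positivity
  rw [he]
  have hy0 : 0 < y := by linarith
  have hyN' : y ≤ 2 * N := by nlinarith
  refine (logsum1 (|(k : ℝ)| / (2 * Real.pi)) y L (by positivity) hy ?_ hL).trans ?_
  · rw [div_le_iff₀ (by positivity)]
    nlinarith
  · have e1 : 4 * y / (|(k : ℝ)| / (2 * Real.pi)) = (8 * Real.pi) * (y / |(k : ℝ)|) := by
      field_simp
      ring
    rw [e1]
    calc (8 * Real.pi) * (y / |(k : ℝ)|) ≤ 26 * (2 * N / |(k : ℝ)|) := by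
          gcongr
          linarith
      _ = 52 * (N / |(k : ℝ)|) := by ring

/-- the second difference test -/
theorem ap2 (k : ℤ) (q s N N1 N2 : ℕ) (hq : 1 ≤ q) (hs : s < q) (hqN : q ≤ N) (h1 : N ≤ N1) (h12 : N1 ≤ N2)
    (h2 : N2 ≤ 2 * N) (hk : k ≠ 0) :
    ‖∑ n ∈ (Ioc N1 N2).filter (fun n => n % q = s), tw k n‖ ^ 2 ≤ 50000 * (|(k : ℝ)| + N ^ 2 / |(k : ℝ)|) := by
  have hk0 : 0 < |(k : ℝ)| := abs_pos.2 (by exact_mod_cast hk)
  have hq0 : (1 : ℝ) ≤ q := by exact_mod_cast hq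
  have hpi := Real.pi_gt_three
  have hpi2 := Real.pi_lt_d4
  have hN0 : (0 : ℝ) ≤ N := Nat.cast_nonneg _
  rcases apsum k q s N N1 N2 hq hs hqN h1 h12 h2 with h | ⟨y, L, hy, hNy, hyN, hL, he⟩
  · rw [h, norm_zero, zero_pow two_ne_zero]
    positivity
  rw [he]
  have hy0 : 0 < y := by linarith
  have hyN' : y ≤ 2 * N := by nlinarith
  refine (logsum2 (|(k : ℝ)| / (2 * Real.pi)) y L (by positivity) hy hL).trans ?_
  have e1 : |(k : ℝ)| / (2 * Real.pi) ≤ |(k : ℝ)| := by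
    apply div_le_self hk0.le
    linarith
  have e2 : y ^ 2 / (|(k : ℝ)| / (2 * Real.pi)) ≤ 26 * (N ^ 2 / |(k : ℝ)|) := by
    have e3 : y ^ 2 / (|(k : ℝ)| / (2 * Real.pi)) = (2 * Real.pi) * (y ^ 2 / |(k : ℝ)|) := by
      field_simp
    rw [e3]
    calc (2 * Real.pi) * (y ^ 2 / |(k : ℝ)|) ≤ (26 / 4) * ((2 * N) ^ 2 / |(k : ℝ)|) := by
          gcongr
          linarith
      _ = 26 * (N ^ 2 / |(k : ℝ)|) := by ring
  have e4 : 0 ≤ (N : ℝ) ^ 2 / |(k : ℝ)| := by positivity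
  linarith

/-- the third difference test, `|k| = r ^ 3` -/
theorem ap3 (k : ℤ) (q s N N1 N2 : ℕ) (hq : 1 ≤ q) (hs : s < q) (hqN : q ≤ N) (h1 : N ≤ N1) (h12 : N1 ≤ N2)
    (h2 : N2 ≤ 2 * N) (r : ℝ) (hr : 2 ≤ r) (hrk : r ^ 3 = |(k : ℝ)|) (hrN : r ≤ N / q) :
    ‖∑ n ∈ (Ioc N1 N2).filter (fun n => n % q = s), tw k n‖ ^ 2 ≤ 32000 * (N * r + N ^ 2 / r) := by
  have hq0 : (1 : ℝ) ≤ q := by exact_mod_cast hq
  have hpi := Real.pi_gt_three
  have hpi2 := Real.pi_lt_d4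
  have hN0 : (0 : ℝ) ≤ N := Nat.cast_nonneg _
  have hr0 : 0 < r := by linarith
  rcases apsum k q s N N1 N2 hq hs hqN h1 h12 h2 with h | ⟨y, L, hy, hNy, hyN, hL, he⟩
  · rw [h, norm_zero, zero_pow two_ne_zero]
    positivity
  rw [he]
  have hy0 : 0 < y := by linarith
  have hyN' : y ≤ 2 * N := by nlinarith
  obtain ⟨ρ, hρ⟩ : ∃ ρ : ℝ, ρ = (|(k : ℝ)| / (2 * Real.pi)) ^ (1 / 3 : ℝ) := ⟨_, rfl⟩
  have hρ0 : 0 ≤ ρ := by rw [hρ]; positivity
  have hρ3 : ρ ^ 3 = |(k : ℝ)| / (2 * Real.pi) := by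
    rw [hρ, ← Real.rpow_natCast, ← Real.rpow_mul (by positivity)]
    norm_num
  have hρ1 : 1 ≤ ρ := by
    by_contra hcon
    push Not at hcon
    have e1 : ρ ^ 3 < 1 := pow_lt_one₀ hρ0 hcon (by norm_num)
    rw [hρ3, ← hrk, div_lt_one (by positivity)] at e1
    have e2 : (2 : ℝ) ^ 3 ≤ r ^ 3 := pow_le_pow_left₀ (by norm_num) hr 3
    linarith
  have hρr : ρ ≤ r := by
    apply le_of_pow_le_pow_left₀ (n := 3) (by norm_num) hr0.le
    rw [hρ3, hrk]
    apply div_le_self (abs_nonneg _)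
    linarith
  have hrρ : r ≤ 2 * ρ := by
    apply le_of_pow_le_pow_left₀ (n := 3) (by norm_num) (by positivity)
    rw [mul_pow, hρ3, hrk, mul_div_assoc', le_div_iff₀ (by positivity)]
    have : 0 ≤ |(k : ℝ)| := abs_nonneg _
    nlinarith
  have hmain := logsum3 ρ y L hρ1 (by linarith) hL
  rw [hρ3] at hmain
  refine hmain.trans ?_
  have e1 : y * ρ ≤ 2 * (N * r) := by
    calc y * ρ ≤ (2 * N) * r := by gcongr
      _ = _ := by ring
  have e2 : y ^ 2 / ρ ≤ 8 * (N ^ 2 / r) := by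
    calc y ^ 2 / ρ ≤ (2 * N) ^ 2 / (r / 2) := by
          gcongr
          linarith
      _ = 8 * (N ^ 2 / r) := by
          field_simp
          ring
  have e3 : 0 ≤ (N : ℝ) * r := by positivity
  have e4 : 0 ≤ (N : ℝ) ^ 2 / r := by positivity
  linarith

end Pool.Agent.H561.Q4
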